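import Mathlib

set_option autoImplicit false

/-!
# Inner regular capacities on `R^{2m} = V × V` and capacity preserving embeddings
-/

namespace Pool.Agent.H36.CSymp

open Set Metric Topology Filter
open scoped ENNReal

/-- the space `R^m` with the supremum norm -/
abbrev V (m : ℕ) : Type := Fin m → ℝ

/-- the space `R^{2m}`, with points `(q, p)` -/
abbrev E (m : ℕ) : Type := V m × V m

/-- the dot product -/
def dt {m : ℕ} (u v : V m) : ℝ := ∑ j, u j * v j

/-- the standard symplectic form -/
def Om {m : ℕ} (u v : E m) : ℝ := dt u.1 v.2 - dt u.2 v.1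

lemma dt_add_left {m : ℕ} (u u' v : V m) : dt (u + u') v = dt u v + dt u' v := by
  simp [dt, add_mul, Finset.sum_add_distrib]

lemma dt_add_right {m : ℕ} (u v v' : V m) : dt u (v + v') = dt u v + dt u v' := by
  simp [dt, mul_add, Finset.sum_add_distrib]

lemma dt_smul_left {m : ℕ} (t : ℝ) (u v : V m) : dt (t • u) v = t * dt u v := by
  simp [dt, Finset.mul_sum, mul_assoc]

lemma dt_smul_right {m : ℕ} (t : ℝ) (u v : V m) : dt u (t • v) = t * dt u v := by
  simp only [dt, Finset.mul_sum, Pi.smul_apply, smul_eq_mul]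
  exact Finset.sum_congr rfl fun j _ => by ring

lemma dt_comm {m : ℕ} (u v : V m) : dt u v = dt v u := by
  simp [dt, mul_comm]

lemma dt_neg_left {m : ℕ} (u v : V m) : dt (-u) v = -dt u v := by simp [dt]

lemma dt_neg_right {m : ℕ} (u v : V m) : dt u (-v) = -dt u v := by simp [dt]

lemma dt_single_left {m : ℕ} (i : Fin m) (a : ℝ) (v : V m) : dt (Pi.single i a) v = a * v i := by
  simp [dt, Pi.single_apply]

lemma dt_single_right {m : ℕ} (i : Fin m) (a : ℝ) (v : V m) : dt v (Pi.single i a) = v i * a := by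
  simp [dt, Pi.single_apply]

/-- An inner regular capacity on the open subsets of `R^{2m}`; it is invariant under affine
symplectic maps. -/
structure RCap (m : ℕ) [NeZero m] where
  /-- the value -/
  val : Set (E m) → ℝ≥0∞
  mono : ∀ {U W : Set (E m)}, IsOpen U → IsOpen W → U ⊆ W → val U ≤ val W
  reg : ∀ {U : Set (E m)}, IsOpen U → ∀ a < val U,
    ∃ W, IsOpen W ∧ IsCompact (closure W) ∧ closure W ⊆ U ∧ a < val W
  symp : ∀ (A : E m ≃L[ℝ] E m), (∀ u v, Om (A u) (A v) = Om u v) → ∀ {U : Set (E m)},
    IsOpen U → val (A '' U) = val U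
  trans : ∀ (a : E m) {U : Set (E m)}, IsOpen U → val ((fun x => x + a) '' U) = val U
  conf : ∀ (t : ℝ), 0 < t → ∀ {U : Set (E m)}, IsOpen U →
    val ((fun x => t • x) '' U) = ENNReal.ofReal (t ^ 2) * val U
  ball_pos : 0 < val (ball 0 1)
  cyl_lt : val {x | |x.1 0| < 1 ∧ |x.2 0| < 1} < ⊤

variable {m : ℕ} [NeZero m]

/-- `D` multiplies all capacities by `κ` -/
def Conf (c : RCap m) (κ : ℝ) (D : E m ≃ₜ E m) : Prop :=
  ∀ U : Set (E m), IsOpen U → c.val (D '' U) = ENNReal.ofReal κ * c.val U

/-- `f` is a capacity preserving open embedding of the open set `Ω` -/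
structure Pres (c : RCap m) (Ω : Set (E m)) (f : E m → E m) : Prop where
  isOpen : IsOpen Ω
  cont : ContinuousOn f Ω
  inj : InjOn f Ω
  opn : ∀ W ⊆ Ω, IsOpen W → IsOpen (f '' W)
  val : ∀ W ⊆ Ω, IsOpen W → c.val (f '' W) = c.val W

namespace Pres

variable {c : RCap m} {Ω Ω' : Set (E m)} {f g : E m → E m}

lemma subset (h : Pres c Ω f) (hs : Ω' ⊆ Ω) (ho : IsOpen Ω') : Pres c Ω' f where
  isOpen := ho
  cont := h.cont.mono hs
  inj := h.inj.mono hs
  opn W hW := h.opn W (hW.trans hs)
  val W hW := h.val W (hW.trans hs)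

lemma congr (h : Pres c Ω f) (hfg : ∀ x ∈ Ω, g x = f x) : Pres c Ω g where
  isOpen := h.isOpen
  cont := h.cont.congr hfg
  inj := h.inj.congr fun x hx => (hfg x hx).symm
  opn W hW ho := by
    rw [image_congr fun x hx => hfg x (hW hx)]
    exact h.opn W hW ho
  val W hW ho := by
    rw [image_congr fun x hx => hfg x (hW hx)]
    exact h.val W hW ho

lemma comp (hg : Pres c Ω' g) (hf : Pres c Ω f) (hm : MapsTo f Ω Ω') :
    Pres c Ω (fun x => g (f x)) where
  isOpen := hf.isOpen
  cont := hg.cont.comp hf.cont hm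
  inj := hg.inj.comp hf.inj hm
  opn W hW ho := by
    have : (fun x => g (f x)) '' W = g '' (f '' W) := (image_image g f W).symm
    rw [this]
    exact hg.opn _ ((hm.mono_left hW).image_subset) (hf.opn W hW ho)
  val W hW ho := by
    have : (fun x => g (f x)) '' W = g '' (f '' W) := (image_image g f W).symm
    rw [this, hg.val _ ((hm.mono_left hW).image_subset) (hf.opn W hW ho), hf.val W hW ho]

/-- the inverse of a capacity preserving embedding -/
lemma inv (h : Pres c Ω f) (hg : ∀ x ∈ Ω, g (f x) = x) : Pres c (f '' Ω) g where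
  isOpen := h.opn Ω subset_rfl h.isOpen
  cont := by
    refine _root_.continuousOn_iff'.2 fun t ht => ?_
    refine ⟨f '' (Ω ∩ t), h.opn _ inter_subset_left (h.isOpen.inter ht), ?_⟩
    ext y
    constructor
    · rintro ⟨hy1, x, hx, rfl⟩
      rw [mem_preimage, hg x hx] at hy1
      exact ⟨⟨x, ⟨hx, hy1⟩, rfl⟩, ⟨x, hx, rfl⟩⟩
    · rintro ⟨⟨x, ⟨hx, hxt⟩, rfl⟩, -⟩
      refine ⟨?_, ⟨x, hx, rfl⟩⟩
      rw [mem_preimage, hg x hx]
      exact hxt
  inj := by
    rintro _ ⟨x, hx, rfl⟩ _ ⟨y, hy, rfl⟩ hxy
    rw [hg x hx, hg y hy] at hxy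
    rw [hxy]
  opn W hW ho := by
    have h1 : g '' W = Ω ∩ f ⁻¹' W := by
      ext x
      constructor
      · rintro ⟨y, hy, rfl⟩
        obtain ⟨z, hz, rfl⟩ := hW hy
        rw [hg z hz]
        exact ⟨hz, hy⟩
      · rintro ⟨hx, hfx⟩
        exact ⟨f x, hfx, hg x hx⟩
    rw [h1]
    exact h.cont.isOpen_inter_preimage h.isOpen ho
  val W hW ho := by
    have h1 : g '' W = Ω ∩ f ⁻¹' W := by
      ext x
      constructor
      · rintro ⟨y, hy, rfl⟩
        obtain ⟨z, hz, rfl⟩ := hW hy
        rw [hg z hz]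
        exact ⟨hz, hy⟩
      · rintro ⟨hx, hfx⟩
        exact ⟨f x, hfx, hg x hx⟩
    have h2 : f '' (g '' W) = W := by
      rw [image_image]
      ext y
      constructor
      · rintro ⟨z, hz, rfl⟩
        obtain ⟨w, hw, rfl⟩ := hW hz
        simp only [hg w hw]
        exact hz
      · intro hy
        obtain ⟨w, hw, rfl⟩ := hW hy
        exact ⟨f w, hy, by simp only [hg w hw]⟩
    have h3 : IsOpen (g '' W) := by
      rw [h1]
      exact h.cont.isOpen_inter_preimage h.isOpen ho
    have h4 := h.val (g '' W) (by rw [h1]; exact inter_subset_left) h3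
    rw [h2] at h4
    exact h4.symm

/-- a homeomorphism that preserves all capacities -/
lemma of_conf {D : E m ≃ₜ E m} (hD : Conf c 1 D) : Pres c univ D where
  isOpen := isOpen_univ
  cont := D.continuous.continuousOn
  inj := D.injective.injOn
  opn W _ ho := D.isOpenMap W ho
  val W _ ho := by rw [hD W ho]; simp

/-- conjugation by conformal homeomorphisms -/
lemma conj {κ : ℝ} (hκ : 0 < κ) {D D' : E m ≃ₜ E m} (hD : Conf c κ D) (hD' : Conf c κ D')
    (h : Pres c Ω f) : Pres c (D ⁻¹' Ω) (fun x => D'.symm (f (D x))) where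
  isOpen := h.isOpen.preimage D.continuous
  cont := D'.symm.continuous.comp_continuousOn
    (h.cont.comp D.continuous.continuousOn (mapsTo_preimage D Ω))
  inj := fun x hx y hy hxy => D.injective (h.inj hx hy (D'.symm.injective hxy))
  opn W hW ho := by
    have h1 : (fun x => D'.symm (f (D x))) '' W = D'.symm '' (f '' (D '' W)) := by
      rw [image_image, image_image]
    rw [h1]
    refine D'.symm.isOpenMap _ (h.opn _ ?_ (D.isOpenMap W ho))
    exact image_subset_iff.2 hW
  val W hW ho := by
    have h1 : (fun x => D'.symm (f (D x))) '' W = D'.symm '' (f '' (D '' W)) := by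
      rw [image_image, image_image]
    have h2 : IsOpen (f '' (D '' W)) := h.opn _ (image_subset_iff.2 hW) (D.isOpenMap W ho)
    have h3 : IsOpen (D'.symm '' (f '' (D '' W))) := D'.symm.isOpenMap _ h2
    have h4 := hD' _ h3
    have h5 : D' '' (D'.symm '' (f '' (D '' W))) = f '' (D '' W) := by
      rw [image_image]; simp
    rw [h5, h.val _ (image_subset_iff.2 hW) (D.isOpenMap W ho), hD W ho] at h4
    rw [h1]
    have hκ' : ENNReal.ofReal κ ≠ 0 := by simpa using hκ
    exact ((ENNReal.mul_right_inj hκ' ENNReal.ofReal_ne_top).1 h4).symm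

end Pres

/-- **Closedness.** An open embedding that is approximated, uniformly on compact sets, by capacity
preserving embeddings preserves the capacity. -/
theorem Pres.limit {c : RCap m} {Ω : Set (E m)} {f : E m → E m} (hΩ : IsOpen Ω)
    (hc : ContinuousOn f Ω) (hi : InjOn f Ω) (ho : ∀ W ⊆ Ω, IsOpen W → IsOpen (f '' W))
    (happ : ∀ K ⊆ Ω, IsCompact K → ∀ ε : ℝ, 0 < ε → ∃ (g : E m → E m) (Ω' : Set (E m)),
      K ⊆ Ω' ∧ Pres c Ω' g ∧ ∀ x ∈ K, dist (g x) (f x) < ε) : Pres c Ω f where
  isOpen := hΩ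
  cont := hc
  inj := hi
  opn := ho
  val W hW hWo := by
    apply le_antisymm
    · -- `c (f W) ≤ c W`
      refine le_of_forall_lt fun a ha => ?_
      obtain ⟨U, hU, hUc, hUW, haU⟩ := c.reg (ho W hW hWo) a ha
      refine haU.trans_le ?_
      -- every point of `closure U` has a ball covered by `g W'` for all `g` near `f`
      have key : ∀ y ∈ closure U, ∃ (x : E m) (r δ : ℝ), 0 < r ∧ 0 < δ ∧ closedBall x r ⊆ W ∧
          y ∈ ball (f x) δ ∧ ∀ (g : E m → E m) (Ω' : Set (E m)), closedBall x r ⊆ Ω' →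
            Pres c Ω' g → (∀ z ∈ closedBall x r, dist (g z) (f z) < δ) →
            ball (f x) δ ⊆ g '' ball x r := by
        intro y hy
        obtain ⟨x, hx, rfl⟩ := hUW hy
        obtain ⟨r, hr, hrW⟩ := nhds_basis_closedBall.mem_iff.1 (hWo.mem_nhds hx)
        have hsph : IsCompact (f '' sphere x r) :=
          (isCompact_sphere x r).image_of_continuousOn
            (hc.mono ((sphere_subset_closedBall.trans hrW).trans hW))
        have hx' : f x ∉ f '' sphere x r := by
          rintro ⟨z, hz, hzx⟩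
          have := hi (hW (hrW (sphere_subset_closedBall hz))) (hW hx) hzx
          rw [this] at hz
          simp at hz
          exact hr.ne hz
        obtain ⟨δ, hδ, hδs⟩ : ∃ δ : ℝ, 0 < δ ∧ ∀ z ∈ f '' sphere x r, 2 * δ ≤ dist (f x) z := by
          obtain ⟨η, hη, hηs⟩ := Metric.isOpen_iff.1 hsph.isClosed.isOpen_compl (f x) hx'
          refine ⟨η / 2, by positivity, fun z hz => ?_⟩
          by_contra hcon
          push Not at hcon
          exact hηs (show z ∈ ball (f x) η by rw [mem_ball, dist_comm]; linarith) hz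
        refine ⟨x, r, δ, hr, hδ, hrW, mem_ball_self hδ, fun g Ω' hΩ' hg hgf => ?_⟩
        have hgc : ContinuousOn g (closedBall x r) := hg.cont.mono hΩ'
        -- the set of the points of the ball that are in the image of the open ball is clopen
        have hopen : IsOpen (g '' ball x r) :=
          hg.opn _ (ball_subset_closedBall.trans hΩ') isOpen_ball
        have hclosed : IsClosed (g '' closedBall x r) :=
          ((isCompact_closedBall x r).image_of_continuousOn hgc).isClosed
        have hdisj : ∀ z ∈ ball (f x) δ, z ∈ g '' closedBall x r → z ∈ g '' ball x r := by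
          rintro z hz ⟨w, hw, rfl⟩
          rcases (mem_closedBall.1 hw).lt_or_eq with h | h
          · exact ⟨w, h, rfl⟩
          · exfalso
            have h1 := hδs (f w) ⟨w, h, rfl⟩
            have h2 := hgf w hw
            have h3 := dist_triangle (f x) (g w) (f w)
            rw [mem_ball, dist_comm] at hz
            linarith
        have hpre : IsPreconnected (ball (f x) δ) := (convex_ball (f x) δ).isPreconnected
        have := isPreconnected_iff_subset_of_disjoint.1 hpre (g '' ball x r)
          (g '' closedBall x r)ᶜ hopen hclosed.isOpen_compl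
          (fun z hz => by
            by_cases h : z ∈ g '' closedBall x r
            · exact Or.inl (hdisj z hz h)
            · exact Or.inr h)
          (by
            ext z
            constructor
            · rintro ⟨-, ⟨w, hw, rfl⟩, h⟩
              exact (h ⟨w, ball_subset_closedBall hw, rfl⟩).elim
            · rintro ⟨⟩)
        rcases this with h | h
        · exact h
        · exfalso
          have h1 : g x ∈ ball (f x) δ := hgf x (mem_closedBall_self hr.le)
          exact h h1 ⟨x, mem_closedBall_self hr.le, rfl⟩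
      choose! X R Δ hR hΔ hXW hmem hcov using key
      obtain ⟨t, htU, htc⟩ := hUc.elim_nhds_subcover (fun y => ball (f (X y)) (Δ y))
        (fun y hy => isOpen_ball.mem_nhds (hmem y hy))
      rcases t.eq_empty_or_nonempty with rfl | htne
      · have : U = ∅ := by
          have h1 : closure U = ∅ := by simpa using htc
          exact subset_empty_iff.1 (h1 ▸ subset_closure)
        rw [this]
        exact c.mono isOpen_empty hWo (empty_subset _)
      -- a uniform bound
      obtain ⟨ε, hε, hεt⟩ : ∃ ε : ℝ, 0 < ε ∧ ∀ y ∈ t, ε ≤ Δ y := by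
        refine ⟨t.inf' htne Δ, ?_, fun y hy => Finset.inf'_le _ hy⟩
        rw [Finset.lt_inf'_iff]
        exact fun y hy => hΔ y (htU y hy)
      have hK : IsCompact (⋃ y ∈ t, closedBall (X y) (R y)) :=
        t.isCompact_biUnion fun y _ => isCompact_closedBall _ _
      have hKW : (⋃ y ∈ t, closedBall (X y) (R y)) ⊆ W :=
        iUnion₂_subset fun y hy => hXW y (htU y hy)
      obtain ⟨g, Ω', hKΩ, hg, hgf⟩ := happ _ (hKW.trans hW) hK ε hε
      have hO : IsOpen (⋃ y ∈ t, ball (X y) (R y)) := isOpen_biUnion fun y _ => isOpen_ball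
      have hOK : (⋃ y ∈ t, ball (X y) (R y)) ⊆ ⋃ y ∈ t, closedBall (X y) (R y) :=
        iUnion₂_mono fun y _ => ball_subset_closedBall
      have h1 : U ⊆ g '' ⋃ y ∈ t, ball (X y) (R y) := by
        intro z hz
        obtain ⟨y, hy, hzy⟩ := mem_iUnion₂.1 (htc (subset_closure hz))
        have h2 := hcov y (htU y hy) g Ω'
          ((subset_iUnion₂ (s := fun y (_ : y ∈ t) => closedBall (X y) (R y)) y hy).trans hKΩ) hg
          (fun w hw => (hgf w (mem_iUnion₂.2 ⟨y, hy, hw⟩)).trans_le (hεt y hy)) hzy
        obtain ⟨w, hw, rfl⟩ := h2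
        exact ⟨w, mem_iUnion₂.2 ⟨y, hy, hw⟩, rfl⟩
      calc c.val U ≤ c.val (g '' ⋃ y ∈ t, ball (X y) (R y)) :=
            c.mono hU (hg.opn _ (hOK.trans hKΩ) hO) h1
        _ = c.val (⋃ y ∈ t, ball (X y) (R y)) := hg.val _ (hOK.trans hKΩ) hO
        _ ≤ c.val W := c.mono hO hWo (hOK.trans hKW)
    · -- `c W ≤ c (f W)`
      refine le_of_forall_lt fun a ha => ?_
      obtain ⟨U, hU, hUc, hUW, haU⟩ := c.reg hWo a ha
      refine haU.trans_le ?_
      have hfU : IsCompact (f '' closure U) :=
        hUc.image_of_continuousOn (hc.mono (hUW.trans hW))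
      obtain ⟨ε, hε, hεs⟩ := hfU.exists_thickening_subset_open (ho W hW hWo)
        (image_mono hUW)
      obtain ⟨g, Ω', hKΩ, hg, hgf⟩ := happ _ (hUW.trans hW) hUc ε hε
      have h1 : g '' U ⊆ f '' W := by
        rintro _ ⟨x, hx, rfl⟩
        apply hεs
        rw [mem_thickening_iff]
        exact ⟨f x, ⟨x, subset_closure hx, rfl⟩, hgf x (subset_closure hx)⟩
      calc c.val U = c.val (g '' U) := (hg.val U (subset_closure.trans hKΩ) hU).symm
        _ ≤ c.val (f '' W) := c.mono (hg.opn _ (subset_closure.trans hKΩ) hU) (ho W hW hWo) h1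

end Pool.Agent.H36.CSymp
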