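import Pool.Agent.H36.CSymp.Kappa

set_option autoImplicit false

/-!
# Volume
-/

noncomputable section

namespace Pool.Agent.H36.CSymp

open Set Metric Topology Filter MeasureTheory
open scoped ENNReal

variable {m : ℕ}

lemma det_Lq (N : V m → (V m ≃L[ℝ] V m)) (q : V m) :
    (Lq N q).det * (N q : V m →L[ℝ] V m).det = 1 := by
  have h1 : LinearMap.toMatrix' (Lq N q : V m →ₗ[ℝ] V m) =
      (LinearMap.toMatrix' ((N q).symm : V m →ₗ[ℝ] V m)).transpose := by
    ext i j
    rw [Matrix.transpose_apply, LinearMap.toMatrix'_apply, LinearMap.toMatrix'_apply]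
    show Lq N q (Pi.single j 1) i = (N q).symm (Pi.single i 1) j
    rw [Lq_apply, dt_single_right, mul_one]
  have h2 : (Lq N q).det = LinearMap.det ((N q).symm : V m →ₗ[ℝ] V m) := by
    rw [ContinuousLinearMap.det, ← LinearMap.det_toMatrix', h1, Matrix.det_transpose,
      LinearMap.det_toMatrix']
  rw [h2]
  exact (N q).toLinearEquiv.det_symm_mul_det

lemma det_prod {N : V m → (V m ≃L[ℝ] V m)} {q : V m} {κ : ℝ} (hκ : κ ^ 2 = 1) :
    |(κ • Lq N q).det| * |(N q : V m →L[ℝ] V m).det| = 1 := by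
  have h1 : (κ • Lq N q).det = κ ^ m * (Lq N q).det := by
    have := LinearMap.det_smul κ (Lq N q : V m →ₗ[ℝ] V m)
    rw [Module.finrank_fin_fun] at this
    exact this
  have hκ1 : |κ| = 1 := by
    have : |κ| ^ 2 = 1 := by rw [sq_abs, hκ]
    have h3 := abs_nonneg κ
    nlinarith
  rw [← abs_mul, h1, mul_assoc, det_Lq, mul_one, abs_pow, hκ1, one_pow]

variable [NeZero m]
variable {c : RCap m} {e : OpenPartialHomeomorph (E m) (E m)} {q0 p0 : V m} {ρ C : ℝ}
  {f b : V m → V m} {N : V m → (V m ≃L[ℝ] V m)}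

/-- **Volume.** -/
theorem Fib.vol_pres (h : Leafwise c e) (hf : Fib e q0 p0 ρ C f b N) {ρ' κ : ℝ}
    (hρρ : ρ' ≤ ρ) (hd : ∀ q ∈ ball q0 ρ', HasFDerivAt f (κ • Lq N q) q) (hκ : κ ^ 2 = 1)
    {A : Set (E m)} (hA : A ⊆ ball q0 ρ' ×ˢ ball p0 ρ') (hAm : MeasurableSet A) :
    volume (e '' A) = volume A := by
  have hAs : A ⊆ e.source := fun x hx => hf.src
    ⟨ball_subset_ball hρρ (hA hx).1, ball_subset_ball hρρ (hA hx).2⟩
  have hinj : InjOn f (ball q0 ρ') := (hf.base_inj h).mono (ball_subset_ball hρρ)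
  have heA : MeasurableSet (e '' A) :=
    hAm.image_of_continuousOn_injOn (e.continuousOn.mono hAs) (e.injOn.mono hAs)
  have hfB : MeasurableSet (f '' ball q0 ρ') :=
    measurableSet_ball.image_of_continuousOn_injOn
      (fun q hq => (hd q hq).continuousAt.continuousWithinAt) hinj
  -- the slices of `A`
  have hslice : ∀ q ∈ ball q0 ρ', Prod.mk (f q) ⁻¹' (e '' A) =
      (fun p => b q + p) '' ((N q : V m →L[ℝ] V m) '' ((fun p => -p0 + p) '' (Prod.mk q ⁻¹' A))) := by
    intro q hq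
    rw [image_image, image_image]
    ext p'
    constructor
    · rintro ⟨x, hx, hxe⟩
      have h1 := hf.eq x.1 (ball_subset_ball hρρ (hA hx).1) x.2 (ball_subset_ball hρρ (hA hx).2)
      have h2 : e x = (f x.1, b x.1 + N x.1 (x.2 - p0)) := h1
      rw [h2] at hxe
      obtain ⟨h3, h4⟩ := Prod.mk.inj hxe
      have h5 : x.1 = q := hinj (hA hx).1 hq h3
      subst h5
      refine ⟨x.2, hx, ?_⟩
      rw [← h4]
      simp only [ContinuousLinearEquiv.coe_coe]
      rw [neg_add_eq_sub]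
    · rintro ⟨p, hp, rfl⟩
      have hp' : (q, p) ∈ A := hp
      refine ⟨(q, p), hp', ?_⟩
      rw [hf.eq q (ball_subset_ball hρρ hq) p (ball_subset_ball hρρ (hA hp').2)]
      simp only [ContinuousLinearEquiv.coe_coe]
      rw [neg_add_eq_sub]
  have htrans : ∀ (a : V m) (S : Set (V m)), volume ((fun p => a + p) '' S) = volume S := by
    intro a S
    rw [image_add_left, measure_preimage_add]
  have hvol : ∀ q ∈ ball q0 ρ', ENNReal.ofReal |(κ • Lq N q).det| *
      volume (Prod.mk (f q) ⁻¹' (e '' A)) = volume (Prod.mk q ⁻¹' A) := by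
    intro q hq
    rw [hslice q hq, htrans, Measure.addHaar_image_continuousLinearMap, htrans, ← mul_assoc,
      ← ENNReal.ofReal_mul (abs_nonneg _), det_prod hκ, ENNReal.ofReal_one, one_mul]
  have e1 : volume (e '' A) = ∫⁻ q', volume (Prod.mk q' ⁻¹' (e '' A)) := by
    rw [Measure.volume_eq_prod, Measure.prod_apply heA]
  have e2 : volume A = ∫⁻ q, volume (Prod.mk q ⁻¹' A) := by
    rw [Measure.volume_eq_prod, Measure.prod_apply hAm]
  have e3 : ∫⁻ q', volume (Prod.mk q' ⁻¹' (e '' A)) =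
      ∫⁻ q' in f '' ball q0 ρ', volume (Prod.mk q' ⁻¹' (e '' A)) := by
    rw [← lintegral_indicator hfB]
    refine lintegral_congr fun q' => ?_
    by_cases hq' : q' ∈ f '' ball q0 ρ'
    · rw [indicator_of_mem hq']
    · rw [indicator_of_notMem hq']
      have : Prod.mk q' ⁻¹' (e '' A) = ∅ := by
        rw [eq_empty_iff_forall_notMem]
        rintro p' ⟨x, hx, hxe⟩
        have h1 := hf.eq x.1 (ball_subset_ball hρρ (hA hx).1) x.2 (ball_subset_ball hρρ (hA hx).2)
        have h2 : e x = (f x.1, b x.1 + N x.1 (x.2 - p0)) := h1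
        rw [h2] at hxe
        exact hq' ⟨x.1, (hA hx).1, (Prod.mk.inj hxe).1⟩
      rw [this, measure_empty]
  have e4 : ∫⁻ q, volume (Prod.mk q ⁻¹' A) = ∫⁻ q in ball q0 ρ', volume (Prod.mk q ⁻¹' A) := by
    rw [← lintegral_indicator measurableSet_ball]
    refine lintegral_congr fun q => ?_
    by_cases hq : q ∈ ball q0 ρ'
    · rw [indicator_of_mem hq]
    · rw [indicator_of_notMem hq]
      have : Prod.mk q ⁻¹' A = ∅ := by
        rw [eq_empty_iff_forall_notMem]
        intro p hp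
        exact hq (hA hp).1
      rw [this, measure_empty]
  rw [e1, e2, e3, e4, lintegral_image_eq_lintegral_abs_det_fderiv_mul volume measurableSet_ball
    (fun q hq => (hd q hq).hasFDerivWithinAt) hinj]
  exact setLIntegral_congr_fun measurableSet_ball hvol

/-- **Local theorem.** A capacity preserving map that maps leaves to leaves is locally volume
preserving. -/
theorem Leafwise.vol_pres (hm : 2 ≤ m) (h : Leafwise c e) {x : E m} (hx : x ∈ e.source) :
    ∃ O, IsOpen O ∧ x ∈ O ∧ O ⊆ e.source ∧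
      ∀ A ⊆ O, MeasurableSet A → volume (e '' A) = volume A := by
  obtain ⟨ρ, C, f, b, N, hf⟩ := h.fib (q0 := x.1) (p0 := x.2) hm hx
  obtain ⟨ρ', κ, hρ', hρρ, hd⟩ := hf.base hm h
  have hκ := hf.factor h hρ' hρρ hd
  refine ⟨ball x.1 ρ' ×ˢ ball x.2 ρ', isOpen_ball.prod isOpen_ball,
    ⟨mem_ball_self hρ', mem_ball_self hρ'⟩, ?_, fun A hA hAm => hf.vol_pres h hρρ hd hκ hA hAm⟩
  exact (Set.prod_mono (ball_subset_ball hρρ) (ball_subset_ball hρρ)).trans hf.src

end Pool.Agent.H36.CSymp
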