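import Pool.Agent.H72.Symp.Defs
import Pool.Agent.H36.CSymp.Vol

set_option autoImplicit false

/-!
# Smooth symplectic charts
-/

noncomputable section

namespace Pool.Agent.H36.CSymp

open Set Metric Topology Filter MeasureTheory
open scoped ENNReal ContDiff
open Pool.Agent.H72.Symp (Sp omega ball1 cyl1 IsSympEmbedding Capacity CapacityChoice
  LocallyPreserves stab)

variable {m : ℕ}

/-- the symplectic form as a bilinear form -/
def omegaB : LinearMap.BilinForm ℝ (Sp m) :=
  LinearMap.mk₂ ℝ omega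
    (fun u u' v => by
      simp only [omega, ← Finset.sum_add_distrib]
      exact Finset.sum_congr rfl fun j _ => by
        simp only [Pi.add_apply, Prod.fst_add, Prod.snd_add]
        ring)
    (fun t u v => by
      simp only [omega, Finset.smul_sum]
      exact Finset.sum_congr rfl fun j _ => by
        simp only [Pi.smul_apply, Prod.smul_fst, Prod.smul_snd, smul_eq_mul]
        ring)
    (fun u v v' => by
      simp only [omega, ← Finset.sum_add_distrib]
      exact Finset.sum_congr rfl fun j _ => by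
        simp only [Pi.add_apply, Prod.fst_add, Prod.snd_add]
        ring)
    (fun t u v => by
      simp only [omega, Finset.smul_sum]
      exact Finset.sum_congr rfl fun j _ => by
        simp only [Pi.smul_apply, Prod.smul_fst, Prod.smul_snd, smul_eq_mul]
        ring)

lemma omegaB_apply (u v : Sp m) : omegaB u v = omega u v := rfl

lemma omega_nondeg {u : Sp m} (h : ∀ v, omega u v = 0) : u = 0 := by
  have h1 := h fun j => (-(u j).2, (u j).1)
  have h2 : ∑ j, ((u j).1 ^ 2 + (u j).2 ^ 2) = 0 := by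
    rw [← h1]
    exact Finset.sum_congr rfl fun j _ => by ring
  rw [Finset.sum_eq_zero_iff_of_nonneg fun i _ => by positivity] at h2
  funext j
  have h3 := h2 j (Finset.mem_univ j)
  have h4 : (u j).1 = 0 := by nlinarith [sq_nonneg (u j).1, sq_nonneg (u j).2]
  have h5 : (u j).2 = 0 := by nlinarith [sq_nonneg (u j).1, sq_nonneg (u j).2]
  exact Prod.ext h4 h5

lemma omega_antisymm (u v : Sp m) : omega u v = - omega v u := by
  rw [omega, omega, ← Finset.sum_neg_distrib]
  exact Finset.sum_congr rfl fun j _ => by ring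

lemma symp_inj {L : Sp m →L[ℝ] Sp m} (hL : ∀ u v, omega (L u) (L v) = omega u v) :
    Function.Injective (L : Sp m →ₗ[ℝ] Sp m) := by
  rw [← LinearMap.ker_eq_bot, LinearMap.ker_eq_bot']
  intro u hu
  have hu' : L u = 0 := hu
  refine omega_nondeg fun v => ?_
  rw [← hL, hu']
  simp [omega]

lemma symp_det {L : Sp m →L[ℝ] Sp m} (hL : ∀ u v, omega (L u) (L v) = omega u v) :
    |L.det| = 1 := by
  classical
  set b := Module.finBasis ℝ (Sp m) with hb
  have h1 : (omegaB (m := m)).comp (L : Sp m →ₗ[ℝ] Sp m) (L : Sp m →ₗ[ℝ] Sp m) = omegaB := by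
    exact LinearMap.ext fun u => LinearMap.ext fun v => hL u v
  have h2 := LinearMap.BilinForm.toMatrix_comp b b (omegaB (m := m))
    (L : Sp m →ₗ[ℝ] Sp m) (L : Sp m →ₗ[ℝ] Sp m)
  rw [h1] at h2
  have h3 := congrArg Matrix.det h2
  rw [Matrix.det_mul, Matrix.det_mul, Matrix.det_transpose, LinearMap.det_toMatrix] at h3
  have h4 : (omegaB (m := m)).Nondegenerate := by
    refine ⟨fun u hu => omega_nondeg fun v => hu v, fun u hu => omega_nondeg fun v => ?_⟩
    rw [omega_antisymm]
    have := hu v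
    rw [omegaB_apply] at this
    rw [this, neg_zero]
  have h5 := (LinearMap.BilinForm.nondegenerate_iff_det_ne_zero b).1 h4
  have h6 : LinearMap.det (L : Sp m →ₗ[ℝ] Sp m) ^ 2 = 1 := by
    apply mul_right_cancel₀ h5
    rw [one_mul]
    conv_rhs => rw [h3]
    ring
  have h7 : |L.det| ^ 2 = 1 := by rw [sq_abs]; exact h6
  have h8 := abs_nonneg L.det
  nlinarith

section chart

variable {σ : Sp m → Sp m} {U : Set (Sp m)}

/-- the derivative as an isomorphism -/
def dE (h : IsSympEmbedding σ U univ) {x : Sp m} (hx : x ∈ U) : Sp m ≃L[ℝ] Sp m :=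
  (LinearEquiv.ofInjectiveEndo ((fderiv ℝ σ x : Sp m →L[ℝ] Sp m) : Sp m →ₗ[ℝ] Sp m)
    (symp_inj (h.symp x hx))).toContinuousLinearEquiv

lemma dE_coe (h : IsSympEmbedding σ U univ) {x : Sp m} (hx : x ∈ U) :
    (dE h hx : Sp m →L[ℝ] Sp m) = fderiv ℝ σ x := by
  ext1 u
  rfl

lemma chart_contDiffAt (hU : IsOpen U) (h : IsSympEmbedding σ U univ) {x : Sp m} (hx : x ∈ U) :
    ContDiffAt ℝ ∞ σ x := h.smooth.contDiffAt (hU.mem_nhds hx)

lemma chart_hasFDerivAt (hU : IsOpen U) (h : IsSympEmbedding σ U univ) {x : Sp m} (hx : x ∈ U) :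
    HasFDerivAt σ (dE h hx : Sp m →L[ℝ] Sp m) x := by
  rw [dE_coe]
  exact ((chart_contDiffAt hU h hx).differentiableAt (by simp)).hasFDerivAt

lemma chart_open (hU : IsOpen U) (h : IsSympEmbedding σ U univ) :
    IsOpenMap (U.domRestrict σ) := by
  rw [isOpenMap_iff_nhds_le]
  intro x
  have h1 : HasStrictFDerivAt σ (dE h x.2 : Sp m →L[ℝ] Sp m) x.1 := by
    rw [dE_coe]
    exact (chart_contDiffAt hU h x.2).hasStrictFDerivAt (by simp)
  have h2 := h1.map_nhds_eq_of_equiv
  have h3 : map (U.domRestrict σ) (𝓝 x) = map σ (𝓝 x.1) := by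
    rw [← hU.isOpenEmbedding_subtypeVal.map_nhds_eq x, Filter.map_map]
    rfl
  rw [h3, h2]
  exact le_rfl

/-- the chart as a partial homeomorphism -/
def chart (hU : IsOpen U) (h : IsSympEmbedding σ U univ) : OpenPartialHomeomorph (Sp m) (Sp m) :=
  OpenPartialHomeomorph.ofContinuousOpenRestrict (h.inj.toPartialEquiv σ U)
    h.smooth.continuousOn (chart_open hU h) hU

@[simp] lemma chart_coe (hU : IsOpen U) (h : IsSympEmbedding σ U univ) (x : Sp m) :
    chart hU h x = σ x := rfl

@[simp] lemma chart_source (hU : IsOpen U) (h : IsSympEmbedding σ U univ) :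
    (chart hU h).source = U := rfl

@[simp] lemma chart_target (hU : IsOpen U) (h : IsSympEmbedding σ U univ) :
    (chart hU h).target = σ '' U := rfl

/-- the inverse of a chart -/
lemma chart_symm (hU : IsOpen U) (h : IsSympEmbedding σ U univ) {W : Set (Sp m)} (hW : W ⊆ U) :
    IsSympEmbedding (chart hU h).symm (σ '' W) W := by
  have hWt : σ '' W ⊆ (chart hU h).target := image_mono hW
  have hd : ∀ y, ∀ hy : y ∈ σ '' W, ∃ x, ∃ hx : x ∈ U, (chart hU h).symm y = x ∧
      HasFDerivAt (chart hU h).symm (((dE h hx).symm : Sp m ≃L[ℝ] Sp m) : Sp m →L[ℝ] Sp m) y := by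
    intro y hy
    have hs : (chart hU h).symm y ∈ U := (chart hU h).map_target (hWt hy)
    refine ⟨_, hs, rfl, (chart hU h).hasFDerivAt_symm (hWt hy) ?_⟩
    exact chart_hasFDerivAt hU h hs
  refine ⟨?_, ?_, ?_, ?_⟩
  · intro y hy
    have hs : (chart hU h).symm y ∈ U := (chart hU h).map_target (hWt hy)
    exact ((chart hU h).contDiffAt_symm (hWt hy) (chart_hasFDerivAt hU h hs)
      (chart_contDiffAt hU h hs)).contDiffWithinAt
  · exact (chart hU h).symm.injOn.mono hWt
  · rintro _ ⟨x, hx, rfl⟩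
    have : (chart hU h).symm (chart hU h x) = x := (chart hU h).left_inv (hW hx)
    rw [chart_coe] at this
    rwa [this]
  · intro y hy u v
    obtain ⟨x, hx, -, h1⟩ := hd y hy
    rw [h1.fderiv]
    have h2 := h.symp x hx ((dE h hx).symm u) ((dE h hx).symm v)
    have h3 : ∀ w, fderiv ℝ σ x ((dE h hx).symm w) = w := fun w => by
      rw [← dE_coe h hx]
      exact (dE h hx).apply_symm_apply w
    rw [h3, h3] at h2
    exact h2.symm

/-- charts preserve capacities -/
lemma chart_cap [NeZero m] (c : Capacity m) (hU : IsOpen U) (h : IsSympEmbedding σ U univ)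
    {W : Set (Sp m)} (hW : W ⊆ U) (hWo : IsOpen W) : c.val (σ '' W) = c.val W := by
  have ho : IsOpen (σ '' W) := (chart hU h).isOpen_image_of_subset_source hWo hW
  apply le_antisymm
  · exact c.mono _ _ ho hWo ⟨_, chart_symm hU h hW⟩
  · exact c.mono _ _ hWo ho ⟨σ, ⟨h.smooth.mono hW, h.inj.mono hW, mapsTo_image _ _,
      fun x hx => h.symp x (hW hx)⟩⟩

/-- charts preserve volume -/
lemma chart_vol (hU : IsOpen U) (h : IsSympEmbedding σ U univ) {A : Set (Sp m)} (hA : A ⊆ U)
    (hAm : MeasurableSet A) : volume (σ '' A) = volume A := by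
  rw [← lintegral_abs_det_fderiv_eq_addHaar_image volume hAm
    (f' := fun x => fderiv ℝ σ x) (fun x hx => ?_) (h.inj.mono hA)]
  · have : ∫⁻ x in A, ENNReal.ofReal |(fderiv ℝ σ x).det| = ∫⁻ _ in A, 1 := by
      refine setLIntegral_congr_fun hAm fun x hx => ?_
      rw [symp_det (h.symp x (hA hx)), ENNReal.ofReal_one]
    rw [this]
    simp
  · exact ((chart_contDiffAt hU h (hA hx)).differentiableAt (by simp)).hasFDerivAt.hasFDerivWithinAt

end chart

/-- a linear symplectic isomorphism is a symplectic embedding -/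
lemma linear_symp (A : Sp m ≃L[ℝ] Sp m) (hA : ∀ u v, omega (A u) (A v) = omega u v) :
    IsSympEmbedding A univ univ where
  smooth := A.contDiff.contDiffOn
  inj := A.injective.injOn
  maps := mapsTo_univ _ _
  symp := fun x _ u v => by
    rw [A.fderiv]
    exact hA u v

end Pool.Agent.H36.CSymp
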