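import Pool.Agent.H36.CSymp.Cap

set_option autoImplicit false

/-!
# Conformally symplectic affine maps, shears, the exchange of `q` and `p`
-/

noncomputable section

namespace Pool.Agent.H36.CSymp

open Set Metric Topology Filter
open scoped ENNReal

variable {m : ℕ}

/-- `(q, p) ↦ (a + l q, b + n p)` -/
def scaleH (a b : V m) {l n : ℝ} (hl : 0 < l) (hn : 0 < n) : E m ≃ₜ E m where
  toFun x := (a + l • x.1, b + n • x.2)
  invFun x := (l⁻¹ • (x.1 - a), n⁻¹ • (x.2 - b))
  left_inv x := by
    refine Prod.ext ?_ ?_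
    · simp [smul_smul, hl.ne']
    · simp [smul_smul, hn.ne']
  right_inv x := by
    refine Prod.ext ?_ ?_
    · simp [smul_smul, hl.ne']
    · simp [smul_smul, hn.ne']
  continuous_toFun := by fun_prop
  continuous_invFun := by fun_prop

@[simp] lemma scaleH_apply (a b : V m) {l n : ℝ} (hl : 0 < l) (hn : 0 < n) (x : E m) :
    scaleH a b hl hn x = (a + l • x.1, b + n • x.2) := rfl

@[simp] lemma scaleH_symm_apply (a b : V m) {l n : ℝ} (hl : 0 < l) (hn : 0 < n) (x : E m) :
    (scaleH a b hl hn).symm x = (l⁻¹ • (x.1 - a), n⁻¹ • (x.2 - b)) := rfl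

/-- the linear map `(q, p) ↦ (s q, s⁻¹ p)` -/
def sqz {s : ℝ} (hs : s ≠ 0) : E m ≃L[ℝ] E m :=
  ContinuousLinearEquiv.prodCongr (ContinuousLinearEquiv.smulLeft (Units.mk0 s hs))
    (ContinuousLinearEquiv.smulLeft (Units.mk0 s hs)⁻¹)

lemma sqz_apply {s : ℝ} (hs : s ≠ 0) (x : E m) : sqz hs x = (s • x.1, s⁻¹ • x.2) := by
  refine Prod.ext ?_ ?_
  · rfl
  · funext j
    rfl

lemma om_sqz {s : ℝ} (hs : s ≠ 0) (u v : E m) : Om (sqz hs u) (sqz hs v) = Om u v := by
  rw [sqz_apply, sqz_apply]
  simp only [Om, dt_smul_left, dt_smul_right]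
  field_simp

/-- the shear `(q, p) ↦ (q + B p, p)` -/
def shQ (B : V m →L[ℝ] V m) : E m ≃L[ℝ] E m :=
  ContinuousLinearEquiv.equivOfInverse
    ((ContinuousLinearMap.fst ℝ _ _ + B.comp (ContinuousLinearMap.snd ℝ _ _)).prod
      (ContinuousLinearMap.snd ℝ _ _))
    ((ContinuousLinearMap.fst ℝ _ _ - B.comp (ContinuousLinearMap.snd ℝ _ _)).prod
      (ContinuousLinearMap.snd ℝ _ _))
    (fun x => by simp) (fun x => by simp)

lemma shQ_apply (B : V m →L[ℝ] V m) (x : E m) : shQ B x = (x.1 + B x.2, x.2) := rfl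

lemma om_shQ {B : V m →L[ℝ] V m} (hB : ∀ u v, dt (B u) v = dt (B v) u) (u v : E m) :
    Om (shQ B u) (shQ B v) = Om u v := by
  rw [shQ_apply, shQ_apply]
  simp only [Om, dt_add_left, dt_add_right]
  have h1 := hB u.2 v.2
  have h2 := dt_comm u.2 (B v.2)
  linarith

/-- the shear `(q, p) ↦ (q, p + B q)` -/
def shP (B : V m →L[ℝ] V m) : E m ≃L[ℝ] E m :=
  ContinuousLinearEquiv.equivOfInverse
    ((ContinuousLinearMap.fst ℝ _ _).prod
      (ContinuousLinearMap.snd ℝ _ _ + B.comp (ContinuousLinearMap.fst ℝ _ _)))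
    ((ContinuousLinearMap.fst ℝ _ _).prod
      (ContinuousLinearMap.snd ℝ _ _ - B.comp (ContinuousLinearMap.fst ℝ _ _)))
    (fun x => by simp) (fun x => by simp)

lemma shP_apply (B : V m →L[ℝ] V m) (x : E m) : shP B x = (x.1, x.2 + B x.1) := rfl

lemma om_shP {B : V m →L[ℝ] V m} (hB : ∀ u v, dt (B u) v = dt (B v) u) (u v : E m) :
    Om (shP B u) (shP B v) = Om u v := by
  rw [shP_apply, shP_apply]
  simp only [Om, dt_add_left, dt_add_right]
  have h1 := hB u.1 v.1
  have h2 := dt_comm u.1 (B v.1)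
  linarith

/-- the lift `(q, p) ↦ (N' q, N p)` of a linear isomorphism -/
def cot (N' N : V m ≃L[ℝ] V m) : E m ≃L[ℝ] E m := ContinuousLinearEquiv.prodCongr N' N

lemma cot_apply (N' N : V m ≃L[ℝ] V m) (x : E m) : cot N' N x = (N' x.1, N x.2) := rfl

lemma om_cot {N' N : V m ≃L[ℝ] V m} (h : ∀ u v, dt (N' u) (N v) = dt u v) (u v : E m) :
    Om (cot N' N u) (cot N' N v) = Om u v := by
  rw [cot_apply, cot_apply]
  simp only [Om]
  rw [h, dt_comm (N u.2), h, dt_comm v.1]

/-- the symmetric matrix with the two entries `a` at `(i, j)` and `(j, i)` (twice at the same place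
if `i = j`) -/
def symB (i j : Fin m) (a : ℝ) : V m →L[ℝ] V m :=
  a • ((ContinuousLinearMap.proj i : V m →L[ℝ] ℝ).smulRight (Pi.single j (1 : ℝ)) +
    (ContinuousLinearMap.proj j : V m →L[ℝ] ℝ).smulRight (Pi.single i (1 : ℝ)))

lemma symB_apply (i j : Fin m) (a : ℝ) (u : V m) :
    symB i j a u = a • (u i • Pi.single j (1 : ℝ) + u j • Pi.single i (1 : ℝ)) := rfl

lemma symB_symm (i j : Fin m) (a : ℝ) (u v : V m) : dt (symB i j a u) v = dt (symB i j a v) u := by
  simp only [symB_apply, dt_smul_left, dt_add_left, dt_single_left]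
  ring

variable [NeZero m]

lemma conf_of_symp (c : RCap m) (A : E m ≃L[ℝ] E m) (hA : ∀ u v, Om (A u) (A v) = Om u v) :
    Conf c 1 A.toHomeomorph := fun U hU => by
  rw [ENNReal.ofReal_one, one_mul]
  exact c.symp A hA hU

lemma conf_trans (c : RCap m) (a : E m) : Conf c 1 (Homeomorph.addRight a) := fun U hU => by
  rw [ENNReal.ofReal_one, one_mul]
  exact c.trans a hU

lemma conf_scale (c : RCap m) (a b : V m) {l n : ℝ} (hl : 0 < l) (hn : 0 < n) :
    Conf c (l * n) (scaleH a b hl hn) := fun U hU => by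
  have ht : 0 < Real.sqrt (l * n) := Real.sqrt_pos.2 (mul_pos hl hn)
  set t := Real.sqrt (l * n) with htdef
  have htt : t * t = l * n := Real.mul_self_sqrt (mul_pos hl hn).le
  have hs : l / t ≠ 0 := (div_pos hl ht).ne'
  have h1 : scaleH a b hl hn '' U =
      (fun x => x + (a, b)) '' ((fun x => t • x) '' (sqz hs '' U)) := by
    rw [image_image, image_image]
    refine image_congr fun x _ => ?_
    rw [sqz_apply]
    refine Prod.ext ?_ ?_
    · simp only [scaleH_apply, Prod.smul_mk, Prod.mk_add_mk, smul_smul]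
      rw [mul_div_cancel₀ _ ht.ne', add_comm]
    · simp only [scaleH_apply, Prod.smul_mk, Prod.mk_add_mk, smul_smul]
      have : t * (l / t)⁻¹ = n := by
        rw [inv_div, ← mul_div_assoc, htt]
        field_simp
      rw [this, add_comm]
  have h2 : IsOpen (sqz hs '' U) := (sqz hs).toHomeomorph.isOpenMap U hU
  have h3 : IsOpen ((fun x => t • x) '' (sqz hs '' U)) :=
    (Homeomorph.smulOfNeZero t ht.ne').isOpenMap _ h2
  rw [h1, c.trans _ h3, c.conf t ht h2, c.symp _ (om_sqz hs) hU, sq, htt]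

/-- exchange of `q` and `p` -/
def RCap.swap (c : RCap m) : RCap m where
  val U := c.val (Prod.swap '' U)
  mono hU hW h := c.mono ((Homeomorph.prodComm _ _).isOpenMap _ hU)
    ((Homeomorph.prodComm _ _).isOpenMap _ hW) (image_mono h)
  reg {U} hU a ha := by
    obtain ⟨W, hW, hWc, hWU, haW⟩ := c.reg ((Homeomorph.prodComm _ _).isOpenMap _ hU) a ha
    have hcl : closure (Prod.swap '' W) = Prod.swap '' closure W :=
      ((Homeomorph.prodComm (V m) (V m)).image_closure W).symm
    refine ⟨Prod.swap '' W, (Homeomorph.prodComm _ _).isOpenMap _ hW, ?_, ?_, ?_⟩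
    · rw [hcl]
      exact hWc.image continuous_swap
    · rw [hcl]
      rintro _ ⟨x, hx, rfl⟩
      obtain ⟨y, hy, rfl⟩ := hWU hx
      simpa using hy
    · rw [image_image]
      simpa using haW
  symp A hA {U} hU := by
    have h1 : Prod.swap '' (A '' U) =
        (((ContinuousLinearEquiv.prodComm ℝ (V m) (V m)).trans A).trans
          (ContinuousLinearEquiv.prodComm ℝ (V m) (V m))) '' (Prod.swap '' U) := by
      rw [image_image, image_image]
      refine image_congr fun x _ => ?_
      simp [ContinuousLinearEquiv.trans_apply]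
    rw [h1]
    refine c.symp _ (fun u v => ?_) ((Homeomorph.prodComm _ _).isOpenMap _ hU)
    simp only [ContinuousLinearEquiv.trans_apply, ContinuousLinearEquiv.prodComm_apply]
    have key : ∀ u v : E m, Om u.swap v.swap = - Om u v := fun u v => by
      simp only [Om, Prod.fst_swap, Prod.snd_swap]
      ring
    rw [key, hA, key, neg_neg]
  trans a {U} hU := by
    have h1 : Prod.swap '' ((fun x => x + a) '' U) = (fun x => x + a.swap) '' (Prod.swap '' U) := by
      rw [image_image, image_image]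
      rfl
    rw [h1]
    exact c.trans _ ((Homeomorph.prodComm _ _).isOpenMap _ hU)
  conf t ht {U} hU := by
    have h1 : Prod.swap '' ((fun x : E m => t • x) '' U) =
        (fun x => t • x) '' (Prod.swap '' U) := by
      rw [image_image, image_image]
      rfl
    rw [h1]
    exact c.conf t ht ((Homeomorph.prodComm _ _).isOpenMap _ hU)
  ball_pos := by
    have h1 : Prod.swap '' (ball (0 : E m) 1) = ball (0 : E m) 1 := by
      ext x
      constructor
      · rintro ⟨y, hy, rfl⟩
        rw [mem_ball_zero_iff] at hy ⊢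
        rw [Prod.norm_def] at hy ⊢
        rwa [Prod.fst_swap, Prod.snd_swap, max_comm]
      · intro hx
        refine ⟨x.swap, ?_, by simp⟩
        rw [mem_ball_zero_iff] at hx ⊢
        rw [Prod.norm_def] at hx ⊢
        rwa [Prod.fst_swap, Prod.snd_swap, max_comm]
    rw [h1]
    exact c.ball_pos
  cyl_lt := by
    have h1 : Prod.swap '' {x : E m | |x.1 0| < 1 ∧ |x.2 0| < 1} =
        {x : E m | |x.1 0| < 1 ∧ |x.2 0| < 1} := by
      ext x
      constructor
      · rintro ⟨y, hy, rfl⟩
        exact ⟨hy.2, hy.1⟩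
      · intro hx
        exact ⟨x.swap, ⟨hx.2, hx.1⟩, by simp⟩
    rw [h1]
    exact c.cyl_lt

lemma RCap.swap_val (c : RCap m) (U : Set (E m)) : c.swap.val U = c.val (Prod.swap '' U) := rfl

/-- exchanging `q` and `p` -/
lemma Pres.swap {c : RCap m} {Ω : Set (E m)} {f : E m → E m} (h : Pres c Ω f) :
    Pres c.swap (Prod.swap '' Ω) (fun x => (f x.swap).swap) where
  isOpen := (Homeomorph.prodComm _ _).isOpenMap _ h.isOpen
  cont := by
    refine continuous_swap.comp_continuousOn (h.cont.comp continuous_swap.continuousOn ?_)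
    rintro _ ⟨x, hx, rfl⟩
    simpa using hx
  inj := by
    rintro _ ⟨x, hx, rfl⟩ _ ⟨y, hy, rfl⟩ hxy
    simp only [Prod.swap_swap] at hxy
    rw [h.inj hx hy (Prod.swap_injective hxy)]
  opn W hW ho := by
    have h1 : (fun x : E m => (f x.swap).swap) '' W = Prod.swap '' (f '' (Prod.swap '' W)) := by
      rw [image_image, image_image]
    rw [h1]
    refine (Homeomorph.prodComm _ _).isOpenMap _ (h.opn _ ?_
      ((Homeomorph.prodComm _ _).isOpenMap _ ho))
    rintro _ ⟨x, hx, rfl⟩
    obtain ⟨y, hy, rfl⟩ := hW hx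
    simpa using hy
  val W hW ho := by
    have h1 : (fun x : E m => (f x.swap).swap) '' W = Prod.swap '' (f '' (Prod.swap '' W)) := by
      rw [image_image, image_image]
    rw [h1, c.swap_val, c.swap_val, image_image]
    simp only [Prod.swap_swap, image_id']
    refine h.val _ ?_ ((Homeomorph.prodComm _ _).isOpenMap _ ho)
    rintro _ ⟨x, hx, rfl⟩
    obtain ⟨y, hy, rfl⟩ := hW hx
    simpa using hy

end Pool.Agent.H36.CSymp
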