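import Pool.Agent.H36.CSymp.Fields

set_option autoImplicit false

/-!
# The base map is affine in suitable coordinates
-/

noncomputable section

namespace Pool.Agent.H36.CSymp

open Set Metric Topology Filter
open scoped ENNReal

variable {m : ℕ}

/-- the transposed inverse of `N q` -/
def Lq (N : V m → (V m ≃L[ℝ] V m)) (q : V m) : V m →L[ℝ] V m :=
  ContinuousLinearMap.pi fun i => dtL ((N q).symm (Pi.single i (1 : ℝ) : V m))

lemma Lq_apply (N : V m → (V m ≃L[ℝ] V m)) (q u : V m) (i : Fin m) :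
    Lq N q u i = dt ((N q).symm (Pi.single i (1 : ℝ) : V m)) u := rfl

lemma dt_Lq (N : V m → (V m ≃L[ℝ] V m)) (q u w : V m) :
    dt (Lq N q u) w = dt ((N q).symm w) u := by
  have h1 : (N q).symm w = ∑ i, w i • (N q).symm (Pi.single i (1 : ℝ) : V m) := by
    conv_lhs => rw [← Finset.univ_sum_single w]
    rw [map_sum]
    refine Finset.sum_congr rfl fun l _ => ?_
    have : (Pi.single l (w l) : V m) = w l • Pi.single l (1 : ℝ) := by
      rw [← Pi.single_smul, smul_eq_mul, mul_one]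
    rw [this, map_smul]
  have h2 : ∀ (s : Finset (Fin m)) (g : Fin m → V m), dt (∑ i ∈ s, g i) u = ∑ i ∈ s, dt (g i) u :=
    fun s g => by
      simp only [dt, Finset.sum_apply, Finset.sum_mul]
      rw [Finset.sum_comm]
  rw [h1, h2]
  conv_lhs => rw [dt]
  refine Finset.sum_congr rfl fun i _ => ?_
  rw [dt_smul_left, Lq_apply, mul_comm]

lemma dt_Lq_N (N : V m → (V m ≃L[ℝ] V m)) (q u v : V m) :
    dt (Lq N q u) (N q v) = dt u v := by
  rw [dt_Lq, ContinuousLinearEquiv.symm_apply_apply, dt_comm]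

lemma dt_self_eq_zero {u : V m} (h : dt u u = 0) : u = 0 := by
  rw [dt, Finset.sum_eq_zero_iff_of_nonneg fun i _ => mul_self_nonneg _] at h
  funext i
  exact mul_self_eq_zero.1 (h i (Finset.mem_univ i))

lemma Lq_injective (N : V m → (V m ≃L[ℝ] V m)) (q : V m) :
    Function.Injective (Lq N q : V m →ₗ[ℝ] V m) := by
  rw [← LinearMap.ker_eq_bot, LinearMap.ker_eq_bot']
  intro u hu
  have hu' : Lq N q u = 0 := hu
  refine dt_self_eq_zero ?_
  rw [← dt_Lq_N N q u u, hu']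
  simp [dt]

/-- the equivalence -/
def LqE (N : V m → (V m ≃L[ℝ] V m)) (q : V m) : V m ≃L[ℝ] V m :=
  (LinearEquiv.ofInjectiveEndo (Lq N q : V m →ₗ[ℝ] V m) (Lq_injective N q)).toContinuousLinearEquiv

lemma LqE_coe (N : V m → (V m ≃L[ℝ] V m)) (q : V m) : (LqE N q : V m →L[ℝ] V m) = Lq N q := by
  ext u
  rfl

lemma LqE_apply (N : V m → (V m ≃L[ℝ] V m)) (q u : V m) : LqE N q u = Lq N q u := rfl

variable [NeZero m]
variable {c : RCap m} {e : OpenPartialHomeomorph (E m) (E m)} {q0 p0 : V m} {ρ C : ℝ}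
  {f b : V m → V m} {N : V m → (V m ≃L[ℝ] V m)}

/-- **The base map.** -/
theorem Fib.base (hm : 2 ≤ m) (h : Leafwise c e) (hf : Fib e q0 p0 ρ C f b N) :
    ∃ ρ' κ : ℝ, 0 < ρ' ∧ ρ' ≤ ρ ∧ ∀ q ∈ ball q0 ρ', HasFDerivAt f (κ • Lq N q) q := by
  have hρ := hf.pos
  have hr : ρ / 3 < ρ / 2 := by linarith
  have hr0 : 0 < ρ / 3 := by positivity
  -- potentials
  have hF : ∀ i, ∃ F : V m → ℝ, ∀ q ∈ ball q0 (ρ / 3),
      HasFDerivAt F (dtL ((N q).symm (Pi.single i (1 : ℝ) : V m))) q := fun i => by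
    obtain ⟨F, hF⟩ := (hf.field h 0 (fun u v => by simp [dt])
      (Pi.single i (1 : ℝ) : V m)).potential hr
    exact ⟨F, fun q hq => by simpa using hF q hq⟩
  choose F hF using hF
  have hG1 : ∀ i, ∃ G : V m → ℝ, ∀ q ∈ ball q0 (ρ / 3),
      HasFDerivAt G (f q i • dtL ((N q).symm (Pi.single i (1 : ℝ) : V m))) q := fun i => by
    obtain ⟨G, hG⟩ := (hf.field h (symB i i (1 / 2)) (symB_symm i i _) 0).potential hr
    refine ⟨G, fun q hq => ?_⟩
    have := hG q hq
    rwa [symB_self, add_zero, map_smul, map_smul] at this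
  choose G1 hG1 using hG1
  have hG2 : ∀ i j, ∃ G : V m → ℝ, ∀ q ∈ ball q0 (ρ / 3),
      HasFDerivAt G (f q i • dtL ((N q).symm (Pi.single j (1 : ℝ) : V m)) +
        f q j • dtL ((N q).symm (Pi.single i (1 : ℝ) : V m))) q := fun i j => by
    obtain ⟨G, hG⟩ := (hf.field h (symB i j 1) (symB_symm i j _) 0).potential hr
    refine ⟨G, fun q hq => ?_⟩
    have := hG q hq
    rwa [symB_apply, one_smul, add_zero, map_add, map_add, map_smul, map_smul, map_smul,
      map_smul] at this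
  choose G2 hG2 using hG2
  -- the coordinate map
  set Φ : V m → V m := fun q i => F i q with hΦ
  have hΦd : ∀ q ∈ ball q0 (ρ / 3), HasFDerivAt Φ (Lq N q) q := fun q hq =>
    hasFDerivAt_pi.2 fun i => hF i q hq
  have hLc : ContinuousOn (Lq N) (ball q0 (ρ / 3)) := by
    rw [continuousOn_clm_apply]
    intro u
    refine continuousOn_pi.2 fun i => ?_
    have h1 : ContinuousOn (fun q => (N q).symm (Pi.single i (1 : ℝ) : V m)) (ball q0 (ρ / 2)) := by
      have := (hf.field h 0 (fun u v => by simp [dt]) (Pi.single i (1 : ℝ) : V m)).continuousOn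
      simpa using this
    have h2 := h1.mono (ball_subset_ball hr.le)
    have h3 : Continuous fun w : V m => dt w u := by
      unfold dt
      fun_prop
    exact h3.comp_continuousOn h2
  have hs0 : q0 ∈ ball q0 (ρ / 3) := mem_ball_self hr0
  have hstrict : HasStrictFDerivAt Φ ((LqE N q0 : V m ≃L[ℝ] V m) : V m →L[ℝ] V m) q0 := by
    rw [LqE_coe]
    refine hasStrictFDerivAt_of_hasFDerivAt_of_continuousAt ?_
      (hLc.continuousAt (isOpen_ball.mem_nhds hs0))
    filter_upwards [isOpen_ball.mem_nhds hs0] with q hq using hΦd q hq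
  set Θ := hstrict.toOpenPartialHomeomorph Φ with hΘ
  have hΘc : ∀ q, Θ q = Φ q := fun q => rfl
  have hq0s : q0 ∈ Θ.source := hstrict.mem_toOpenPartialHomeomorph_source
  have hy0 : Φ q0 ∈ Θ.target := hstrict.image_mem_toOpenPartialHomeomorph_target
  have hinv0 : Θ.symm (Φ q0) = q0 := by
    rw [← hΘc]; exact Θ.left_inv hq0s
  -- a small ball in the target
  obtain ⟨s, hs, hsb⟩ : ∃ s : ℝ, 0 < s ∧ ∀ y ∈ ball (Φ q0) s, y ∈ Θ.target ∧
      Θ.symm y ∈ ball q0 (ρ / 3) := by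
    have h1 : ∀ᶠ y in 𝓝 (Φ q0), y ∈ Θ.target := Θ.open_target.mem_nhds hy0
    have h2 : ∀ᶠ y in 𝓝 (Φ q0), Θ.symm y ∈ ball q0 (ρ / 3) :=
      (Θ.continuousAt_symm hy0).eventually (isOpen_ball.mem_nhds (by rw [hinv0]; exact hs0))
    obtain ⟨s, hs, hsb⟩ := Metric.eventually_nhds_iff.1 (h1.and h2)
    exact ⟨s, hs, fun y hy => hsb hy⟩
  have hder : ∀ y ∈ ball (Φ q0) s, HasFDerivAt Θ.symm
      (((LqE N (Θ.symm y)).symm : V m ≃L[ℝ] V m) : V m →L[ℝ] V m) y := by
    intro y hy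
    refine Θ.hasFDerivAt_symm (hsb y hy).1 ?_
    rw [LqE_coe]
    exact hΦd _ (hsb y hy).2
  have hcomp : ∀ (y : V m) (i : Fin m) (u : V m),
      dt ((N (Θ.symm y)).symm (Pi.single i (1 : ℝ) : V m)) ((LqE N (Θ.symm y)).symm u) = u i := by
    intro y i u
    rw [← Lq_apply, ← LqE_apply, ContinuousLinearEquiv.apply_symm_apply]
  obtain ⟨κ, b', hκ⟩ := lemQ hm (p0 := Φ q0) (r := s) (h := fun y => f (Θ.symm y))
    (fun i => ⟨fun y => G1 i (Θ.symm y), fun y hy => by
      have h1 := (hG1 i _ (hsb y hy).2).comp y (hder y hy)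
      refine h1.congr_fderiv ?_
      ext1 u
      simp only [ContinuousLinearMap.comp_apply, smul_apply, dtL_apply,
        ContinuousLinearEquiv.coe_coe, hcomp, dt_smul_left, dt_single_left, smul_eq_mul, one_mul]⟩)
    (fun i j _ => ⟨fun y => G2 i j (Θ.symm y), fun y hy => by
      have h1 := (hG2 i j _ (hsb y hy).2).comp y (hder y hy)
      refine h1.congr_fderiv ?_
      ext1 u
      simp only [ContinuousLinearMap.comp_apply, smul_apply, add_apply, dtL_apply,
        ContinuousLinearEquiv.coe_coe, hcomp, dt_smul_left, dt_add_left, dt_single_left,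
        smul_eq_mul, one_mul]⟩)
  -- back to `q`
  have h1a : ∀ᶠ q in 𝓝 q0, q ∈ Θ.source := Θ.open_source.mem_nhds hq0s
  have h1b : ∀ᶠ q in 𝓝 q0, q ∈ ball q0 (ρ / 3) := isOpen_ball.mem_nhds hs0
  have h1 : ∀ᶠ q in 𝓝 q0, q ∈ Θ.source ∧ q ∈ ball q0 (ρ / 3) ∧ Φ q ∈ ball (Φ q0) s :=
    h1a.and (h1b.and
      (hstrict.continuousAt.eventually (isOpen_ball.mem_nhds (mem_ball_self hs))))
  obtain ⟨ρ', hρ', hρb⟩ := Metric.eventually_nhds_iff.1 h1
  refine ⟨min ρ' ρ, κ, lt_min hρ' hρ, min_le_right _ _, fun q hq => ?_⟩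
  have hin : ∀ x ∈ ball q0 (min ρ' ρ), f x = κ • Φ x + b' := fun x hx => by
    obtain ⟨a1, -, a3⟩ := hρb ((mem_ball.1 hx).trans_le (min_le_left _ _))
    have := hκ _ a3
    rwa [← hΘc, Θ.left_inv a1] at this
  obtain ⟨-, a2, -⟩ := hρb ((mem_ball.1 hq).trans_le (min_le_left _ _))
  have h2 : HasFDerivAt (fun x => κ • Φ x + b') (κ • Lq N q) q :=
    ((hΦd q a2).const_smul κ).add_const b'
  refine h2.congr_of_eventuallyEq ?_
  filter_upwards [isOpen_ball.mem_nhds hq] with x hx using hin x hx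

end Pool.Agent.H36.CSymp
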