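import Pool.Agent.H36.CSymp.ToCap

set_option autoImplicit false

/-!
# The theorem on `R^{2m}`
-/

noncomputable section

namespace Pool.Agent.H36.CSymp

open Set Metric Topology Filter MeasureTheory
open scoped ENNReal ContDiff
open Pool.Agent.H72.Symp (Sp omega ball1 cyl1 IsSympEmbedding Capacity CapacityChoice
  LocallyPreserves stab)

/-- Two points are on the same leaf of the standard Lagrangian foliation of `R^{2m}` by the planes
on which all coordinates `x_j` are constant. -/
def SameLeaf {m : ℕ} (u v : Sp m) : Prop := ∀ j, (u j).1 = (v j).1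

/-- Near `x`, the homeomorphism `φ` maps a smooth Lagrangian foliation to a smooth Lagrangian
foliation: there are smooth symplectic charts `σ` of a neighbourhood `U` of `x` and `τ` of `φ(U)`
such that two points of `U` are on the same leaf for `σ` if and only if their images are on the same
leaf for `τ`. -/
def LagrangianAt {m : ℕ} (φ : Sp m ≃ₜ Sp m) (x : Sp m) : Prop :=
  ∃ U, IsOpen U ∧ x ∈ U ∧ ∃ σ τ : Sp m → Sp m,
    IsSympEmbedding σ U Set.univ ∧ IsSympEmbedding τ (φ '' U) Set.univ ∧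
      ∀ y ∈ U, ∀ z ∈ U, (SameLeaf (σ y) (σ z) ↔ SameLeaf (τ (φ y)) (τ (φ z)))

lemma IsSympEmbedding.mono' {m : ℕ} {σ : Sp m → Sp m} {U W V : Set (Sp m)}
    (h : IsSympEmbedding σ U V) (hW : W ⊆ U) : IsSympEmbedding σ W V :=
  ⟨h.smooth.mono hW, h.inj.mono hW, h.maps.mono_left hW, fun x hx => h.symp x (hW hx)⟩

lemma vol_Th {m : ℕ} (B : Set (Sp m)) : volume (Th '' B : Set (E m)) = volume B := by
  have hmp := volume_measurePreserving_arrowProdEquivProdArrow ℝ ℝ (Fin m)
  have h1 := hmp.measure_preimage_equiv (Th '' B : Set (E m))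
  rw [← h1]
  congr 1
  exact preimage_image_eq _ Th.injective

variable {m : ℕ} [NeZero m]

section localmap

variable {φ : Sp m ≃ₜ Sp m} {σ τ : Sp m → Sp m} {U : Set (Sp m)}

/-- the local map in the charts -/
def locE (hU : IsOpen U) (hσ : IsSympEmbedding σ U univ) (hτ : IsSympEmbedding τ (φ '' U) univ) :
    OpenPartialHomeomorph (E m) (E m) :=
  ((((Th (m := m)).symm.toHomeomorph.toOpenPartialHomeomorph.trans (chart hU hσ).symm).trans
    φ.toOpenPartialHomeomorph).trans (chart (φ.isOpenMap U hU) hτ)).trans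
      (Th (m := m)).toHomeomorph.toOpenPartialHomeomorph

variable (hU : IsOpen U) (hσ : IsSympEmbedding σ U univ) (hτ : IsSympEmbedding τ (φ '' U) univ)

omit [NeZero m] in
lemma chart_symm_apply {x : Sp m} (hx : x ∈ U) : (chart hU hσ).symm (σ x) = x :=
  (chart hU hσ).left_inv hx

omit [NeZero m] in
lemma locE_apply {x : Sp m} (hx : x ∈ U) : locE hU hσ hτ (Th (σ x)) = Th (τ (φ x)) := by
  have h1 : locE hU hσ hτ (Th (σ x)) = Th (τ (φ ((chart hU hσ).symm (Th.symm (Th (σ x)))))) := rfl
  rw [h1, ContinuousLinearEquiv.symm_apply_apply, chart_symm_apply hU hσ hx]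

omit [NeZero m] in
lemma mem_locE {y : E m} : y ∈ (locE hU hσ hτ).source ↔ ∃ x ∈ U, Th (σ x) = y := by
  constructor
  · intro hy
    simp only [locE, OpenPartialHomeomorph.trans_source, OpenPartialHomeomorph.coe_trans,
      OpenPartialHomeomorph.symm_source, chart_target, chart_source,
      Homeomorph.toOpenPartialHomeomorph_source, univ_inter, preimage_univ, inter_univ,
      mem_inter_iff, mem_preimage] at hy
    obtain ⟨⟨x, hx, hxy⟩, -⟩ := hy
    refine ⟨x, hx, ?_⟩
    rw [hxy]
    exact ContinuousLinearEquiv.apply_symm_apply _ _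
  · rintro ⟨x, hx, rfl⟩
    simp only [locE, OpenPartialHomeomorph.trans_source, OpenPartialHomeomorph.coe_trans,
      OpenPartialHomeomorph.symm_source, chart_target, chart_source,
      Homeomorph.toOpenPartialHomeomorph_source, univ_inter, preimage_univ, inter_univ,
      mem_inter_iff, mem_preimage]
    refine ⟨⟨x, hx, ?_⟩, ?_⟩
    · exact (ContinuousLinearEquiv.symm_apply_apply _ _).symm
    · show φ ((chart hU hσ).symm (Th.symm (Th (σ x)))) ∈ φ '' U
      rw [ContinuousLinearEquiv.symm_apply_apply, chart_symm_apply hU hσ hx]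
      exact ⟨x, hx, rfl⟩

/-- the local map preserves the capacity -/
lemma locE_pres {c : Capacity m} (hφ : ∀ W, IsOpen W → W ⊆ U → c.val (φ '' W) = c.val W) :
    Pres (ofCap c) (locE hU hσ hτ).source (locE hU hσ hτ) where
  isOpen := (locE hU hσ hτ).open_source
  cont := (locE hU hσ hτ).continuousOn
  inj := (locE hU hσ hτ).injOn
  opn W hW ho := (locE hU hσ hτ).isOpen_image_of_subset_source ho hW
  val W hW ho := by
    have key := vR_image (c := c) (k := 1) (locE hU hσ hτ) (fun W hW ho => ?_) hW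
    · rw [one_mul] at key
      exact key
    · rw [one_mul]
      set W0 : Set (Sp m) := U ∩ (fun x => Th (σ x)) ⁻¹' W with hW0
      have hW0o : IsOpen W0 :=
        (Th.continuous.comp_continuousOn hσ.smooth.continuousOn).isOpen_inter_preimage hU ho
      have h1 : σ '' W0 = Th ⁻¹' W := by
        ext y
        constructor
        · rintro ⟨x, hx, rfl⟩
          exact hx.2
        · intro hy
          obtain ⟨x, hx, hxy⟩ := (mem_locE hU hσ hτ).1 (hW hy)
          have h2 : σ x = y := Th.injective hxy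
          refine ⟨x, ⟨hx, ?_⟩, h2⟩
          show Th (σ x) ∈ W
          rw [h2]
          exact hy
      have h2 : τ '' (φ '' W0) = Th ⁻¹' (locE hU hσ hτ '' W) := by
        ext y
        constructor
        · rintro ⟨_, ⟨x, hx, rfl⟩, rfl⟩
          exact ⟨Th (σ x), hx.2, locE_apply hU hσ hτ hx.1⟩
        · rintro ⟨z, hz, hzy⟩
          obtain ⟨x, hx, rfl⟩ := (mem_locE hU hσ hτ).1 (hW hz)
          rw [locE_apply hU hσ hτ hx] at hzy
          exact ⟨φ x, ⟨x, ⟨hx, hz⟩, rfl⟩, Th.injective hzy⟩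
      rw [← h1, ← h2, chart_cap c hU hσ inter_subset_left hW0o,
        chart_cap c (φ.isOpenMap U hU) hτ (image_mono inter_subset_left) (φ.isOpenMap _ hW0o),
        hφ W0 hW0o inter_subset_left]

/-- the local map maps leaves to leaves -/
lemma locE_leaf {c : Capacity m} (hφ : ∀ W, IsOpen W → W ⊆ U → c.val (φ '' W) = c.val W)
    (hL : ∀ y ∈ U, ∀ z ∈ U, (SameLeaf (σ y) (σ z) ↔ SameLeaf (τ (φ y)) (τ (φ z)))) :
    Leafwise (ofCap c) (locE hU hσ hτ) where
  pres := locE_pres hU hσ hτ hφ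
  leaf y hy z hz := by
    obtain ⟨x, hx, rfl⟩ := (mem_locE hU hσ hτ).1 hy
    obtain ⟨x', hx', rfl⟩ := (mem_locE hU hσ hτ).1 hz
    rw [locE_apply hU hσ hτ hx, locE_apply hU hσ hτ hx']
    have key : ∀ u v : Sp m, (Th u).1 = (Th v).1 ↔ SameLeaf u v := fun u v => funext_iff
    rw [key, key]
    exact hL x hx x' hx'

end localmap

/-- the local statement -/
theorem local_volume (hm : 2 ≤ m) {c : Capacity m} {φ : Sp m ≃ₜ Sp m} (hφ : LocallyPreserves c φ)
    {x : Sp m} (hx : LagrangianAt φ x) :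
    ∃ O, IsOpen O ∧ x ∈ O ∧ ∀ A ⊆ O, MeasurableSet A → volume (φ '' A) = volume A := by
  obtain ⟨U1, hU1, hx1, h1⟩ := hφ x
  obtain ⟨U2, hU2, hx2, σ, τ, hσ, hτ, hL⟩ := hx
  have hU : IsOpen (U1 ∩ U2) := hU1.inter hU2
  have hxU : x ∈ U1 ∩ U2 := ⟨hx1, hx2⟩
  have hσ' : IsSympEmbedding σ (U1 ∩ U2) univ := IsSympEmbedding.mono' hσ inter_subset_right
  have hτ' : IsSympEmbedding τ (φ '' (U1 ∩ U2)) univ :=
    IsSympEmbedding.mono' hτ (image_mono inter_subset_right)
  have hleaf := locE_leaf hU hσ' hτ' (c := c)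
    (fun W hW hWU => h1 W hW (hWU.trans inter_subset_left))
    (fun y hy z hz => hL y hy.2 z hz.2)
  have hy0 : Th (σ x) ∈ (locE hU hσ' hτ').source := (mem_locE hU hσ' hτ').2 ⟨x, hxU, rfl⟩
  obtain ⟨O, hO, hyO, hOs, hvol⟩ := hleaf.vol_pres hm hy0
  refine ⟨(U1 ∩ U2) ∩ (fun x => Th (σ x)) ⁻¹' O,
    (Th.continuous.comp_continuousOn hσ'.smooth.continuousOn).isOpen_inter_preimage hU hO,
    ⟨hxU, hyO⟩, fun A hA hAm => ?_⟩
  have hAU : A ⊆ U1 ∩ U2 := hA.trans inter_subset_left
  have hσA : MeasurableSet (σ '' A) := hAm.image_of_continuousOn_injOn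
    (hσ'.smooth.continuousOn.mono hAU) (hσ'.inj.mono hAU)
  have hφA : MeasurableSet (φ '' A) := φ.toMeasurableEquiv.measurableEmbedding.measurableSet_image.2
    hAm
  have hA1 : MeasurableSet (Th '' (σ '' A) : Set (E m)) :=
    Th.toHomeomorph.toMeasurableEquiv.measurableEmbedding.measurableSet_image.2 hσA
  have hA1O : (Th '' (σ '' A) : Set (E m)) ⊆ O := by
    rintro _ ⟨_, ⟨y, hy, rfl⟩, rfl⟩
    exact (hA hy).2
  have h2 := hvol _ hA1O hA1
  have h3 : locE hU hσ' hτ' '' (Th '' (σ '' A)) = Th '' (τ '' (φ '' A)) := by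
    simp only [image_image]
    exact image_congr fun y hy => locE_apply hU hσ' hτ' (hAU hy)
  rw [h3, vol_Th, vol_Th, chart_vol hU hσ' hAU hAm,
    chart_vol (φ.isOpenMap _ hU) hτ' (image_mono hAU) hφA] at h2
  exact h2

/-- **The theorem on `R^{2m}`.** -/
theorem core (hm : 2 ≤ m) {c : Capacity m} {φ : Sp m ≃ₜ Sp m} (hφ : LocallyPreserves c φ)
    {A : Set (Sp m)} (hA : MeasurableSet A) (hL : ∀ x ∈ A, LagrangianAt φ x) :
    volume (φ '' A) = volume A := by
  have h1 : ∀ x : Sp m, x ∈ A → ∃ O, IsOpen O ∧ x ∈ O ∧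
      ∀ A ⊆ O, MeasurableSet A → volume (φ '' A) = volume A := fun x hx =>
    local_volume hm hφ (hL x hx)
  choose! O hO hxO hvol using h1
  obtain ⟨t, htA, htc, ht⟩ := TopologicalSpace.countable_cover_nhdsWithin (s := A) (f := O)
    (fun x hx => mem_nhdsWithin_of_mem_nhds ((hO x hx).mem_nhds (hxO x hx)))
  set μ : Measure (Sp m) := volume.map φ.symm with hμ
  have hμA : ∀ B, MeasurableSet B → μ B = volume (φ '' B) := fun B hB => by
    rw [hμ, Measure.map_apply φ.symm.continuous.measurable hB]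
    congr 1
    exact (φ.image_eq_preimage_symm B).symm
  have h2 : μ.restrict (⋃ x ∈ t, O x) = volume.restrict (⋃ x ∈ t, O x) := by
    rw [Measure.restrict_biUnion_congr htc]
    intro x hx
    ext B hB
    rw [Measure.restrict_apply hB, Measure.restrict_apply hB,
      hμA _ (hB.inter (hO x (htA hx)).measurableSet)]
    exact hvol x (htA hx) _ inter_subset_right (hB.inter (hO x (htA hx)).measurableSet)
  have h3 := congrArg (fun ν : Measure (Sp m) => ν A) h2
  simp only [Measure.restrict_apply hA] at h3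
  rw [inter_eq_left.2 ht, hμA A hA] at h3
  exact h3

end Pool.Agent.H36.CSymp
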