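import Pool.Agent.H36.CSymp.Zoom

set_option autoImplicit false

/-!
# The structure of capacity preserving maps that map vertical leaves to vertical leaves
-/

noncomputable section

namespace Pool.Agent.H36.CSymp

open Set Metric Topology Filter
open scoped ENNReal

variable {m : ℕ} [NeZero m]

/-- `e` preserves the capacity and maps the leaves `q = const` to such leaves -/
structure Leafwise (c : RCap m) (e : OpenPartialHomeomorph (E m) (E m)) : Prop where
  pres : Pres c e.source e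
  leaf : ∀ x ∈ e.source, ∀ y ∈ e.source, (x.1 = y.1 ↔ (e x).1 = (e y).1)

/-- the fibrewise translation -/
def Psi (e : OpenPartialHomeomorph (E m) (E m)) (v : V m) (x : E m) : E m := e.symm (e x + (0, v))

/-- `e` is affine along the leaves -/
structure Fib (e : OpenPartialHomeomorph (E m) (E m)) (q0 p0 : V m) (ρ C : ℝ) (f b : V m → V m)
    (N : V m → (V m ≃L[ℝ] V m)) : Prop where
  pos : 0 < ρ
  src : (ball q0 ρ ×ˢ ball p0 ρ : Set (E m)) ⊆ e.source
  eq : ∀ q ∈ ball q0 ρ, ∀ p ∈ ball p0 ρ, e (q, p) = (f q, b q + N q (p - p0))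
  bd : ∀ q ∈ ball q0 ρ, ∀ u, ‖(N q).symm u‖ ≤ C * ‖u‖
  fbd : ∀ q ∈ ball q0 ρ, ‖f q‖ ≤ C
  fcont : ContinuousOn f (ball q0 ρ)
  bcont : ContinuousOn b (ball q0 ρ)

variable {c : RCap m} {e : OpenPartialHomeomorph (E m) (E m)} {q0 p0 : V m}

omit [NeZero m] in
/-- points near `x0` and small translations -/
lemma psi_near (hx0 : (q0, p0) ∈ e.source) {s : ℝ} (hs : 0 < s) :
    ∃ δ : ℝ, 0 < δ ∧ δ ≤ s / 2 ∧ ∀ q ∈ ball q0 δ, ∀ p ∈ ball p0 δ, ∀ v : V m, ‖v‖ < δ →
      (q, p) ∈ e.source ∧ e (q, p) + (0, v) ∈ e.target ∧ (Psi e v (q, p)).1 ∈ ball q0 s ∧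
        (Psi e v (q, p)).2 ∈ ball p0 s ∧ ‖e (q, p) - e (q0, p0)‖ < s / 2 := by
  have h1 : ContinuousAt (fun z : E m × V m => e z.1 + ((0 : V m), z.2)) ((q0, p0), 0) := by
    refine ContinuousAt.add ?_ (by fun_prop)
    exact ContinuousAt.comp (g := e) (e.continuousAt hx0) continuousAt_fst
  have h1' : e (q0, p0) + ((0 : V m), (0 : V m)) = e (q0, p0) := by simp
  have h2 : ContinuousAt (fun z : E m × V m => Psi e z.2 z.1) ((q0, p0), 0) := by
    refine ContinuousAt.comp (g := e.symm) ?_ h1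
    simp only [h1']
    exact e.continuousAt_symm (e.map_source hx0)
  have h2' : Psi e 0 (q0, p0) = (q0, p0) := by
    simp only [Psi, h1']
    exact e.left_inv hx0
  have h3 : ∀ᶠ z : E m × V m in 𝓝 ((q0, p0), 0), z.1 ∈ e.source :=
    continuousAt_fst.eventually (e.open_source.mem_nhds hx0)
  have h4 : ∀ᶠ z : E m × V m in 𝓝 ((q0, p0), 0), e z.1 + (0, z.2) ∈ e.target :=
    h1.eventually (e.open_target.mem_nhds (by simp only [h1']; exact e.map_source hx0))
  have h5 : ∀ᶠ z : E m × V m in 𝓝 ((q0, p0), 0), Psi e z.2 z.1 ∈ ball (q0, p0) s :=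
    h2.eventually (isOpen_ball.mem_nhds (by simp only [h2']; exact mem_ball_self hs))
  have h6 : ∀ᶠ z : E m × V m in 𝓝 ((q0, p0), 0), e z.1 ∈ ball (e (q0, p0)) (s / 2) := by
    have : ContinuousAt (fun z : E m × V m => e z.1) ((q0, p0), 0) :=
      ContinuousAt.comp (g := e) (e.continuousAt hx0) continuousAt_fst
    exact this.eventually (isOpen_ball.mem_nhds (mem_ball_self (half_pos hs)))
  obtain ⟨δ, hδ, h⟩ := Metric.eventually_nhds_iff.1 (((h3.and h4).and h5).and h6)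
  refine ⟨min δ (s / 2), lt_min hδ (half_pos hs), min_le_right _ _, fun q hq p hp v hv => ?_⟩
  have hz : dist (((q, p), v) : E m × V m) ((q0, p0), 0) < δ := by
    rw [Prod.dist_eq, Prod.dist_eq]
    refine max_lt (max_lt ?_ ?_) ?_
    · exact (mem_ball.1 hq).trans_le (min_le_left _ _)
    · exact (mem_ball.1 hp).trans_le (min_le_left _ _)
    · simpa using hv.trans_le (min_le_left _ _)
  obtain ⟨⟨⟨h7, h8⟩, h9⟩, h10⟩ := h hz
  have h9' := h9
  rw [mem_ball, Prod.dist_eq, max_lt_iff] at h9'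
  refine ⟨h7, h8, h9'.1, h9'.2, ?_⟩
  rw [← dist_eq_norm]
  exact h10

/-- **Fibre structure.** -/
theorem Leafwise.fib (hm : 2 ≤ m) (h : Leafwise c e) (hx0 : (q0, p0) ∈ e.source) :
    ∃ (ρ C : ℝ) (f b : V m → V m) (N : V m → (V m ≃L[ℝ] V m)), Fib e q0 p0 ρ C f b N := by
  -- radii
  obtain ⟨ρ0, hρ0, hρ0s⟩ : ∃ ρ0 : ℝ, 0 < ρ0 ∧ (ball q0 ρ0 ×ˢ ball p0 ρ0 : Set (E m)) ⊆ e.source := by
    obtain ⟨s, hs, hsb⟩ := Metric.isOpen_iff.1 e.open_source _ hx0
    exact ⟨s, hs, by rwa [ball_prod_same]⟩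
  obtain ⟨δ1, hδ1, hδ10, h1⟩ := psi_near hx0 hρ0
  obtain ⟨δ2, hδ2, hδ21, h2⟩ := psi_near hx0 (half_pos hδ1)
  obtain ⟨δ3, hδ3, hδ32, h3⟩ := psi_near hx0 hδ2
  obtain ⟨δ4, hδ4, hδ43, h4⟩ := psi_near hx0 hδ3
  -- the inverse
  have hinv : Pres c e.target e.symm := by
    have := h.pres.inv (g := e.symm) fun x hx => e.left_inv hx
    rwa [e.image_source_eq_target] at this
  have htr : ∀ v : V m, Pres c univ fun x : E m => x + (0, v) := fun v =>
    Pres.of_conf (conf_trans c ((0, v) : E m))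
  -- basic facts on `Psi`
  have hPsi : ∀ q ∈ ball q0 δ1, ∀ p ∈ ball p0 δ1, ∀ v : V m, ‖v‖ < δ1 →
      Psi e v (q, p) ∈ e.source ∧ e (Psi e v (q, p)) = e (q, p) + (0, v) ∧
        (Psi e v (q, p)).1 = q := by
    intro q hq p hp v hv
    obtain ⟨ha, hb, hc, hd, -⟩ := h1 q hq p hp v hv
    have hs : Psi e v (q, p) ∈ e.source := hρ0s ⟨hc, hd⟩
    have he : e (Psi e v (q, p)) = e (q, p) + (0, v) := e.right_inv hb
    refine ⟨hs, he, ?_⟩
    exact (h.leaf _ hs _ ha).2 (by rw [he]; simp)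
  have hPres : ∀ v : V m, ‖v‖ < δ1 → Pres c (ball q0 δ1 ×ˢ ball p0 δ1) (Psi e v) := by
    intro v hv
    have hsub : (ball q0 δ1 ×ˢ ball p0 δ1 : Set (E m)) ⊆ e.source := fun x hx =>
      (h1 x.1 hx.1 x.2 hx.2 v hv).1
    have a1 := h.pres.subset hsub (isOpen_ball.prod isOpen_ball)
    have a2 := (htr v).comp a1 (mapsTo_univ _ _)
    exact hinv.comp a2 fun x hx => (h1 x.1 hx.1 x.2 hx.2 v hv).2.1
  -- affine
  have haff : ∀ v : V m, ‖v‖ < δ1 → ∀ q ∈ ball q0 δ1, ∃ (κ : ℝ) (b : V m), κ ^ 2 = 1 ∧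
      ∀ p ∈ ball p0 (δ1 / 2), (Psi e v (q, p)).2 = κ • p + b := by
    intro v hv q hq
    have a1 := (hPres v hv).fiber (fun x hx => (hPsi x.1 hx.1 x.2 hx.2 v hv).2.2) hq
    obtain ⟨κ, b, hκ⟩ := Pres.affine (h := fun p => (Psi e v (q, p)).2) hm a1 (half_lt_self hδ1)
    refine ⟨κ, b, ?_, hκ⟩
    have a2 := a1.subset (prod_mono subset_rfl (ball_subset_ball (half_le_self hδ1.le)))
      (isOpen_univ.prod isOpen_ball)
    refine Pres.sq_p (b := b) (half_pos hδ1) (a2.congr fun x hx => ?_)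
    rw [hκ x.2 hx.2]
  -- translations
  have htrans : ∀ v : V m, ‖v‖ < δ2 → ∀ q ∈ ball q0 δ2, ∃ a : V m, ∀ p ∈ ball p0 δ2,
      Psi e v (q, p) = (q, p + a) := by
    intro v hv q hq
    have hδ2' : δ2 ≤ δ1 / 2 := hδ21.trans (by linarith)
    have hq1 : q ∈ ball q0 δ1 := ball_subset_ball (by linarith) hq
    have hw : ‖(1 / 2 : ℝ) • v‖ < δ2 := by
      rw [norm_smul, Real.norm_of_nonneg (by norm_num)]
      linarith [norm_nonneg v]
    obtain ⟨κ, b, hκ, hb⟩ := haff ((1 / 2 : ℝ) • v) (by linarith) q hq1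
    refine ⟨κ • b + b, fun p hp => ?_⟩
    have hp1 : p ∈ ball p0 δ1 := ball_subset_ball (by linarith) hp
    have hp2 : p ∈ ball p0 (δ1 / 2) := ball_subset_ball hδ2' hp
    obtain ⟨-, -, a1, a2, -⟩ := h2 q hq p hp _ hw
    obtain ⟨b1, b2, b3⟩ := hPsi q hq1 p hp1 ((1 / 2 : ℝ) • v) (by linarith)
    have e1 : Psi e ((1 / 2 : ℝ) • v) (q, p) = (q, κ • p + b) := Prod.ext b3 (hb p hp2)
    rw [e1] at a2 b2
    have e2 : Psi e v (q, p) = Psi e ((1 / 2 : ℝ) • v) (q, κ • p + b) := by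
      simp only [Psi]
      rw [b2, add_assoc]
      congr 2
      refine Prod.ext (by simp) ?_
      simp only [Prod.mk_add_mk]
      rw [← add_smul, add_halves, one_smul]
    have hp3 : κ • p + b ∈ ball p0 (δ1 / 2) := a2
    have hp4 : κ • p + b ∈ ball p0 δ1 := ball_subset_ball (by linarith) hp3
    obtain ⟨-, -, c3⟩ := hPsi q hq1 _ hp4 ((1 / 2 : ℝ) • v) (by linarith)
    rw [e2]
    refine Prod.ext c3 ?_
    rw [hb _ hp3, smul_add, smul_smul, ← sq, hκ, one_smul, add_assoc]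
  -- additivity
  have hδ31 : δ3 ≤ δ1 := by linarith
  have hadd : ∀ q ∈ ball q0 δ3, ∀ w w' : V m, ‖w‖ < δ3 → ‖w'‖ < δ3 →
      e (q, p0 + w + w') = e (q, p0 + w) + (0, (e (q, p0 + w')).2 - (e (q, p0)).2) := by
    intro q hq w w' hw hw'
    have hq2 : q ∈ ball q0 δ2 := ball_subset_ball (by linarith) hq
    have hq1 : q ∈ ball q0 δ1 := ball_subset_ball (by linarith) hq
    set v' := (e (q, p0 + w')).2 - (e (q, p0)).2 with hv'def
    have hpw : ∀ u : V m, ‖u‖ < δ3 → p0 + u ∈ ball p0 δ3 := fun u hu => by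
      rw [mem_ball, dist_eq_norm, add_sub_cancel_left]; exact hu
    have hp0 : p0 ∈ ball p0 δ3 := mem_ball_self hδ3
    have n0 : ‖(0 : V m)‖ < δ3 := by simpa using hδ3
    obtain ⟨s1, -, -, -, g1⟩ := h3 q hq p0 hp0 0 n0
    obtain ⟨s2, -, -, -, g2⟩ := h3 q hq (p0 + w') (hpw w' hw') 0 n0
    have hv' : ‖v'‖ < δ2 := by
      have e1 : v' = (e (q, p0 + w') - e (q0, p0)).2 - (e (q, p0) - e (q0, p0)).2 := by
        rw [hv'def]
        simp
      rw [e1]
      have i1 := norm_snd_le (e (q, p0 + w') - e (q0, p0))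
      have i2 := norm_snd_le (e (q, p0) - e (q0, p0))
      have i3 := norm_sub_le (e (q, p0 + w') - e (q0, p0)).2 (e (q, p0) - e (q0, p0)).2
      linarith
    have e2 : e (q, p0 + w') = e (q, p0) + (0, v') := by
      refine Prod.ext ?_ ?_
      · have := (h.leaf _ s2 _ s1).1 rfl
        simpa using this
      · simp [hv'def]
    obtain ⟨a, ha⟩ := htrans v' hv' q hq2
    have e3 : Psi e v' (q, p0) = (q, p0 + w') := by
      simp only [Psi]
      rw [← e2]
      exact e.left_inv s2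
    rw [ha p0 (mem_ball_self hδ2)] at e3
    have e4 : a = w' := add_left_cancel (congrArg Prod.snd e3)
    have hpw2 : p0 + w ∈ ball p0 δ2 := ball_subset_ball (by linarith) (hpw w hw)
    have e5 := ha (p0 + w) hpw2
    obtain ⟨-, e6, -⟩ := hPsi q hq1 (p0 + w) (ball_subset_ball (by linarith) hpw2) v'
      (by linarith)
    rw [e5, e4] at e6
    exact e6
  -- linear
  have hlin : ∀ q ∈ ball q0 δ3, ∃ N : V m ≃L[ℝ] V m, ∀ w : V m, ‖w‖ < δ3 →
      e (q, p0 + w) = ((e (q, p0)).1, (e (q, p0)).2 + N w) := by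
    intro q hq
    have hsrc : ∀ w : V m, ‖w‖ < δ3 → (q, p0 + w) ∈ e.source := fun w hw =>
      (h3 q hq (p0 + w) (by rw [mem_ball, dist_eq_norm, add_sub_cancel_left]; exact hw) 0
        (by simpa using hδ3)).1
    have hsrc0 : (q, p0) ∈ e.source := by simpa using hsrc 0 (by simpa using hδ3)
    obtain ⟨M, hM⟩ := locAdd (a := fun w => (e (q, p0 + w)).2 - (e (q, p0)).2) hδ3 (by
      intro w w' hw hw'
      have := congrArg Prod.snd (hadd q hq w w' hw hw')
      simp only [Prod.snd_add] at this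
      rw [← add_assoc, this]
      abel) (by
      refine ContinuousAt.sub ?_ continuousAt_const
      have h5 : ContinuousAt (fun w : V m => (q, p0 + w)) 0 := by fun_prop
      refine continuousAt_snd.comp (ContinuousAt.comp (g := e) ?_ h5)
      simpa using e.continuousAt hsrc0)
    have hform : ∀ w : V m, ‖w‖ < δ3 → e (q, p0 + w) = ((e (q, p0)).1, (e (q, p0)).2 + M w) := by
      intro w hw
      refine Prod.ext ((h.leaf _ (hsrc w hw) _ hsrc0).1 rfl) ?_
      rw [← hM w hw]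
      simp
    have hinj : Function.Injective (M : V m →ₗ[ℝ] V m) := by
      rw [← LinearMap.ker_eq_bot, LinearMap.ker_eq_bot']
      intro u hu
      by_contra hne
      have hu' : 0 < ‖u‖ := norm_pos_iff.2 hne
      set t : ℝ := δ3 / (2 * ‖u‖) with ht
      have ht0 : 0 < t := by positivity
      have htu : ‖t • u‖ < δ3 := by
        rw [norm_smul, Real.norm_of_nonneg ht0.le, ht]
        have : δ3 / (2 * ‖u‖) * ‖u‖ = δ3 / 2 := by field_simp
        rw [this]; linarith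
      have e1 := hform (t • u) htu
      have hu2 : M u = 0 := hu
      rw [map_smul, hu2, smul_zero, add_zero] at e1
      have e2 := e.injOn (hsrc _ htu) hsrc0 e1
      have e3 := congrArg Prod.snd e2
      simp only [add_eq_left, smul_eq_zero] at e3
      rcases e3 with e3 | e3
      · exact ht0.ne' e3
      · exact hne e3
    refine ⟨(LinearEquiv.ofInjectiveEndo (M : V m →ₗ[ℝ] V m) hinj).toContinuousLinearEquiv,
      fun w hw => ?_⟩
    exact hform w hw
  choose! N hN using hlin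
  -- the conclusion
  have hq43 : ∀ q ∈ ball q0 δ4, q ∈ ball q0 δ3 := fun q hq => ball_subset_ball (by linarith) hq
  have hcont : ContinuousOn (fun q : V m => e (q, p0)) (ball q0 δ4) := by
    refine e.continuousOn.comp (by fun_prop) fun q hq => ?_
    exact (h4 q hq p0 (mem_ball_self hδ4) 0 (by simpa using hδ4)).1
  refine ⟨δ4, max (2 * δ3 / δ4) (‖e (q0, p0)‖ + δ3), fun q => (e (q, p0)).1, fun q => (e (q, p0)).2,
    N, hδ4, ?_, ?_, ?_, ?_, ?_, ?_⟩
  · intro x hx
    exact (h4 x.1 hx.1 x.2 hx.2 0 (by simpa using hδ4)).1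
  · intro q hq p hp
    have := hN q (hq43 q hq) (p - p0) (by
      rw [← dist_eq_norm]
      exact (mem_ball.1 hp).trans_le (by linarith))
    rwa [add_sub_cancel] at this
  · intro q hq u
    -- small vectors
    have hsm : ∀ v : V m, ‖v‖ < δ4 → ‖(N q).symm v‖ < δ3 := by
      intro v hv
      obtain ⟨-, -, -, a1, -⟩ := h4 q hq p0 (mem_ball_self hδ4) v hv
      obtain ⟨-, b2, b3⟩ := hPsi q (ball_subset_ball (by linarith) hq) p0 (mem_ball_self hδ1) v
        (by linarith)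
      set p' := (Psi e v (q, p0)).2 with hp'
      have hn : ‖p' - p0‖ < δ3 := by
        rw [← dist_eq_norm]; exact a1
      have e1 : Psi e v (q, p0) = (q, p0 + (p' - p0)) := by
        rw [add_sub_cancel]
        exact Prod.ext b3 rfl
      have e2 := hN q (hq43 q hq) (p' - p0) hn
      rw [← e1, b2] at e2
      have e3 := congrArg Prod.snd e2
      simp only [Prod.snd_add, add_right_inj] at e3
      rw [e3, ContinuousLinearEquiv.symm_apply_apply]
      exact hn
    rcases eq_or_ne u 0 with rfl | hu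
    · simp
    have hu' : 0 < ‖u‖ := norm_pos_iff.2 hu
    have e1 := hsm ((δ4 / (2 * ‖u‖)) • u) (by
      rw [norm_smul, Real.norm_of_nonneg (by positivity)]
      have : δ4 / (2 * ‖u‖) * ‖u‖ = δ4 / 2 := by field_simp
      rw [this]; linarith)
    rw [map_smul, norm_smul, Real.norm_of_nonneg (by positivity)] at e1
    refine le_trans ?_ (mul_le_mul_of_nonneg_right (le_max_left _ _) (norm_nonneg u))
    have e2 : ‖(N q).symm u‖ = (2 * ‖u‖ / δ4) * (δ4 / (2 * ‖u‖) * ‖(N q).symm u‖) := by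
      field_simp
    rw [e2]
    calc (2 * ‖u‖ / δ4) * (δ4 / (2 * ‖u‖) * ‖(N q).symm u‖) ≤ (2 * ‖u‖ / δ4) * δ3 := by gcongr
      _ = 2 * δ3 / δ4 * ‖u‖ := by ring
  · intro q hq
    obtain ⟨-, -, -, -, a1⟩ := h4 q hq p0 (mem_ball_self hδ4) 0 (by simpa using hδ4)
    refine le_trans ?_ (le_max_right _ _)
    have i1 := norm_fst_le (e (q, p0))
    have i2 := norm_le_norm_add_norm_sub' (e (q, p0)) (e (q0, p0))
    linarith
  · exact continuous_fst.comp_continuousOn hcont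
  · exact continuous_snd.comp_continuousOn hcont

end Pool.Agent.H36.CSymp
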