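import Pool.Agent.H36.CSymp.Fiber

set_option autoImplicit false

/-!
# Vertical shear fields obtained by conjugating symplectic shears
-/

noncomputable section

namespace Pool.Agent.H36.CSymp

open Set Metric Topology Filter
open scoped ENNReal

variable {m : ℕ} [NeZero m]

/-- exhaustion -/
lemma Pres.of_exhaustion {c : RCap m} {Ω : Set (E m)} {f : E m → E m} (hi : InjOn f Ω)
    (hex : ∀ K ⊆ Ω, IsCompact K → ∃ Ω' ⊆ Ω, K ⊆ Ω' ∧ Pres c Ω' f) : Pres c Ω f := by
  have hpt : ∀ x ∈ Ω, ∃ Ω' ⊆ Ω, x ∈ Ω' ∧ Pres c Ω' f := fun x hx => by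
    obtain ⟨Ω', h1, h2, h3⟩ := hex {x} (singleton_subset_iff.2 hx) isCompact_singleton
    exact ⟨Ω', h1, singleton_subset_iff.1 h2, h3⟩
  have hΩ : IsOpen Ω := by
    rw [isOpen_iff_mem_nhds]
    intro x hx
    obtain ⟨Ω', h1, h2, h3⟩ := hpt x hx
    exact mem_of_superset (h3.isOpen.mem_nhds h2) h1
  refine Pres.limit hΩ ?_ hi ?_ ?_
  · intro x hx
    obtain ⟨Ω', -, h2, h3⟩ := hpt x hx
    exact (h3.cont.continuousAt (h3.isOpen.mem_nhds h2)).continuousWithinAt
  · intro W hW hWo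
    rw [isOpen_iff_mem_nhds]
    rintro _ ⟨x, hx, rfl⟩
    obtain ⟨Ω', h1, h2, h3⟩ := hpt x (hW hx)
    exact mem_of_superset ((h3.opn _ inter_subset_right (hWo.inter h3.isOpen)).mem_nhds
      ⟨x, ⟨hx, h2⟩, rfl⟩) (image_mono inter_subset_left)
  · intro K hK hKc ε hε
    obtain ⟨Ω', -, h2, h3⟩ := hex K hK hKc
    exact ⟨f, Ω', h2, h3, fun x _ => by simpa using hε⟩

variable {c : RCap m} {e : OpenPartialHomeomorph (E m) (E m)} {q0 p0 : V m} {ρ C : ℝ}
  {f b : V m → V m} {N : V m → (V m ≃L[ℝ] V m)}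

/-- the inverse of a leafwise map -/
lemma Leafwise.inv (h : Leafwise c e) : Pres c e.target e.symm := by
  have := h.pres.inv (g := e.symm) fun x hx => e.left_inv hx
  rwa [e.image_source_eq_target] at this

/-- **Fields.** -/
theorem Fib.field (h : Leafwise c e) (hf : Fib e q0 p0 ρ C f b N) (B : V m →L[ℝ] V m)
    (hB : ∀ u v, dt (B u) v = dt (B v) u) (w : V m) :
    HS c.swap (ball q0 (ρ / 2)) fun q => (N q).symm (B (f q) + w) := by
  have hρ := hf.pos
  have hC : 0 ≤ C := (norm_nonneg _).trans (hf.fbd q0 (mem_ball_self hρ))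
  set γ : V m → V m := fun q => (N q).symm (B (f q) + w) with hγ
  set T : ℝ := C * (‖B‖ * C + ‖w‖) + 1 with hT
  have hT0 : 0 < T := by positivity
  have hγb : ∀ q ∈ ball q0 ρ, ‖γ q‖ < T := by
    intro q hq
    have i1 := hf.bd q hq (B (f q) + w)
    have i2 : ‖B (f q) + w‖ ≤ ‖B‖ * C + ‖w‖ := by
      refine (norm_add_le _ _).trans ?_
      have := B.le_opNorm (f q)
      have := mul_le_mul_of_nonneg_left (hf.fbd q hq) (norm_nonneg B)
      linarith
    calc ‖γ q‖ ≤ C * ‖B (f q) + w‖ := i1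
      _ ≤ C * (‖B‖ * C + ‖w‖) := by gcongr
      _ < T := by rw [hT]; linarith
  -- small times
  have hsmall : ∀ t : ℝ, 0 < t → t * T ≤ ρ / 2 →
      Pres c (ball q0 (ρ / 2) ×ˢ ball p0 (ρ / 2)) fun x => (x.1, x.2 + t • γ x.1) := by
    intro t ht htT
    have hsub : (ball q0 (ρ / 2) ×ˢ ball p0 (ρ / 2) : Set (E m)) ⊆ ball q0 ρ ×ˢ ball p0 ρ :=
      prod_mono (ball_subset_ball (by linarith)) (ball_subset_ball (by linarith))
    have hmove : ∀ x ∈ (ball q0 (ρ / 2) ×ˢ ball p0 (ρ / 2) : Set (E m)),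
        (x.1, x.2 + t • γ x.1) ∈ (ball q0 ρ ×ˢ ball p0 ρ : Set (E m)) := by
      intro x hx
      refine ⟨(hsub hx).1, ?_⟩
      have i1 := hγb x.1 (hsub hx).1
      have i2 := hx.2
      rw [mem_ball, dist_eq_norm] at i2
      rw [mem_ball, dist_eq_norm]
      have i3 : x.2 + t • γ x.1 - p0 = (x.2 - p0) + t • γ x.1 := by abel
      simp only
      rw [i3]
      refine (norm_add_le _ _).trans_lt ?_
      rw [norm_smul, Real.norm_of_nonneg ht.le]
      nlinarith
    have a1 := h.pres.subset (hsub.trans hf.src) (isOpen_ball.prod isOpen_ball)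
    have a2 := Pres.of_conf (conf_of_symp c (shP (t • B)) (om_shP (fun u v => by
      simp only [smul_apply, dt_smul_left, hB u v])))
    have a3 := (Pres.of_conf (conf_trans c ((0, t • w) : E m))).comp (a2.comp a1 (mapsTo_univ _ _))
      (mapsTo_univ _ _)
    have a4 : ∀ x ∈ (ball q0 (ρ / 2) ×ˢ ball p0 (ρ / 2) : Set (E m)),
        (Homeomorph.addRight ((0, t • w) : E m))
          ((shP (t • B)).toHomeomorph (e x)) = e (x.1, x.2 + t • γ x.1) := by
      intro x hx
      have b1 := hf.eq x.1 (hsub hx).1 x.2 (hsub hx).2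
      have b2 := hf.eq x.1 (hsub hx).1 (x.2 + t • γ x.1) (hmove x hx).2
      have b3 : e x = (f x.1, b x.1 + N x.1 (x.2 - p0)) := b1
      rw [b2, b3]
      have b4 : N x.1 (x.2 + t • γ x.1 - p0) = N x.1 (x.2 - p0) + t • (B (f x.1) + w) := by
        have : x.2 + t • γ x.1 - p0 = (x.2 - p0) + t • γ x.1 := by abel
        rw [this, map_add, map_smul]
        simp only [hγ, ContinuousLinearEquiv.apply_symm_apply]
      rw [b4]
      simp only [Homeomorph.coe_addRight, ContinuousLinearEquiv.coe_toHomeomorph, shP_apply,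
        Prod.mk_add_mk, add_zero, smul_apply, Prod.mk.injEq, true_and, smul_add]
      abel
    have a5 := h.inv.comp a3 (fun x hx => by
      rw [a4 x hx]
      exact e.map_source (hf.src (hmove x hx)))
    refine a5.congr fun x hx => ?_
    rw [a4 x hx, e.left_inv (hf.src (hmove x hx))]
  -- rescaling
  have hbig : ∀ s : ℝ, 0 < s → s * T ≤ ρ / 2 →
      Pres c (ball q0 (ρ / 2) ×ˢ ball 0 (ρ / 2 / s)) fun x => (x.1, x.2 + γ x.1) := by
    intro s hs hsT
    have a1 := Pres.conj (mul_pos one_pos hs) (conf_scale c 0 p0 one_pos hs)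
      (conf_scale c 0 p0 one_pos hs) (hsmall s hs hsT)
    have hset : (scaleH (0 : V m) p0 one_pos hs) ⁻¹' (ball q0 (ρ / 2) ×ˢ ball p0 (ρ / 2)) =
        (ball q0 (ρ / 2) ×ˢ ball 0 (ρ / 2 / s) : Set (E m)) := by
      ext x
      simp only [mem_preimage, scaleH_apply, zero_add, one_smul, mem_prod, mem_ball, dist_eq_norm,
        add_sub_cancel_left, sub_zero, norm_smul, Real.norm_of_nonneg hs.le]
      rw [lt_div_iff₀ hs, mul_comm s]
    rw [hset] at a1
    refine a1.congr fun x _ => Prod.ext ?_ ?_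
    · simp
    · simp only [scaleH_apply, scaleH_symm_apply, zero_add, one_smul]
      rw [add_assoc, add_sub_cancel_left, ← smul_add, smul_smul, inv_mul_cancel₀ hs.ne', one_smul]
  -- the whole fibre
  have hall : Pres c (ball q0 (ρ / 2) ×ˢ univ) fun x => (x.1, x.2 + γ x.1) := by
    refine Pres.of_exhaustion ?_ ?_
    · intro x _ y _ hxy
      obtain ⟨h1, h2⟩ := Prod.mk.inj hxy
      rw [h1] at h2
      exact Prod.ext h1 (add_right_cancel h2)
    · intro K hK hKc
      obtain ⟨R, hR⟩ := hKc.isBounded.subset_ball (0 : E m)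
      set s : ℝ := min (ρ / 2 / T) (ρ / 2 / (|R| + 1)) with hs
      have hs0 : 0 < s := by positivity
      refine ⟨_, prod_mono subset_rfl (subset_univ (ball (0 : V m) (ρ / 2 / s))), ?_,
        hbig s hs0 ?_⟩
      · intro x hx
        refine ⟨(hK hx).1, ?_⟩
        have i1 := hR hx
        rw [mem_ball_zero_iff] at i1 ⊢
        have i2 := norm_snd_le x
        have i3 : s ≤ ρ / 2 / (|R| + 1) := min_le_right _ _
        have i4 : |R| + 1 ≤ ρ / 2 / s := by
          rw [le_div_iff₀ hs0]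
          rw [le_div_iff₀ (by positivity)] at i3
          linarith
        have i5 := le_abs_self R
        linarith
      · have i3 : s ≤ ρ / 2 / T := min_le_left _ _
        rwa [le_div_iff₀ hT0] at i3
  have a1 := hall.swap
  have hset : Prod.swap '' (ball q0 (ρ / 2) ×ˢ (univ : Set (V m))) =
      (univ ×ˢ ball q0 (ρ / 2) : Set (E m)) := by
    rw [image_swap_prod]
  rw [hset] at a1
  exact a1

end Pool.Agent.H36.CSymp
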