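import Pool.Agent.H36.CSymp.Coord

set_option autoImplicit false

/-!
# The conformal factor is one
-/

noncomputable section

namespace Pool.Agent.H36.CSymp

open Set Metric Topology Filter
open scoped ENNReal

variable {m : ℕ}

/-- zooming into a point of differentiability -/
lemma zoom_deriv {f : V m → V m} {L : V m →L[ℝ] V m} {q0 : V m} (hf : HasFDerivAt f L q0)
    {R : ℝ} (hR : 0 < R) {ε : ℝ} (hε : 0 < ε) :
    ∀ᶠ l : ℝ in 𝓝[>] 0, ∀ x : V m, ‖x‖ ≤ R → dist (l⁻¹ • (f (q0 + l • x) - f q0)) (L x) < ε := by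
  have h1 := hf.isLittleO.def (show 0 < ε / (2 * R) by positivity)
  obtain ⟨δ, hδ, h1⟩ := Metric.eventually_nhds_iff.1 h1
  have h2 : ∀ᶠ l : ℝ in 𝓝[>] 0, l < δ / (2 * R) :=
    (eventually_lt_nhds (by positivity : (0 : ℝ) < δ / (2 * R))).filter_mono nhdsWithin_le_nhds
  filter_upwards [h2, self_mem_nhdsWithin] with l hl hl0 x hx
  have hl0' : 0 < l := hl0
  have hd : dist (q0 + l • x) q0 < δ := by
    rw [dist_eq_norm, add_sub_cancel_left, norm_smul, Real.norm_of_nonneg hl0'.le]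
    rw [lt_div_iff₀ (by positivity)] at hl
    nlinarith [norm_nonneg x]
  have h3 := h1 hd
  rw [add_sub_cancel_left, map_smul, norm_smul, Real.norm_of_nonneg hl0'.le] at h3
  rw [dist_eq_norm]
  have h4 : l⁻¹ • (f (q0 + l • x) - f q0) - L x = l⁻¹ • (f (q0 + l • x) - f q0 - l • L x) := by
    rw [smul_sub l⁻¹ (f (q0 + l • x) - f q0), smul_smul, inv_mul_cancel₀ hl0'.ne', one_smul]
  rw [h4, norm_smul, norm_inv, Real.norm_of_nonneg hl0'.le]
  calc l⁻¹ * ‖f (q0 + l • x) - f q0 - l • L x‖ ≤ l⁻¹ * (ε / (2 * R) * (l * ‖x‖)) := by gcongr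
    _ = ε / (2 * R) * ‖x‖ := by field_simp
    _ ≤ ε / (2 * R) * R := by gcongr
    _ = ε / 2 := by field_simp
    _ < ε := by linarith

variable [NeZero m]
variable {c : RCap m} {e : OpenPartialHomeomorph (E m) (E m)} {q0 p0 : V m} {ρ C : ℝ}
  {f b : V m → V m} {N : V m → (V m ≃L[ℝ] V m)}

/-- the base map is injective -/
lemma Fib.base_inj (h : Leafwise c e) (hf : Fib e q0 p0 ρ C f b N) : InjOn f (ball q0 ρ) := by
  intro q hq q' hq' hqq
  have hp : p0 ∈ ball p0 ρ := mem_ball_self hf.pos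
  have h1 := hf.eq q hq p0 hp
  have h2 := hf.eq q' hq' p0 hp
  have h3 := (h.leaf _ (hf.src (⟨hq, hp⟩ : (q, p0) ∈ ball q0 ρ ×ˢ ball p0 ρ)) _
    (hf.src (⟨hq', hp⟩ : (q', p0) ∈ ball q0 ρ ×ˢ ball p0 ρ))).2 (by rw [h1, h2]; exact hqq)
  exact h3

/-- **The factor.** -/
theorem Fib.factor (h : Leafwise c e) (hf : Fib e q0 p0 ρ C f b N) {ρ' κ : ℝ} (hρ' : 0 < ρ')
    (hρρ : ρ' ≤ ρ) (hd : ∀ q ∈ ball q0 ρ', HasFDerivAt f (κ • Lq N q) q) : κ ^ 2 = 1 := by
  have hρ := hf.pos
  have hκ : κ ≠ 0 := by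
    rintro rfl
    obtain ⟨y, hy⟩ : ∃ y : V m, y ≠ 0 := exists_ne 0
    have hy' : 0 < ‖y‖ := norm_pos_iff.2 hy
    have h2 : q0 + (ρ' / (2 * ‖y‖)) • y ∈ ball q0 ρ' := by
      rw [mem_ball, dist_eq_norm, add_sub_cancel_left, norm_smul,
        Real.norm_of_nonneg (by positivity)]
      have : ρ' / (2 * ‖y‖) * ‖y‖ = ρ' / 2 := by field_simp
      rw [this]; linarith
    have h1 : q0 ∈ ball q0 ρ' := mem_ball_self hρ'
    have h3 := (convex_ball q0 ρ').norm_image_sub_le_of_norm_hasFDerivWithin_le (f := f)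
      (f' := fun q => (0 : ℝ) • Lq N q) (C := 0) (fun q hq => (hd q hq).hasFDerivWithinAt)
      (fun q _ => by simp) h1 h2
    rw [zero_mul, norm_le_zero_iff, sub_eq_zero] at h3
    have h4 := hf.base_inj h (ball_subset_ball hρρ h2) (ball_subset_ball hρρ h1) h3
    simp only [add_eq_left, smul_eq_zero, hy, or_false, div_eq_zero_iff, mul_eq_zero,
      OfNat.ofNat_ne_zero, norm_eq_zero] at h4
    exact hρ'.ne' h4
  have hq0 : q0 ∈ ball q0 ρ := mem_ball_self hρ
  -- the linear map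
  let A : E m ≃L[ℝ] E m :=
    cot ((LqE N q0).trans (ContinuousLinearEquiv.smulLeft (Units.mk0 κ hκ))) (N q0)
  have hA : ∀ x, A x = (κ • Lq N q0 x.1, N q0 x.2) := fun x => rfl
  have hd0 := hd q0 (mem_ball_self hρ')
  have key : Pres c (univ ×ˢ ball 0 ρ) A := by
    refine Pres.limit (isOpen_univ.prod isOpen_ball) A.continuous.continuousOn
      A.injective.injOn (fun W _ hW => A.toHomeomorph.isOpenMap W hW) fun K hK hKc ε hε => ?_
    obtain ⟨R, hR0, hR⟩ : ∃ R : ℝ, 0 < R ∧ K ⊆ closedBall 0 R := by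
      obtain ⟨R, hR⟩ := hKc.isBounded.subset_closedBall 0
      exact ⟨max R 1, by positivity, hR.trans (closedBall_subset_closedBall (le_max_left _ _))⟩
    have k1 := zoom_deriv hd0 hR0 hε
    have k2 : ∀ᶠ l : ℝ in 𝓝 0, ∀ x ∈ K, (q0 + l • x.1, p0 + x.2) ∈ ball q0 ρ ×ˢ ball p0 ρ ∧
        dist (e (q0 + l • x.1, p0 + x.2)).2 (e (q0, p0 + x.2)).2 < ε := by
      refine hKc.eventually_forall_of_forall_eventually fun y hy => ?_
      have hy2 : p0 + y.2 ∈ ball p0 ρ := by
        have := (hK hy).2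
        rw [mem_ball_zero_iff] at this
        rwa [mem_ball, dist_eq_norm, add_sub_cancel_left]
      have hy' : (q0, p0 + y.2) ∈ ball q0 ρ ×ˢ ball p0 ρ := ⟨hq0, hy2⟩
      have hyn : ball q0 ρ ×ˢ ball p0 ρ ∈ 𝓝 (q0, p0 + y.2) :=
        (isOpen_ball.prod isOpen_ball).mem_nhds hy'
      have h1 : ContinuousAt (fun z : ℝ × E m => (q0 + z.1 • z.2.1, p0 + z.2.2)) ((0 : ℝ), y) := by
        fun_prop
      have h1' : (fun z : ℝ × E m => (q0 + z.1 • z.2.1, p0 + z.2.2)) ((0 : ℝ), y) =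
        (q0, p0 + y.2) := by simp
      have h2 : ContinuousAt (fun z : ℝ × E m => (q0, p0 + z.2.2)) ((0 : ℝ), y) := by fun_prop
      have hψc : ContinuousAt e (q0, p0 + y.2) := e.continuousAt (hf.src hy')
      have h3 : ContinuousAt (fun z : ℝ × E m => e (q0 + z.1 • z.2.1, p0 + z.2.2)) ((0 : ℝ), y) :=
        ContinuousAt.comp (g := e) (by simpa using hψc) h1
      have h4 : ContinuousAt (fun z : ℝ × E m => e (q0, p0 + z.2.2)) ((0 : ℝ), y) :=
        ContinuousAt.comp (g := e) hψc h2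
      have h5 : ContinuousAt (fun z : ℝ × E m =>
          dist (e (q0 + z.1 • z.2.1, p0 + z.2.2)).2 (e (q0, p0 + z.2.2)).2) ((0 : ℝ), y) :=
        (continuousAt_snd.comp h3).dist (continuousAt_snd.comp h4)
      have h6 := h1.eventually (by rw [h1']; exact hyn)
      have h7 := Filter.Tendsto.eventually_lt_const (u := ε) (by simpa using hε) h5
      exact h6.and h7
    obtain ⟨l, ⟨hl1, hl2⟩, hl0⟩ := ((k1.and (k2.filter_mono nhdsWithin_le_nhds)).and
      (self_mem_nhdsWithin (s := Ioi (0 : ℝ)))).exists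
    have hl0' : 0 < l := hl0
    have hsub : Pres c (ball q0 ρ ×ˢ ball p0 ρ) e :=
      h.pres.subset hf.src (isOpen_ball.prod isOpen_ball)
    refine ⟨_, _, ?_, Pres.conj (mul_pos hl0' one_pos) (conf_scale c q0 p0 hl0' one_pos)
      (conf_scale c (f q0) (b q0) hl0' one_pos) hsub, fun x hx => ?_⟩
    · intro x hx
      have := (hl2 x hx).1
      simpa using this
    · obtain ⟨h1, h2⟩ := hl2 x hx
      have hx1 : ‖x.1‖ ≤ R := (norm_fst_le x).trans (mem_closedBall_zero_iff.1 (hR hx))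
      have h3 : scaleH q0 p0 hl0' one_pos x = (q0 + l • x.1, p0 + x.2) := by simp
      have h4 := hf.eq _ h1.1 _ h1.2
      have h5 := hf.eq q0 hq0 _ h1.2
      rw [h3, scaleH_symm_apply, hA, Prod.dist_eq]
      refine max_lt ?_ ?_
      · have := hl1 x.1 hx1
        simp only [h4]
        exact this
      · rw [h4, h5] at h2
        simp only [h4, inv_one, one_smul]
        rw [add_sub_cancel_left, dist_eq_norm] at h2
        rw [dist_eq_norm]
        have e1 : b (q0 + l • x.1) + N (q0 + l • x.1) (p0 + x.2 - p0) - b q0 - N q0 x.2 =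
            b (q0 + l • x.1) + N (q0 + l • x.1) x.2 - (b q0 + N q0 x.2) := by
          rw [add_sub_cancel_left]
          abel
        rw [e1]
        exact h2
  -- compose with the inverse of the symplectic map
  let S : E m ≃L[ℝ] E m := cot (LqE N q0) (N q0)
  have hS : ∀ u v, Om (S u) (S v) = Om u v := om_cot fun u v => dt_Lq_N N q0 u v
  have hS' : ∀ u v, Om (S.symm u) (S.symm v) = Om u v := fun u v => by
    rw [← hS, ContinuousLinearEquiv.apply_symm_apply, ContinuousLinearEquiv.apply_symm_apply]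
  have k3 := (Pres.of_conf (conf_of_symp c S.symm hS')).comp key (mapsTo_univ _ _)
  refine Pres.sq_q hρ (k3.congr fun x _ => ?_)
  have e1 : A x = S (κ • x.1, x.2) := by
    rw [hA]
    refine Prod.ext ?_ rfl
    show κ • Lq N q0 x.1 = Lq N q0 (κ • x.1)
    rw [map_smul]
  rw [e1]
  exact (S.symm_apply_apply _).symm

end Pool.Agent.H36.CSymp
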