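import Pool.Agent.H36.CSymp.LemQ

set_option autoImplicit false

/-!
# Capacity preserving maps `(q, p) ↦ (q, h p)` and conformal factors
-/

noncomputable section

namespace Pool.Agent.H36.CSymp

open Set Metric Topology Filter
open scoped ENNReal

variable {m : ℕ} [NeZero m]

lemma val_ball (c : RCap m) (x : E m) {s : ℝ} (hs : 0 < s) :
    c.val (ball x s) = ENNReal.ofReal (s ^ 2) * c.val (ball 0 1) := by
  have h1 : ball x s = (fun y => y + x) '' ((fun y => s • y) '' ball 0 1) := by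
    ext y
    constructor
    · intro hy
      refine ⟨y - x, ⟨s⁻¹ • (y - x), ?_, ?_⟩, by simp⟩
      · rw [mem_ball_zero_iff, norm_smul, norm_inv, Real.norm_of_nonneg hs.le, ← dist_eq_norm,
          inv_mul_lt_iff₀ hs, mul_one]
        exact hy
      · simp only [smul_smul, mul_inv_cancel₀ hs.ne', one_smul]
    · rintro ⟨_, ⟨z, hz, rfl⟩, rfl⟩
      rw [mem_ball_zero_iff] at hz
      simp only
      rw [mem_ball, dist_eq_norm, add_sub_cancel_right, norm_smul, Real.norm_of_nonneg hs.le]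
      nlinarith
  have h2 : IsOpen ((fun y : E m => s • y) '' ball 0 1) :=
    (Homeomorph.smulOfNeZero s hs.ne').isOpenMap _ isOpen_ball
  rw [h1, c.trans x h2, c.conf s hs isOpen_ball]

lemma val_unit_lt (c : RCap m) : c.val (ball 0 1) < ⊤ := by
  refine (c.mono isOpen_ball ?_ ?_).trans_lt c.cyl_lt
  · exact isOpen_two (by fun_prop) (by fun_prop)
  · intro x hx
    rw [mem_ball_zero_iff, Prod.norm_def, max_lt_iff] at hx
    exact ⟨(norm_le_pi_norm x.1 0).trans_lt hx.1, (norm_le_pi_norm x.2 0).trans_lt hx.2⟩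

/-- a capacity preserving conformal map has factor one -/
lemma Pres.factor_one {c : RCap m} {Ω : Set (E m)} {a b : V m} {l n : ℝ} (hl : 0 < l) (hn : 0 < n)
    (h : Pres c Ω (scaleH a b hl hn)) (hne : Ω.Nonempty) : l * n = 1 := by
  obtain ⟨x, hx⟩ := hne
  obtain ⟨s, hs, hsΩ⟩ := Metric.isOpen_iff.1 h.isOpen x hx
  have h1 := h.val _ hsΩ isOpen_ball
  rw [conf_scale c a b hl hn _ isOpen_ball, val_ball c x hs] at h1
  have h2 : ENNReal.ofReal (s ^ 2) * c.val (ball 0 1) ≠ 0 :=
    mul_ne_zero (by simpa using hs.ne') c.ball_pos.ne'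
  have h3 : ENNReal.ofReal (s ^ 2) * c.val (ball 0 1) ≠ ⊤ :=
    ENNReal.mul_ne_top ENNReal.ofReal_ne_top (val_unit_lt c).ne
  have h4 : ENNReal.ofReal (l * n) * (ENNReal.ofReal (s ^ 2) * c.val (ball 0 1)) =
      1 * (ENNReal.ofReal (s ^ 2) * c.val (ball 0 1)) := by rw [h1, one_mul]
  have h5 := (ENNReal.mul_left_inj h2 h3).1 h4
  rwa [ENNReal.ofReal_eq_one] at h5

/-- the `p`-version -/
lemma Pres.sq_p {c : RCap m} {p0 b : V m} {r κ : ℝ} (hr : 0 < r)
    (h : Pres c (univ ×ˢ ball p0 r) fun x => (x.1, κ • x.2 + b)) : κ ^ 2 = 1 := by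
  have hκ : κ ≠ 0 := by
    rintro rfl
    obtain ⟨y, hy⟩ : ∃ y : V m, y ≠ 0 := exists_ne 0
    have h1 : ((0 : V m), p0) ∈ (univ ×ˢ ball p0 r : Set (E m)) := ⟨trivial, mem_ball_self hr⟩
    have h2 : ((0 : V m), p0 + (r / (2 * ‖y‖)) • y) ∈ (univ ×ˢ ball p0 r : Set (E m)) := by
      refine ⟨trivial, ?_⟩
      have hy' : 0 < ‖y‖ := norm_pos_iff.2 hy
      rw [mem_ball, dist_eq_norm, add_sub_cancel_left, norm_smul,
        Real.norm_of_nonneg (by positivity)]
      have : r / (2 * ‖y‖) * ‖y‖ = r / 2 := by field_simp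
      rw [this]; linarith
    have h3 := h.inj h1 h2 (by simp)
    have h4 := congrArg Prod.snd h3
    simp only [left_eq_add, smul_eq_zero, hy, or_false, div_eq_zero_iff, mul_eq_zero,
      OfNat.ofNat_ne_zero, norm_eq_zero] at h4
    exact hr.ne' h4
  have hκ2 : 0 < κ ^ 2 := by positivity
  -- compose with a translation
  have h1 : Pres c (univ ×ˢ ball p0 r) fun x => (x.1, κ • (x.2 - p0) + p0) := by
    have := Pres.comp (Pres.of_conf (conf_trans c ((0, p0 - κ • p0 - b) : E m))) h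
      (mapsTo_univ _ _)
    refine this.congr fun x _ => Prod.ext ?_ ?_
    · simp
    · simp only [Homeomorph.coe_addRight, Prod.snd_add]
      rw [smul_sub]
      abel
  have h2 : Pres c (univ ×ˢ ball p0 (r / (|κ| + 1))) fun x => (x.1, κ • (x.2 - p0) + p0) := by
    refine h1.subset (prod_mono subset_rfl (ball_subset_ball ?_)) (isOpen_univ.prod isOpen_ball)
    exact div_le_self hr.le (by linarith [abs_nonneg κ])
  have h3 := h1.comp h2 (by
    rintro x ⟨-, hx⟩
    refine ⟨trivial, ?_⟩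
    rw [mem_ball, dist_eq_norm] at hx
    show κ • (x.2 - p0) + p0 ∈ ball p0 r
    rw [mem_ball, dist_eq_norm, add_sub_cancel_right, norm_smul, Real.norm_eq_abs]
    rw [lt_div_iff₀ (by positivity)] at hx
    nlinarith [norm_nonneg (x.2 - p0), abs_nonneg κ])
  have h4 : Pres c (univ ×ˢ ball p0 (r / (|κ| + 1)))
      (scaleH (0 : V m) (p0 - κ ^ 2 • p0) one_pos hκ2) := by
    refine h3.congr fun x _ => Prod.ext ?_ ?_
    · simp
    · simp only [scaleH_apply, add_sub_cancel_right]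
      rw [smul_smul, ← sq, smul_sub]
      abel
  have h5 := h4.factor_one one_pos hκ2 ⟨(0, p0), trivial, mem_ball_self (by positivity)⟩
  linarith

/-- the `q`-version -/
lemma Pres.sq_q {c : RCap m} {p0 : V m} {r κ : ℝ} (hr : 0 < r)
    (h : Pres c (univ ×ˢ ball p0 r) fun x => (κ • x.1, x.2)) : κ ^ 2 = 1 := by
  have hκ : κ ≠ 0 := by
    rintro rfl
    obtain ⟨y, hy⟩ : ∃ y : V m, y ≠ 0 := exists_ne 0
    have h1 : ((0 : V m), p0) ∈ (univ ×ˢ ball p0 r : Set (E m)) := ⟨trivial, mem_ball_self hr⟩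
    have h2 : (y, p0) ∈ (univ ×ˢ ball p0 r : Set (E m)) := ⟨trivial, mem_ball_self hr⟩
    have h3 := h.inj h1 h2 (by simp)
    exact hy (congrArg Prod.fst h3).symm
  have hκ2 : 0 < κ ^ 2 := by positivity
  have h3 := h.comp h (fun x hx => ⟨trivial, hx.2⟩)
  have h4 : Pres c (univ ×ˢ ball p0 r) (scaleH (0 : V m) 0 hκ2 one_pos) := by
    refine h3.congr fun x _ => Prod.ext ?_ ?_
    · simp only [scaleH_apply, zero_add]
      rw [smul_smul, ← sq]
    · simp
  have h5 := h4.factor_one hκ2 one_pos ⟨(0, p0), trivial, mem_ball_self hr⟩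
  linarith

omit [NeZero m] in
lemma symB_self (i : Fin m) (u : V m) :
    symB i i (1 / 2) u = u i • (Pi.single i (1 : ℝ) : V m) := by
  funext k
  rw [symB_apply]
  simp only [Pi.smul_apply, Pi.add_apply, smul_eq_mul]
  ring

/-- **Capacity preserving maps `(q, p) ↦ (q, h p)` are affine.** -/
theorem Pres.affine (hm : 2 ≤ m) {c : RCap m} {p0 : V m} {r r' : ℝ} {h : V m → V m}
    (H : Pres c (univ ×ˢ ball p0 r) fun x => (x.1, h x.2)) (hr : r' < r) :
    ∃ (κ : ℝ) (b : V m), ∀ p ∈ ball p0 r', h p = κ • p + b := by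
  have hinj : InjOn h (ball p0 r) := fun x hx y hy hxy => by
    have := H.inj (x₁ := (0, x)) (x₂ := (0, y)) ⟨trivial, hx⟩ ⟨trivial, hy⟩ (by simp [hxy])
    exact congrArg Prod.snd this
  set k := Function.invFunOn h (ball p0 r) with hk
  have hkh : ∀ p ∈ ball p0 r, k (h p) = p := fun p hp =>
    Function.invFunOn_apply_eq (f := h) hp |> fun h1 =>
      hinj (Function.invFunOn_apply_mem (f := h) hp) hp h1
  have Hinv := H.inv (g := fun x => (x.1, k x.2)) (fun x hx => by
    simp only [hkh x.2 hx.2])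
  have key : ∀ B : V m →L[ℝ] V m, (∀ u v, dt (B u) v = dt (B v) u) →
      HS c (ball p0 r) fun p => B (h p) := by
    intro B hB
    have h1 := Pres.of_conf (conf_of_symp c (shQ B) (om_shQ hB))
    have h2 := h1.comp H (mapsTo_univ _ _)
    have h3 := Hinv.comp h2 (by
      rintro x ⟨-, hx⟩
      refine ⟨(x.1 + B (h x.2), x.2), ⟨trivial, hx⟩, ?_⟩
      rfl)
    refine h3.congr fun x hx => Prod.ext ?_ ?_
    · rfl
    · exact (hkh x.2 hx.2).symm
  refine lemQ hm (fun i => ?_) (fun i j hij => ?_)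
  · obtain ⟨F, hF⟩ := (key (symB i i (1 / 2)) (symB_symm i i _)).potential hr
    refine ⟨F, fun p hp => ?_⟩
    have := hF p hp
    rwa [symB_self] at this
  · obtain ⟨F, hF⟩ := (key (symB i j 1) (symB_symm i j _)).potential hr
    refine ⟨F, fun p hp => ?_⟩
    have := hF p hp
    rwa [symB_apply, one_smul] at this

end Pool.Agent.H36.CSymp
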