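import Pool.Agent.H36.CSymp.Pot

set_option autoImplicit false

/-!
# A rigidity lemma for fields with potentials
-/

noncomputable section

namespace Pool.Agent.H36.CSymp

open Set Metric Topology Filter

variable {m : ℕ}

/-- integration along a segment on which the directional derivative is constant -/
lemma line {F : V m → ℝ} {w : V m → V m} {p0 : V m} {r : ℝ}
    (hF : ∀ p ∈ ball p0 r, HasFDerivAt F (dtL (w p)) p) {q v : V m} (hq : q ∈ ball p0 r)
    (hv : q + v ∈ ball p0 r) {C : ℝ}
    (hC : ∀ s ∈ Icc (0 : ℝ) 1, dt (w (q + s • v)) v = C) : F (q + v) - F q = C := by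
  have hseg : ∀ s ∈ Icc (0 : ℝ) 1, q + s • v ∈ ball p0 r := fun s hs =>
    (convex_ball p0 r).add_smul_mem hq hv hs
  have hd : ∀ s ∈ Icc (0 : ℝ) 1, HasDerivAt (fun s : ℝ => F (q + s • v) - s * C) 0 s := by
    intro s hs
    have h1 : HasDerivAt (fun s : ℝ => q + s • v) v s := by
      have := ((hasDerivAt_id s).smul_const v).const_add q
      simpa using this
    have h2 := (hF _ (hseg s hs)).comp_hasDerivAt s h1
    have h3 := h2.sub ((hasDerivAt_id s).mul_const C)
    simp only [dtL_apply, hC s hs, one_mul, sub_self] at h3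
    exact h3
  have hcont : ContinuousOn (fun s : ℝ => F (q + s • v) - s * C) (Icc 0 1) := fun s hs =>
    (hd s hs).continuousAt.continuousWithinAt
  have := constant_of_has_deriv_right_zero hcont
    (fun s hs => (hd s (Ico_subset_Icc_self hs)).hasDerivWithinAt) 1 (right_mem_Icc.2 zero_le_one)
  simp only [one_smul, one_mul, zero_smul, add_zero, zero_mul, sub_zero] at this
  linarith

/-- a component whose multiple of the coordinate form has a potential depends on one coordinate -/
lemma component {p0 : V m} {r : ℝ} {h : V m → V m} {i : Fin m} {F : V m → ℝ}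
    (hF : ∀ p ∈ ball p0 r, HasFDerivAt F (dtL (h p i • Pi.single i (1 : ℝ))) p) {q v : V m}
    (hq : q ∈ ball p0 r) (hv : q + v ∈ ball p0 r) (hvi : v i = 0) : h (q + v) i = h q i := by
  have h1 : ∀ x ∈ ball p0 r, x + v ∈ ball p0 r → F (x + v) - F x = 0 := fun x hx hxv =>
    line hF hx hxv fun s _ => by
      rw [dt_smul_left, dt_single_left, hvi]
      ring
  have h2 : HasFDerivAt (fun x => F (x + v) - F x)
      (dtL (h (q + v) i • Pi.single i (1 : ℝ)) - dtL (h q i • Pi.single i (1 : ℝ))) q :=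
    ((hasFDerivAt_comp_add_right v).2 (hF _ hv)).sub (hF _ hq)
  have h3 : (fun x => F (x + v) - F x) =ᶠ[𝓝 q] fun _ => 0 := by
    have h4 : ∀ᶠ x in 𝓝 q, x ∈ ball p0 r := isOpen_ball.mem_nhds hq
    have h5 : ∀ᶠ x in 𝓝 q, x + v ∈ ball p0 r :=
      (continuous_id.add continuous_const).continuousAt.eventually (isOpen_ball.mem_nhds hv)
    filter_upwards [h4, h5] with x hx hxv using h1 x hx hxv
  have h6 := h2.unique ((hasFDerivAt_const (0 : ℝ) q).congr_of_eventuallyEq h3)
  have h7 := congrArg (fun L : V m →L[ℝ] ℝ => L (Pi.single i 1)) h6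
  simp only [sub_apply, dtL_apply, dt_smul_left, dt_single_left,
    Pi.single_eq_same, zero_apply, mul_one] at h7
  linarith

/-- **Rigidity.** -/
theorem lemQ (hm : 2 ≤ m) {p0 : V m} {r : ℝ} {h : V m → V m}
    (hF : ∀ i, ∃ F : V m → ℝ, ∀ p ∈ ball p0 r,
      HasFDerivAt F (dtL (h p i • Pi.single i (1 : ℝ))) p)
    (hG : ∀ i j, i ≠ j → ∃ G : V m → ℝ, ∀ p ∈ ball p0 r,
      HasFDerivAt G (dtL (h p i • Pi.single j (1 : ℝ) + h p j • Pi.single i (1 : ℝ))) p) :
    ∃ (κ : ℝ) (b : V m), ∀ p ∈ ball p0 r, h p = κ • p + b := by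
  classical
  rcases le_or_gt r 0 with hr | hr
  · exact ⟨0, 0, fun p hp => by rw [ball_eq_empty.2 hr] at hp; exact hp.elim⟩
  have hcomp : ∀ i, ∀ q ∈ ball p0 r, ∀ v, q + v ∈ ball p0 r → v i = 0 → h (q + v) i = h q i :=
    fun i q hq v hv hvi => by
      obtain ⟨F, hF⟩ := hF i
      exact component hF hq hv hvi
  have hp0 : p0 ∈ ball p0 r := mem_ball_self hr
  -- the points used
  have hmem : ∀ (i : Fin m) (a : ℝ), |a| < r → p0 + (Pi.single i a : V m) ∈ ball p0 r := by
    intro i a ha
    rw [mem_ball, dist_eq_norm, add_sub_cancel_left, pi_norm_lt_iff hr]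
    intro k
    by_cases hk : k = i
    · subst hk; simpa using ha
    · simpa [Pi.single_eq_of_ne hk] using hr
  have hmem2 : ∀ (i j : Fin m) (a b : ℝ), i ≠ j → |a| < r → |b| < r →
      p0 + (Pi.single i a : V m) + (Pi.single j b : V m) ∈ ball p0 r := by
    intro i j a b hij ha hb
    rw [mem_ball, dist_eq_norm, add_assoc, add_sub_cancel_left, pi_norm_lt_iff hr]
    intro k
    by_cases hk : k = i
    · subst hk; simpa [Pi.single_eq_of_ne hij] using ha
    · by_cases hk' : k = j
      · subst hk'; simpa [Pi.single_eq_of_ne hk] using hb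
      · simpa [Pi.single_eq_of_ne hk, Pi.single_eq_of_ne hk'] using hr
  -- the cross relation
  have hcross : ∀ i j, i ≠ j → ∀ a b : ℝ, |a| < r → |b| < r →
      b * (h (p0 + (Pi.single i a : V m)) i - h p0 i) =
        a * (h (p0 + (Pi.single j b : V m)) j - h p0 j) := by
    intro i j hij a b ha hb
    obtain ⟨G, hG⟩ := hG i j hij
    have e1 : ∀ q ∈ ball p0 r, q + (Pi.single j b : V m) ∈ ball p0 r →
        G (q + (Pi.single j b : V m)) - G q = b * h q i := by
      intro q hq hqb
      refine line hG hq hqb fun s hs => ?_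
      have : h (q + s • (Pi.single j b : V m)) i = h q i :=
        hcomp i q hq _ ((convex_ball p0 r).add_smul_mem hq hqb hs)
          (by simp [Pi.single_eq_of_ne hij])
      rw [dt_add_left, dt_smul_left, dt_smul_left, dt_single_left, dt_single_left, this]
      simp only [Pi.single_eq_same, Pi.single_eq_of_ne hij]
      ring
    have e2 : ∀ q ∈ ball p0 r, q + (Pi.single i a : V m) ∈ ball p0 r →
        G (q + (Pi.single i a : V m)) - G q = a * h q j := by
      intro q hq hqb
      refine line hG hq hqb fun s hs => ?_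
      have : h (q + s • (Pi.single i a : V m)) j = h q j :=
        hcomp j q hq _ ((convex_ball p0 r).add_smul_mem hq hqb hs)
          (by simp [Pi.single_eq_of_ne hij.symm])
      rw [dt_add_left, dt_smul_left, dt_smul_left, dt_single_left, dt_single_left, this]
      simp only [Pi.single_eq_same, Pi.single_eq_of_ne hij.symm]
      ring
    have f1 := e1 _ (hmem i a ha) (hmem2 i j a b hij ha hb)
    have f2 := e1 p0 hp0 (hmem j b hb)
    have hmem3 := hmem2 i j a b hij ha hb
    have hcomm : p0 + (Pi.single i a : V m) + (Pi.single j b : V m) =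
      p0 + (Pi.single j b : V m) + (Pi.single i a : V m) := add_right_comm _ _ _
    rw [hcomm] at hmem3
    have f3 := e2 _ (hmem j b hb) hmem3
    have f4 := e2 p0 hp0 (hmem i a ha)
    rw [hcomm] at f1
    linarith
  -- the slope
  have hr2 : |r / 2| < r := by rw [abs_of_pos (half_pos hr)]; linarith
  obtain ⟨i0, i1, h01⟩ : ∃ i0 i1 : Fin m, i0 ≠ i1 :=
    ⟨⟨0, by omega⟩, ⟨1, by omega⟩, by simp⟩
  set κ : ℝ := (h (p0 + (Pi.single i0 (r / 2) : V m)) i0 - h p0 i0) / (r / 2) with hκ
  have hslope0 : h (p0 + (Pi.single i0 (r / 2) : V m)) i0 - h p0 i0 = κ * (r / 2) := by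
    rw [hκ]; field_simp
  have hslope1 : ∀ i, i ≠ i0 → ∀ a : ℝ, |a| < r →
      h (p0 + (Pi.single i a : V m)) i - h p0 i = κ * a := by
    intro i hi a ha
    have := hcross i i0 hi a (r / 2) ha hr2
    rw [hslope0] at this
    have hr3 : r / 2 ≠ 0 := by positivity
    apply mul_left_cancel₀ hr3
    linarith
  have hslope : ∀ i, ∀ a : ℝ, |a| < r → h (p0 + (Pi.single i a : V m)) i - h p0 i = κ * a := by
    intro i a ha
    by_cases hi : i = i0
    · subst hi
      have := hcross i i1 h01 a (r / 2) ha hr2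
      rw [hslope1 i1 h01.symm (r / 2) hr2] at this
      have hr3 : r / 2 ≠ 0 := by positivity
      apply mul_left_cancel₀ hr3
      linarith
    · exact hslope1 i hi a ha
  refine ⟨κ, h p0 - κ • p0, fun p hp => ?_⟩
  funext i
  have hpi : |p i - p0 i| < r := by
    rw [mem_ball, dist_eq_norm, pi_norm_lt_iff hr] at hp
    exact hp i
  have h1 := hcomp i (p0 + (Pi.single i (p i - p0 i) : V m)) (hmem i _ hpi)
    (p - (p0 + (Pi.single i (p i - p0 i) : V m))) (by simpa using hp) (by simp)
  rw [add_sub_cancel] at h1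
  have h2 := hslope i _ hpi
  simp only [Pi.add_apply, Pi.smul_apply, Pi.sub_apply, smul_eq_mul]
  rw [h1]
  linarith

end Pool.Agent.H36.CSymp
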