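import Pool.Agent.H36.CSymp.Shear

set_option autoImplicit false

/-!
# Mollification of shear fields
-/

noncomputable section

namespace Pool.Agent.H36.CSymp

open Set Metric Topology Filter MeasureTheory
open scoped ENNReal Convolution ContDiff

variable {m : ℕ} [NeZero m]

/-- an averaging argument: the convolution with a bump function is, on a compact set, close to a
convex combination of translates -/
lemma exists_combination {C : Set (V m → V m)} (hC : Convex ℝ C) (φ : ContDiffBump (0 : V m))
    {g : V m → V m} (hg : UniformContinuous g) (hgb : ∃ M, ∀ x, ‖g x‖ ≤ M)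
    (hmem : ∀ v ∈ ball (0 : V m) φ.rOut, (fun p => g (p - v)) ∈ C)
    {K : Set (V m)} (hK : IsCompact K) {ε : ℝ} (hε : 0 < ε) :
    ∃ γ ∈ C, ∀ p ∈ K, dist (γ p) (∫ v, φ.normed volume v • g (p - v)) < ε := by
  obtain ⟨η, hη, hηg⟩ := Metric.uniformContinuous_iff.1 hg (ε / 4) (by positivity)
  obtain ⟨M, hM⟩ := hgb
  obtain ⟨t, htK, htf, htc⟩ := hK.finite_cover_balls hη
  have : Fintype t := htf.fintype
  -- the convex set of functions
  set G : Set (V m → V m) := C ∩ {γ | ∀ p p', dist p p' < η → dist (γ p) (γ p') ≤ ε / 4} with hG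
  have hGc : Convex ℝ G := by
    refine hC.inter ?_
    intro γ hγ γ' hγ' a b ha hb hab p p' hpp
    have h1 := hγ p p' hpp
    have h2 := hγ' p p' hpp
    rw [dist_eq_norm] at h1 h2 ⊢
    have h3 : (a • γ + b • γ') p - (a • γ + b • γ') p' = a • (γ p - γ p') + b • (γ' p - γ' p') := by
      simp only [Pi.add_apply, Pi.smul_apply, smul_sub]
      abel
    rw [h3]
    calc ‖a • (γ p - γ p') + b • (γ' p - γ' p')‖ ≤ a * ‖γ p - γ p'‖ + b * ‖γ' p - γ' p'‖ := by
          refine (norm_add_le _ _).trans_eq ?_
          rw [norm_smul, norm_smul, Real.norm_of_nonneg ha, Real.norm_of_nonneg hb]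
      _ ≤ a * (ε / 4) + b * (ε / 4) := by gcongr
      _ = ε / 4 := by rw [← add_mul, hab, one_mul]
  let L : (V m → V m) →ₗ[ℝ] (t → V m) := LinearMap.funLeft ℝ (V m) (fun i : t => (i : V m))
  have hLa : ∀ γ i, L γ i = γ i := fun γ i => rfl
  have hSc : Convex ℝ (closure (L '' G)) := (hGc.linear_image L).closure
  -- the probability measure
  let w : V m → NNReal := fun v => (φ.normed volume v).toNNReal
  have hwm : Measurable w := (φ.continuous_normed.measurable).real_toNNReal
  let μ : Measure (V m) := volume.withDensity fun v => (w v : ℝ≥0∞)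
  have hw : ∀ v, (w v : ℝ) = φ.normed volume v := fun v =>
    Real.coe_toNNReal _ (φ.nonneg_normed v)
  have : IsProbabilityMeasure μ := by
    constructor
    have h1 : μ univ = ∫⁻ v, ENNReal.ofReal (φ.normed volume v) := by
      simp only [μ]
      rw [withDensity_apply _ MeasurableSet.univ, Measure.restrict_univ]
      rfl
    rw [h1, ← ofReal_integral_eq_lintegral_ofReal φ.integrable_normed
      (Eventually.of_forall φ.nonneg_normed), φ.integral_normed, ENNReal.ofReal_one]
  let f : V m → (t → V m) := fun v i => g (i - v)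
  have hfc : Continuous f := continuous_pi fun i => hg.continuous.comp (by fun_prop)
  have hfi : Integrable f μ := by
    refine Integrable.of_bound hfc.aestronglyMeasurable M (Eventually.of_forall fun v => ?_)
    exact (pi_norm_le_iff_of_nonneg ((norm_nonneg _).trans (hM 0))).2 fun i => hM _
  have hfS : ∀ᵐ v ∂μ, f v ∈ closure (L '' G) := by
    rw [ae_withDensity_iff hwm.coe_nnreal_ennreal]
    refine Eventually.of_forall fun v hv => subset_closure ?_
    have hv' : v ∈ ball (0 : V m) φ.rOut := by
      rw [← φ.support_normed_eq (μ := volume), Function.mem_support, ← hw v]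
      intro h
      exact hv (by simpa using h)
    refine ⟨fun p => g (p - v), ⟨hmem v hv', fun p p' hpp => ?_⟩, rfl⟩
    exact (hηg (by simpa using hpp)).le
  have hint := hSc.integral_mem isClosed_closure hfS hfi
  have hval : ∀ i, (∫ v, f v ∂μ) i = ∫ v, φ.normed volume v • g (i - v) := fun i => by
    simp only [μ]
    rw [integral_withDensity_eq_integral_smul hwm]
    have h1 : Integrable (fun v => w v • f v) volume := by
      refine (integrable_withDensity_iff_integrable_smul hwm).1 hfi
    have h2 : ∀ v, (w v • f v) i = φ.normed volume v • g (i - v) := fun v => by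
      rw [← hw v]
      rfl
    have h3 := (ContinuousLinearMap.proj (R := ℝ) (φ := fun _ : t => V m) i).integral_comp_comm h1
    simp only [ContinuousLinearMap.proj_apply] at h3
    rw [← h3]
    exact integral_congr_ae (Eventually.of_forall h2)
  obtain ⟨_, ⟨γ, hγ, rfl⟩, hγd⟩ := Metric.mem_closure_iff.1 hint (ε / 4) (by positivity)
  refine ⟨γ, hγ.1, fun p hp => ?_⟩
  obtain ⟨i, hi, hpi⟩ := mem_iUnion₂.1 (htc hp)
  have h1 : dist (γ p) (γ i) ≤ ε / 4 := hγ.2 p i hpi
  have h2 : dist (γ i) (∫ v, φ.normed volume v • g (i - v)) < ε / 4 := by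
    have := (dist_pi_lt_iff (by positivity)).1 hγd ⟨i, hi⟩
    rw [hval, hLa, dist_comm] at this
    exact this
  have h3 : dist (∫ v, φ.normed volume v • g (i - v)) (∫ v, φ.normed volume v • g (p - v)) ≤
      ε / 4 := by
    have hI : ∀ q : V m, Integrable (fun v => φ.normed volume v • g (q - v)) volume := fun q => by
      refine φ.integrable_normed.smul_bdd (C := M) ?_ ?_
      · exact (hg.continuous.comp (by fun_prop)).aestronglyMeasurable
      · exact Eventually.of_forall fun v => hM _
    rw [dist_eq_norm, ← integral_sub (hI i) (hI p)]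
    calc ‖∫ v, (φ.normed volume v • g (i - v) - φ.normed volume v • g (p - v))‖
        ≤ ∫ v, φ.normed volume v * (ε / 4) := by
          refine norm_integral_le_of_norm_le (φ.integrable_normed.mul_const _)
            (Eventually.of_forall fun v => ?_)
          rw [← smul_sub, norm_smul, Real.norm_of_nonneg (φ.nonneg_normed v)]
          refine mul_le_mul_of_nonneg_left ?_ (φ.nonneg_normed v)
          rw [← dist_eq_norm]
          refine (hηg ?_).le
          rw [dist_sub_right, dist_comm]
          exact hpi
      _ = ε / 4 := by rw [integral_mul_const, φ.integral_normed, one_mul]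
  calc dist (γ p) (∫ v, φ.normed volume v • g (p - v))
      ≤ dist (γ p) (γ i) + dist (γ i) (∫ v, φ.normed volume v • g (i - v)) +
        dist (∫ v, φ.normed volume v • g (i - v)) (∫ v, φ.normed volume v • g (p - v)) :=
        dist_triangle4 _ _ _ _
    _ < ε := by linarith

/-- mollification of a shear field -/
theorem HS.mollify {c : RCap m} {p0 : V m} {r r1 : ℝ} {β : V m → V m} (h : HS c (ball p0 r) β)
    (hr1 : 0 < r1) (hr : r1 < r) {ε : ℝ} (hε : 0 < ε) :
    ∃ γ : V m → V m, ContDiff ℝ ∞ γ ∧ HS c (ball p0 r1) γ ∧ ∀ p ∈ ball p0 r1,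
      dist (γ p) (β p) ≤ ε := by
  -- a continuous extension
  let χ : ContDiffBump p0 := ⟨(r1 + (r - r1) / 3), (r1 + 2 * (r - r1) / 3), by linarith, by linarith⟩
  set g : V m → V m := fun p => χ p • β p with hgdef
  have hgβ : ∀ p ∈ closedBall p0 (r1 + (r - r1) / 3), g p = β p := fun p hp => by
    simp only [hgdef]
    rw [χ.one_of_mem_closedBall hp, one_smul]
  have hgs : Function.support g ⊆ closedBall p0 (r1 + 2 * (r - r1) / 3) := by
    intro p hp
    have h1 : p ∈ Function.support χ := by
      intro h0
      exact hp (by simp only [hgdef]; rw [h0, zero_smul])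
    rw [χ.support_eq] at h1
    exact ball_subset_closedBall h1
  have hgt : tsupport g ⊆ closedBall p0 (r1 + 2 * (r - r1) / 3) :=
    closure_minimal hgs isClosed_closedBall
  have hgt' : tsupport g ⊆ ball p0 r := hgt.trans (closedBall_subset_ball (by linarith))
  have hgc : Continuous g := by
    refine continuous_of_tsupport fun x hx => ?_
    exact (χ.continuous.continuousAt).smul
      (h.continuousOn.continuousAt (isOpen_ball.mem_nhds (hgt' hx)))
  have hgcs : HasCompactSupport g := HasCompactSupport.of_support_subset_isCompact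
    (isCompact_closedBall _ _) hgs
  have hgu : UniformContinuous g := hgcs.uniformContinuous_of_continuous hgc
  obtain ⟨M, hM⟩ := hgcs.exists_bound_of_continuous hgc
  obtain ⟨η, hη, hηg⟩ := Metric.uniformContinuous_iff.1 hgu ε hε
  -- the bump function
  set δ := min η ((r - r1) / 3) with hδ
  have hδ0 : 0 < δ := lt_min hη (by linarith)
  let φ : ContDiffBump (0 : V m) := ⟨δ / 2, δ, half_pos hδ0, half_lt_self hδ0⟩
  have hφ : φ.rOut = δ := rfl
  set γ : V m → V m := φ.normed volume ⋆[ContinuousLinearMap.lsmul ℝ ℝ, volume] g with hγdef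
  have hγ : ∀ p, γ p = ∫ v, φ.normed volume v • g (p - v) := fun p => rfl
  have hγs : ContDiff ℝ ∞ γ :=
    φ.hasCompactSupport_normed.contDiff_convolution_left _ φ.contDiff_normed
      (hgc.locallyIntegrable)
  refine ⟨γ, hγs, ?_, fun p hp => ?_⟩
  · refine HS.limit isOpen_ball hγs.continuous.continuousOn fun K hK hKc e he => ?_
    have hC : Convex ℝ {γ : V m → V m | HS c (ball p0 r1) γ} := by
      intro γ hγ γ' hγ' a b _ _ _
      exact (HS.smul hγ a).add (HS.smul hγ' b)
    have hmem : ∀ v ∈ ball (0 : V m) φ.rOut, (fun p => g (p - v)) ∈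
        {γ : V m → V m | HS c (ball p0 r1) γ} := by
      intro v hv
      have h1 := h.translate (-v)
      have h2 : ball p0 r1 ⊆ (fun p => -v + p) ⁻¹' ball p0 r := by
        intro p hp
        rw [mem_ball_zero_iff, hφ] at hv
        rw [mem_ball, dist_eq_norm] at hp
        rw [mem_preimage, mem_ball, dist_eq_norm]
        have h3 : -v + p - p0 = (p - p0) - v := by abel
        have h4 := norm_sub_le (p - p0) v
        have h5 := min_le_right η ((r - r1) / 3)
        rw [h3]
        rw [← hδ] at h5
        linarith
      refine (h1.subset h2 isOpen_ball).congr fun p hp => ?_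
      have h3 : p - v ∈ closedBall p0 (r1 + (r - r1) / 3) := by
        rw [mem_ball_zero_iff, hφ] at hv
        rw [mem_ball, dist_eq_norm] at hp
        rw [mem_closedBall, dist_eq_norm]
        have h3 : p - v - p0 = (p - p0) - v := by abel
        have h4 := norm_sub_le (p - p0) v
        have h5 := min_le_right η ((r - r1) / 3)
        rw [← hδ] at h5
        rw [h3]
        linarith
      rw [hgβ _ h3]
      congr 1
      abel
    obtain ⟨γ', hγ', hd⟩ := exists_combination hC φ hgu ⟨M, hM⟩ hmem hKc he
    exact ⟨γ', ball p0 r1, hK, hγ', fun p hp => hd p hp⟩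
  · have h1 : g p = β p := hgβ p (ball_subset_closedBall (ball_subset_ball (by linarith) hp))
    rw [← h1]
    refine φ.dist_normed_convolution_le hgc.aestronglyMeasurable fun x hx => ?_
    refine (hηg ?_).le
    exact (mem_ball.1 hx).trans_le (min_le_left _ _)

end Pool.Agent.H36.CSymp
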