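import Pool.Agent.H36.CSymp.Mollify

set_option autoImplicit false

/-!
# Capacity preserving shears have a potential
-/

noncomputable section

namespace Pool.Agent.H36.CSymp

open Set Metric Topology Filter MeasureTheory
open scoped ENNReal ContDiff

variable {m : ℕ}

/-- the dot product as a continuous linear map -/
def dtL : V m →L[ℝ] (V m →L[ℝ] ℝ) :=
  LinearMap.toContinuousLinearMap
    { toFun := fun u => LinearMap.toContinuousLinearMap
        { toFun := fun v => dt u v
          map_add' := fun v v' => dt_add_right u v v'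
          map_smul' := fun t v => dt_smul_right t u v }
      map_add' := fun u u' => by
        ext v
        exact dt_add_left u u' _
      map_smul' := fun t u => by
        ext v
        exact dt_smul_left t u _ }

@[simp] lemma dtL_apply (u v : V m) : dtL u v = dt u v := rfl

variable [NeZero m]

/-- the derivative of a capacity preserving shear field is symmetric -/
theorem HS.fderiv_symm {c : RCap m} {O : Set (V m)} {β : V m → V m} (h : HS c O β) {p : V m}
    (hp : p ∈ O) {B : V m →L[ℝ] V m} (hB : HasFDerivAt β B p) (u v : V m) :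
    dt (B u) v = dt (B v) u := by
  have key : HS c univ B := by
    refine HS.limit isOpen_univ B.continuous.continuousOn fun K _ hK ε hε => ?_
    obtain ⟨R, hR0, hR⟩ : ∃ R : ℝ, 0 < R ∧ K ⊆ closedBall 0 R := by
      obtain ⟨R, hR⟩ := hK.isBounded.subset_closedBall 0
      exact ⟨max R 1, by positivity, hR.trans (closedBall_subset_closedBall (le_max_left _ _))⟩
    have h1 := hB.isLittleO.def (show 0 < ε / (2 * R) by positivity)
    obtain ⟨δ1, hδ1, h1⟩ := Metric.eventually_nhds_iff.1 h1
    obtain ⟨δ2, hδ2, h2⟩ := Metric.isOpen_iff.1 h.isOpen p hp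
    set s : ℝ := min δ1 δ2 / (2 * R) with hs
    have hs0 : 0 < s := by positivity
    have hsR : s * R < min δ1 δ2 := by
      rw [hs]
      have : 0 < min δ1 δ2 := lt_min hδ1 hδ2
      calc min δ1 δ2 / (2 * R) * R = min δ1 δ2 / 2 := by field_simp
        _ < min δ1 δ2 := by linarith
    have hdist : ∀ x ∈ K, dist (p + s • x) p < min δ1 δ2 := fun x hx => by
      rw [dist_eq_norm, add_sub_cancel_left, norm_smul, Real.norm_of_nonneg hs0.le]
      have := mem_closedBall_zero_iff.1 (hR hx)
      calc s * ‖x‖ ≤ s * R := by gcongr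
        _ < _ := hsR
    refine ⟨fun x => s⁻¹ • β (p + s • x) + -(s⁻¹ • β p), _, fun x hx => ?_,
      (h.rescale p hs0 hs0).add ((HS.const c (-(s⁻¹ • β p))).subset (subset_univ _) ?_),
      fun x hx => ?_⟩
    · exact h2 ((hdist x hx).trans_le (min_le_right _ _))
    · exact h.isOpen.preimage (by fun_prop)
    · have h3 := h1 ((hdist x hx).trans_le (min_le_left _ _))
      rw [add_sub_cancel_left, map_smul, norm_smul, Real.norm_of_nonneg hs0.le] at h3
      rw [dist_eq_norm]
      have h4 : s⁻¹ • β (p + s • x) + -(s⁻¹ • β p) - B x =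
          s⁻¹ • (β (p + s • x) - β p - s • B x) := by
        rw [smul_sub, smul_sub, smul_smul, inv_mul_cancel₀ hs0.ne', one_smul]
        abel
      rw [h4, norm_smul, norm_inv, Real.norm_of_nonneg hs0.le]
      have := mem_closedBall_zero_iff.1 (hR hx)
      calc s⁻¹ * ‖β (p + s • x) - β p - s • B x‖ ≤ s⁻¹ * (ε / (2 * R) * (s * ‖x‖)) := by gcongr
        _ = ε / (2 * R) * ‖x‖ := by field_simp
        _ ≤ ε / (2 * R) * R := by gcongr
        _ = ε / 2 := by field_simp
        _ < ε := by linarith
  have hs := key.symm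
  have hexp : ∀ u v : V m, dt (B u) v = ∑ i, ∑ j, u j * v i * B (Pi.single j 1) i := fun u v => by
    simp only [dt]
    refine Finset.sum_congr rfl fun i _ => ?_
    have : B u i = ∑ j, u j * B (Pi.single j 1) i := by
      conv_lhs => rw [← Finset.univ_sum_single u]
      rw [map_sum, Finset.sum_apply]
      refine Finset.sum_congr rfl fun l _ => ?_
      have : (Pi.single l (u l) : V m) = u l • Pi.single l (1 : ℝ) := by
        rw [← Pi.single_smul, smul_eq_mul, mul_one]
      rw [this, map_smul, Pi.smul_apply, smul_eq_mul]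
    rw [this, Finset.sum_mul]
    refine Finset.sum_congr rfl fun j _ => by ring
  rw [hexp, hexp, Finset.sum_comm]
  refine Finset.sum_congr rfl fun j _ => Finset.sum_congr rfl fun i _ => ?_
  rw [hs i j]
  ring

/-- **Potentials.** A capacity preserving shear field has a potential. -/
theorem HS.potential {c : RCap m} {p0 : V m} {r r' : ℝ} {β : V m → V m} (h : HS c (ball p0 r) β)
    (hr : r' < r) : ∃ Φ : V m → ℝ, ∀ p ∈ ball p0 r', HasFDerivAt Φ (dtL (β p)) p := by
  rcases le_or_gt r' 0 with hr0 | hr0
  · exact ⟨0, fun p hp => by rw [ball_eq_empty.2 hr0] at hp; exact hp.elim⟩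
  -- approximations
  have h1 : ∀ n : ℕ, ∃ γ : V m → V m, ContDiff ℝ ∞ γ ∧ HS c (ball p0 r') γ ∧ ∀ p ∈ ball p0 r',
      dist (γ p) (β p) ≤ 1 / ((n : ℝ) + 1) := fun n => h.mollify hr0 hr (by positivity)
  choose γ hγ1 hγ2 hγ3 using h1
  have h2 : ∀ n : ℕ, ∃ F : V m → ℝ, (∀ p ∈ ball p0 r', HasFDerivAt F (dtL (γ n p)) p) ∧
      F p0 = 0 := fun n => by
    have hd : ∀ p, HasFDerivAt (fun p => dtL (γ n p)) (dtL.comp (fderiv ℝ (γ n) p)) p := fun p =>
      dtL.hasFDerivAt.comp p (((hγ1 n).differentiable (by simp)) p).hasFDerivAt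
    have hdo : DifferentiableOn ℝ (fun p => dtL (γ n p)) (ball p0 r') :=
      fun p _ => (hd p).differentiableAt.differentiableWithinAt
    obtain ⟨F, hF⟩ := (convex_ball p0 r').exists_forall_hasFDerivAt_of_fderiv_symmetric
      isOpen_ball hdo (fun p hp x y => by
        rw [(hd p).fderiv]
        simp only [ContinuousLinearMap.comp_apply, dtL_apply]
        exact (hγ2 n).fderiv_symm hp (((hγ1 n).differentiable (by simp)) p).hasFDerivAt x y)
    exact ⟨fun p => F p - F p0, fun p hp => (hF p hp).sub_const _, by simp⟩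
  choose F hF1 hF2 using h2
  have h3 : TendstoUniformlyOn (fun n p => dtL (γ n p)) (fun p => dtL (β p)) atTop
      (ball p0 r') := by
    have h4 : TendstoUniformlyOn γ β atTop (ball p0 r') := by
      rw [Metric.tendstoUniformlyOn_iff]
      intro ε hε
      have h5 := tendsto_one_div_add_atTop_nhds_zero_nat (𝕜 := ℝ)
      filter_upwards [h5.eventually (gt_mem_nhds hε)] with n hn p hp
      rw [dist_comm]
      exact (hγ3 n p hp).trans_lt hn
    exact (dtL (m := m)).uniformContinuous.comp_tendstoUniformlyOn h4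
  have h4 := uniformCauchySeqOn_ball_of_fderiv (𝕜 := ℝ) (f := F) (l := atTop)
    h3.uniformCauchySeqOn (fun n p hp => hF1 n p hp)
    (by
      simp only [hF2]
      exact (tendsto_const_nhds (x := (0 : ℝ)) (f := (atTop : Filter ℕ))).cauchy_map)
  have h5 : ∀ p ∈ ball p0 r', ∃ y, Tendsto (fun n => F n p) atTop (𝓝 y) := fun p hp =>
    cauchySeq_tendsto_of_complete (h4.cauchySeq hp)
  choose! Φ hΦ using h5
  exact ⟨Φ, fun p hp => hasFDerivAt_of_tendstoUniformlyOn isOpen_ball h3 hF1 hΦ hp⟩

end Pool.Agent.H36.CSymp
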