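import Pool.Agent.H36.CSymp.Conf

set_option autoImplicit false

/-!
# Capacity preserving shears `(q, p) ↦ (q + β(p), p)`
-/

noncomputable section

namespace Pool.Agent.H36.CSymp

open Set Metric Topology Filter
open scoped ENNReal

variable {m : ℕ}

/-- the shear `(q, p) ↦ (q + β p, p)` -/
def sh (β : V m → V m) (x : E m) : E m := (x.1 + β x.2, x.2)

lemma sh_injective (β : V m → V m) : Function.Injective (sh β) := fun x y h => by
  have h' : (x.1 + β x.2, x.2) = (y.1 + β y.2, y.2) := h
  obtain ⟨h1, h2⟩ := Prod.mk.inj h'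
  rw [h2] at h1
  exact Prod.ext (add_right_cancel h1) h2

/-- a set given by two bounds is open -/
lemma isOpen_two {f g : E m → ℝ} (hf : Continuous f) (hg : Continuous g) :
    IsOpen {x | |f x| < 1 ∧ |g x| < 1} :=
  (isOpen_lt hf.abs continuous_const).and (isOpen_lt hg.abs continuous_const)

lemma sh_cont {β : V m → V m} {O : Set (V m)} (hβ : ContinuousOn β O) :
    ContinuousOn (sh β) (univ ×ˢ O) :=
  (continuous_fst.continuousOn.add
    (hβ.comp continuous_snd.continuousOn fun _ hx => hx.2)).prodMk continuous_snd.continuousOn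

lemma sh_opn {β : V m → V m} {O : Set (V m)} (hO : IsOpen O) (hβ : ContinuousOn β O) :
    ∀ W ⊆ univ ×ˢ O, IsOpen W → IsOpen (sh β '' W) := by
  intro W hW hWo
  have h1 : sh β '' W = (univ ×ˢ O) ∩ sh (fun p => - β p) ⁻¹' W := by
    ext x
    constructor
    · rintro ⟨y, hy, rfl⟩
      refine ⟨⟨trivial, (hW hy).2⟩, ?_⟩
      simpa [sh] using hy
    · rintro ⟨hx, hx'⟩
      exact ⟨_, hx', by simp [sh]⟩
  rw [h1]
  exact (sh_cont hβ.neg).isOpen_inter_preimage (isOpen_univ.prod hO) hWo

variable [NeZero m]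

/-- the shear along `β` preserves the capacity of all open subsets of `V × O` -/
def HS (c : RCap m) (O : Set (V m)) (β : V m → V m) : Prop := Pres c (univ ×ˢ O) (sh β)

namespace HS

variable {c : RCap m} {O O' : Set (V m)} {β γ : V m → V m}

lemma isOpen (h : HS c O β) : IsOpen O := by
  have h1 : O = (fun p : V m => ((0, p) : E m)) ⁻¹' (univ ×ˢ O) := by
    ext p; simp
  rw [h1]
  exact Pres.isOpen h |>.preimage (by fun_prop)

lemma continuousOn (h : HS c O β) : ContinuousOn β O := by
  have h1 : ContinuousOn (fun p : V m => (sh β ((0, p) : E m)).1) O :=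
    continuous_fst.comp_continuousOn
      ((Pres.cont h).comp (by fun_prop) fun p hp => ⟨trivial, hp⟩)
  simpa [sh] using h1

lemma subset (h : HS c O β) (hs : O' ⊆ O) (ho : IsOpen O') : HS c O' β :=
  Pres.subset h (prod_mono subset_rfl hs) (isOpen_univ.prod ho)

lemma congr (h : HS c O β) (hβγ : ∀ p ∈ O, γ p = β p) : HS c O γ :=
  Pres.congr h fun x hx => by simp [sh, hβγ x.2 hx.2]

/-- closedness -/
lemma limit (hO : IsOpen O) (hβ : ContinuousOn β O)
    (happ : ∀ K ⊆ O, IsCompact K → ∀ ε : ℝ, 0 < ε → ∃ (γ : V m → V m) (O' : Set (V m)),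
      K ⊆ O' ∧ HS c O' γ ∧ ∀ p ∈ K, dist (γ p) (β p) < ε) : HS c O β := by
  refine Pres.limit (isOpen_univ.prod hO) (sh_cont hβ) (sh_injective β).injOn (sh_opn hO hβ) ?_
  intro K hK hKc ε hε
  obtain ⟨γ, O', hKO, hγ, hd⟩ := happ (Prod.snd '' K)
    (by rintro _ ⟨x, hx, rfl⟩; exact (hK hx).2) (hKc.image continuous_snd) ε hε
  refine ⟨sh γ, univ ×ˢ O', fun x hx => ⟨trivial, hKO ⟨x, hx, rfl⟩⟩, hγ, fun x hx => ?_⟩
  have := hd x.2 ⟨x, hx, rfl⟩
  rw [Prod.dist_eq]
  simp only [sh, dist_add_left, dist_self]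
  exact max_lt this hε

lemma const (c : RCap m) (w : V m) : HS c univ fun _ => w := by
  have h := (Pres.of_conf (conf_trans c ((w, 0) : E m)))
  refine (h.congr (g := sh fun _ => w) fun x _ => ?_).subset (subset_univ _)
    (isOpen_univ.prod isOpen_univ)
  simp [sh, Prod.ext_iff]

lemma add (h : HS c O β) (h' : HS c O γ) : HS c O fun p => β p + γ p := by
  have := Pres.comp h h' (fun x hx => ⟨trivial, hx.2⟩)
  refine this.congr fun x _ => ?_
  simp only [sh, Prod.mk.injEq, and_true]
  abel

lemma neg (h : HS c O β) : HS c O fun p => - β p := by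
  have := Pres.inv (g := sh fun p => - β p) h (fun x _ => by simp [sh])
  have him : sh β '' (univ ×ˢ O) = univ ×ˢ O := by
    ext x
    constructor
    · rintro ⟨y, hy, rfl⟩
      exact ⟨trivial, hy.2⟩
    · intro hx
      exact ⟨(x.1 - β x.2, x.2), ⟨trivial, hx.2⟩, by simp [sh]⟩
  rwa [him] at this

/-- rescaling -/
lemma rescale (h : HS c O β) (b : V m) {l n : ℝ} (hl : 0 < l) (hn : 0 < n) :
    HS c ((fun p => b + n • p) ⁻¹' O) fun p => l⁻¹ • β (b + n • p) := by
  have h1 := Pres.conj (mul_pos hl hn) (conf_scale c 0 b hl hn) (conf_scale c 0 b hl hn) h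
  have hset : (scaleH 0 b hl hn) ⁻¹' (univ ×ˢ O) =
      (univ : Set (V m)) ×ˢ ((fun p => b + n • p) ⁻¹' O) := by
    ext x; simp
  rw [hset] at h1
  refine h1.congr fun x _ => ?_
  simp only [scaleH_apply, scaleH_symm_apply, sh, zero_add, sub_zero, add_sub_cancel_left,
    smul_add, smul_smul, inv_mul_cancel₀ hl.ne', inv_mul_cancel₀ hn.ne', one_smul]

lemma smul_pos (h : HS c O β) {t : ℝ} (ht : 0 < t) : HS c O fun p => t • β p := by
  have := h.rescale 0 (inv_pos.2 ht) one_pos
  simpa using this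

lemma smul (h : HS c O β) (t : ℝ) : HS c O fun p => t • β p := by
  rcases lt_trichotomy t 0 with ht | rfl | ht
  · have := (h.smul_pos (neg_pos.2 ht)).neg
    simpa using this
  · simpa using (HS.const c (0 : V m)).subset (subset_univ O) h.isOpen
  · exact h.smul_pos ht

lemma translate (h : HS c O β) (v : V m) : HS c ((fun p => v + p) ⁻¹' O) fun p => β (v + p) := by
  have := h.rescale v one_pos one_pos
  simpa using this

lemma sum {ι : Type*} (s : Finset ι) {f : ι → V m → V m} (hO : IsOpen O)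
    (h : ∀ i ∈ s, HS c O (f i)) : HS c O fun p => ∑ i ∈ s, f i p := by
  classical
  induction s using Finset.induction_on with
  | empty => simpa using (HS.const c (0 : V m)).subset (subset_univ O) hO
  | insert i s his ih =>
    have h1 := (h i (Finset.mem_insert_self i s)).add
      (ih fun j hj => h j (Finset.mem_insert_of_mem hj))
    refine h1.congr fun p _ => ?_
    rw [Finset.sum_insert his]

end HS

/-- symmetric linear shears -/
lemma HS.of_symm (c : RCap m) {B : V m →L[ℝ] V m} (hB : ∀ u v, dt (B u) v = dt (B v) u) :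
    HS c univ B := by
  have h := Pres.of_conf (conf_of_symp c (shQ B) (om_shQ hB))
  exact (h.congr (g := sh B) fun x _ => rfl).subset (subset_univ _)
    (isOpen_univ.prod isOpen_univ)

/-- the coordinate cylinders have finite capacity -/
lemma cyl_lt (c : RCap m) (j : Fin m) :
    c.val {x | |x.1 j| < 1 ∧ |x.2 j| < 1} < ⊤ := by
  let N : V m ≃L[ℝ] V m :=
    (LinearEquiv.funCongrLeft ℝ ℝ (Equiv.swap 0 j)).toContinuousLinearEquiv
  have hN : ∀ u k, N u k = u (Equiv.swap 0 j k) := fun u k => rfl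
  have h1 : ∀ u v, dt (N u) (N v) = dt u v := fun u v => by
    simp only [dt, hN]
    exact Equiv.sum_comp (Equiv.swap 0 j) fun k => u k * v k
  have hNN : ∀ u, N (N u) = u := fun u => by
    funext k
    rw [hN, hN, Equiv.swap_apply_self]
  have h2 : {x : E m | |x.1 j| < 1 ∧ |x.2 j| < 1} =
      cot N N '' {x : E m | |x.1 0| < 1 ∧ |x.2 0| < 1} := by
    ext x
    constructor
    · intro hx
      refine ⟨(N x.1, N x.2), ?_, ?_⟩
      · simp only [mem_ofPred_eq, hN, Equiv.swap_apply_left]
        exact hx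
      · rw [cot_apply]
        simp only [hNN]
    · rintro ⟨y, hy, rfl⟩
      simp only [cot_apply, mem_ofPred_eq, hN, Equiv.swap_apply_right]
      exact hy
  rw [h2, c.symp _ (om_cot h1)]
  · exact c.cyl_lt
  · exact isOpen_two (by fun_prop) (by fun_prop)

/-- the set where two commuting coordinates are bounded has infinite capacity -/
lemma val_comm_top (c : RCap m) (i j : Fin m) : c.val {x | |x.1 i| < 1 ∧ |x.1 j| < 1} = ⊤ := by
  have hT : IsOpen {x : E m | |x.1 i| < 1 ∧ |x.1 j| < 1} :=
    isOpen_two (by fun_prop) (by fun_prop)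
  by_contra hcon
  have h1 : ∀ R : ℝ, 0 < R → ENNReal.ofReal R * c.val (ball 0 1) ≤
      c.val {x | |x.1 i| < 1 ∧ |x.1 j| < 1} := fun R hR => by
    have h2 := conf_scale c 0 0 one_pos hR (ball 0 1) isOpen_ball
    rw [one_mul] at h2
    rw [← h2]
    refine c.mono ((scaleH 0 0 one_pos hR).isOpenMap _ isOpen_ball) hT ?_
    rintro _ ⟨x, hx, rfl⟩
    rw [mem_ball_zero_iff, Prod.norm_def, max_lt_iff] at hx
    have hk : ∀ k, |x.1 k| < 1 := fun k => (norm_le_pi_norm x.1 k).trans_lt hx.1
    simp only [scaleH_apply, mem_ofPred_eq, Pi.add_apply, Pi.zero_apply, zero_add, one_smul]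
    exact ⟨hk i, hk j⟩
  have hb : c.val (ball 0 1) ≠ 0 := c.ball_pos.ne'
  have hbt : c.val (ball 0 1) ≠ ⊤ := fun h => by
    have := h1 1 one_pos
    rw [h] at this
    simp only [ENNReal.ofReal_one, one_mul, top_le_iff] at this
    exact hcon this
  -- choose `R` large
  obtain ⟨T, hT⟩ : ∃ T : ℝ, c.val {x | |x.1 i| < 1 ∧ |x.1 j| < 1} = ENNReal.ofReal T :=
    ⟨_, (ENNReal.ofReal_toReal hcon).symm⟩
  obtain ⟨β, hβ⟩ : ∃ β : ℝ, c.val (ball 0 1) = ENNReal.ofReal β :=
    ⟨_, (ENNReal.ofReal_toReal hbt).symm⟩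
  have hβ0 : 0 < β := by
    by_contra h
    exact hb (hβ.trans (ENNReal.ofReal_eq_zero.2 (not_lt.1 h)))
  have h3 := h1 ((|T| + 1) / β) (by positivity)
  rw [hT, hβ, ← ENNReal.ofReal_mul (by positivity), div_mul_cancel₀ _ hβ0.ne'] at h3
  have h4 := (ENNReal.ofReal_le_ofReal_iff' (p := |T| + 1) (q := T)).1 h3
  rcases h4 with h4 | h4
  · linarith [le_abs_self T]
  · linarith [abs_nonneg T]

/-- **Nonsqueezing.** A capacity preserving linear shear is symmetric. -/
theorem HS.symm {c : RCap m} {B : V m →L[ℝ] V m} (h : HS c univ B) (i j : Fin m) :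
    B (Pi.single j 1) i = B (Pi.single i 1) j := by
  by_contra hne
  have hij : i ≠ j := fun h => hne (by rw [h])
  set b : Fin m → Fin m → ℝ := fun k l => B (Pi.single l 1) k with hb
  have hBsum : ∀ y k, B y k = ∑ l, y l * b k l := fun y k => by
    conv_lhs => rw [← Finset.univ_sum_single y]
    rw [map_sum, Finset.sum_apply]
    refine Finset.sum_congr rfl fun l _ => ?_
    have : (Pi.single l (y l) : V m) = y l • Pi.single l (1 : ℝ) := by
      rw [← Pi.single_smul, smul_eq_mul, mul_one]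
    rw [this, map_smul, Pi.smul_apply, smul_eq_mul]
  set a := b i j - b j i with ha
  have ha0 : a ≠ 0 := sub_ne_zero.2 hne
  -- a symmetric matrix
  set S : Matrix (Fin m) (Fin m) ℝ := Matrix.of fun k l =>
    if k = j then b j l else if l = j then b j k else if k = i then b i l else
      if l = i then b i k else 0 with hS
  have hSsymm : ∀ k l, S k l = S l k := fun k l => by
    simp only [hS, Matrix.of_apply]
    by_cases h1 : k = j
    · rw [if_pos h1, if_pos h1]
      by_cases h2 : l = j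
      · rw [if_pos h2, h1, h2]
      · rw [if_neg h2]
    · rw [if_neg h1, if_neg h1]
      by_cases h2 : l = j
      · rw [if_pos h2, if_pos h2]
      · rw [if_neg h2, if_neg h2]
        by_cases h3 : k = i
        · rw [if_pos h3, if_pos h3]
          by_cases h4 : l = i
          · rw [if_pos h4, h3, h4]
          · rw [if_neg h4]
        · rw [if_neg h3, if_neg h3]
  let SL : V m →L[ℝ] V m := LinearMap.toContinuousLinearMap (Matrix.toLin' S)
  have hSL : ∀ y k, SL y k = ∑ l, S k l * y l := fun y k => by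
    simp [SL, Matrix.toLin'_apply, Matrix.mulVec, dotProduct]
  have hSLs : ∀ u v, dt (SL u) v = dt (SL v) u := fun u v => by
    simp only [dt, hSL, Finset.sum_mul]
    rw [Finset.sum_comm]
    refine Finset.sum_congr rfl fun k _ => Finset.sum_congr rfl fun l _ => ?_
    rw [hSsymm l k]
    ring
  have h1 : HS c univ fun p => B p + - SL p := h.add (HS.of_symm c hSLs).neg
  set β : V m → V m := fun p => B p + - SL p with hβ
  have hβj : ∀ y, β y j = 0 := fun y => by
    simp only [hβ, Pi.add_apply, Pi.neg_apply, hBsum, hSL]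
    rw [← sub_eq_add_neg, ← Finset.sum_sub_distrib]
    refine Finset.sum_eq_zero fun l _ => ?_
    simp only [hS, Matrix.of_apply, if_true]
    ring
  have hβi : ∀ y, β y i = a * y j := fun y => by
    simp only [hβ, Pi.add_apply, Pi.neg_apply, hBsum, hSL]
    rw [← sub_eq_add_neg, ← Finset.sum_sub_distrib, Finset.sum_eq_single j]
    · simp only [hS, Matrix.of_apply, if_neg hij, if_true]
      rw [ha]; ring
    · intro l _ hl
      simp only [hS, Matrix.of_apply, if_neg hij, if_neg hl, if_true]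
      ring
    · simp
  set T : Set (E m) := {x | |x.1 i| < 1 ∧ |x.1 j| < 1} with hTdef
  set R : Set (E m) := {x | |x.1 i + a * x.2 j| < 1 ∧ |x.1 j| < 1} with hRdef
  have hRo : IsOpen R :=
    isOpen_two (by fun_prop) (by fun_prop)
  have h2 : sh β '' R = T := by
    ext x
    constructor
    · rintro ⟨y, hy, rfl⟩
      simp only [hTdef, sh, mem_ofPred_eq, Pi.add_apply, hβj, hβi, add_zero]
      exact hy
    · intro hx
      refine ⟨(x.1 - β x.2, x.2), ?_, by simp [sh]⟩
      simp only [hRdef, mem_ofPred_eq, Pi.sub_apply, hβj, hβi, sub_zero, sub_add_cancel]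
      exact hx
  have h3 : c.val T = c.val R := by
    rw [← h2]
    exact Pres.val h1 R (fun x _ => ⟨trivial, trivial⟩) hRo
  -- the other side
  have h4 : shP (symB i j a⁻¹) '' R = {x : E m | |a * x.2 j| < 1 ∧ |x.1 j| < 1} := by
    have hco : ∀ u : V m, symB i j a⁻¹ u j = a⁻¹ * u i := fun u => by
      simp [symB_apply, Pi.single_apply, hij.symm]
    ext x
    constructor
    · rintro ⟨y, hy, rfl⟩
      simp only [shP_apply, mem_ofPred_eq, Pi.add_apply, hco]
      have : a * (y.2 j + a⁻¹ * y.1 i) = y.1 i + a * y.2 j := by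
        field_simp
        ring
      rw [this]
      exact hy
    · intro hx
      refine ⟨(x.1, x.2 - symB i j a⁻¹ x.1), ?_, by simp [shP_apply]⟩
      simp only [hRdef, mem_ofPred_eq, Pi.sub_apply, hco]
      have : x.1 i + a * (x.2 j - a⁻¹ * x.1 i) = a * x.2 j := by
        field_simp
        ring
      rw [this]
      exact hx
  have h5 : c.val {x : E m | |a * x.2 j| < 1 ∧ |x.1 j| < 1} = c.val R := by
    rw [← h4]
    exact c.symp _ (om_shP (symB_symm i j a⁻¹)) hRo
  have hapos : 0 < |a|⁻¹ := by positivity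
  have h6 : (scaleH 0 0 one_pos hapos : E m ≃ₜ E m) '' {x | |x.1 j| < 1 ∧ |x.2 j| < 1} =
      {x : E m | |a * x.2 j| < 1 ∧ |x.1 j| < 1} := by
    ext x
    constructor
    · rintro ⟨y, hy, rfl⟩
      simp only [scaleH_apply, mem_ofPred_eq, Pi.add_apply, Pi.zero_apply, zero_add, one_smul,
        Pi.smul_apply, smul_eq_mul]
      refine ⟨?_, hy.1⟩
      rw [abs_mul, abs_mul, abs_inv, abs_abs, ← mul_assoc, mul_inv_cancel₀ (abs_ne_zero.2 ha0),
        one_mul]
      exact hy.2
    · intro hx
      refine ⟨(x.1, |a| • x.2), ⟨hx.2, ?_⟩, ?_⟩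
      · simp only [Pi.smul_apply, smul_eq_mul, abs_mul, abs_abs]
        rw [← abs_mul]
        exact hx.1
      · simp [smul_smul, inv_mul_cancel₀ (abs_ne_zero.2 ha0)]
  have h7 := conf_scale c 0 0 one_pos hapos {x : E m | |x.1 j| < 1 ∧ |x.2 j| < 1}
    (isOpen_two (by fun_prop) (by fun_prop))
  rw [h6, h5, ← h3, val_comm_top] at h7
  exact (ENNReal.mul_lt_top ENNReal.ofReal_lt_top (cyl_lt c j)).ne h7.symm

end Pool.Agent.H36.CSymp
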