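import Pool.Agent.H36.CSymp.Core

set_option autoImplicit false

/-!
# Stabilisation
-/

noncomputable section

namespace Pool.Agent.H36.CSymp

open Set Metric Topology Filter MeasureTheory
open scoped ENNReal ContDiff
open Pool.Agent.H72.Symp (Sp omega ball1 cyl1 IsSympEmbedding Capacity CapacityChoice
  LocallyPreserves stab)

variable {n : ℕ}

/-- forgetting the last coordinate pair -/
def initL (n : ℕ) : Sp (n + 1) →L[ℝ] Sp n :=
  ContinuousLinearMap.pi fun i => ContinuousLinearMap.proj i.castSucc

lemma initL_apply (x : Sp (n + 1)) : initL n x = Fin.init x := rfl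

/-- adding a coordinate pair -/
def snocL (n : ℕ) : (Sp n × (ℝ × ℝ)) →L[ℝ] Sp (n + 1) :=
  ContinuousLinearMap.pi fun i => Fin.lastCases (motive := fun _ => (Sp n × (ℝ × ℝ)) →L[ℝ] (ℝ × ℝ))
    (ContinuousLinearMap.snd ℝ _ _)
    (fun j => (ContinuousLinearMap.proj j).comp (ContinuousLinearMap.fst ℝ _ _)) i

lemma snocL_last (a : Sp n × (ℝ × ℝ)) : snocL n a (Fin.last n) = a.2 := by
  simp [snocL]

lemma snocL_castSucc (a : Sp n × (ℝ × ℝ)) (j : Fin n) : snocL n a j.castSucc = a.1 j := by
  simp [snocL]

lemma omega_snocL (a b : Sp n × (ℝ × ℝ)) :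
    omega (snocL n a) (snocL n b) = omega a.1 b.1 + (a.2.1 * b.2.2 - a.2.2 * b.2.1) := by
  simp only [omega, Fin.sum_univ_castSucc, snocL_last, snocL_castSucc]

lemma omega_split (a b : Sp (n + 1)) :
    omega a b = omega (initL n a) (initL n b) +
      ((a (Fin.last n)).1 * (b (Fin.last n)).2 - (a (Fin.last n)).2 * (b (Fin.last n)).1) := by
  simp only [omega, Fin.sum_univ_castSucc, initL_apply, Fin.init]

/-- the stabilisation of a chart -/
def stC (σ : Sp n → Sp n) (y : Sp (n + 1)) : Sp (n + 1) := snocL n (σ (initL n y), y (Fin.last n))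

lemma ext_last {x y : Sp (n + 1)} (h1 : initL n x = initL n y)
    (h2 : x (Fin.last n) = y (Fin.last n)) : x = y := by
  funext i
  induction i using Fin.lastCases with
  | last => exact h2
  | cast j => exact congrFun h1 j

lemma stC_embedding {σ : Sp n → Sp n} {U : Set (Sp n)} (hU : IsOpen U)
    (h : IsSympEmbedding σ U univ) : IsSympEmbedding (stC σ) (initL n ⁻¹' U) univ where
  smooth := by
    refine (snocL n).contDiff.comp_contDiffOn (ContDiffOn.prodMk ?_ ?_)
    · exact h.smooth.comp (initL n).contDiff.contDiffOn fun x hx => hx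
    · exact (contDiff_apply ℝ (ℝ × ℝ) (Fin.last n)).contDiffOn
  inj := by
    intro x hx y hy hxy
    refine ext_last (h.inj hx hy ?_) ?_
    · funext j
      have := congrFun hxy j.castSucc
      simpa only [stC, snocL_castSucc] using this
    · have := congrFun hxy (Fin.last n)
      simpa only [stC, snocL_last] using this
  maps := mapsTo_univ _ _
  symp := by
    intro x hx u v
    have hx' : initL n x ∈ U := hx
    have h1 : HasFDerivAt σ (fderiv ℝ σ (initL n x)) (initL n x) :=
      ((h.smooth.contDiffAt (hU.mem_nhds hx')).differentiableAt (by simp)).hasFDerivAt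
    have h2 : HasFDerivAt (fun y => σ (initL n y))
        ((fderiv ℝ σ (initL n x)).comp (initL n)) x := h1.comp x (initL n).hasFDerivAt
    have h3 : HasFDerivAt (fun y : Sp (n + 1) => y (Fin.last n))
        (ContinuousLinearMap.proj (Fin.last n)) x :=
      (ContinuousLinearMap.proj (R := ℝ) (φ := fun _ : Fin (n + 1) => ℝ × ℝ)
        (Fin.last n)).hasFDerivAt
    have h4 := (snocL n).hasFDerivAt.comp x (h2.prodMk h3)
    have h5 : fderiv ℝ (stC σ) x = (snocL n).comp
        (((fderiv ℝ σ (initL n x)).comp (initL n)).prod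
          (ContinuousLinearMap.proj (Fin.last n))) := h4.fderiv
    rw [h5]
    simp only [ContinuousLinearMap.comp_apply, ContinuousLinearMap.prod_apply,
      ContinuousLinearMap.proj_apply]
    rw [omega_snocL, omega_split u v, h.symp _ hx']

lemma initL_stab (φ : Sp n ≃ₜ Sp n) (x : Sp (n + 1)) : initL n (stab φ x) = φ (initL n x) := by
  show Fin.init (Fin.snoc (φ (Fin.init x)) (x (Fin.last n)) : Sp (n + 1)) = _
  rw [Fin.init_snoc]
  rfl

lemma stab_last (φ : Sp n ≃ₜ Sp n) (x : Sp (n + 1)) : stab φ x (Fin.last n) = x (Fin.last n) := by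
  show (Fin.snoc (φ (Fin.init x)) (x (Fin.last n)) : Sp (n + 1)) (Fin.last n) = _
  rw [Fin.snoc_last]

lemma sameLeaf_stC {σ : Sp n → Sp n} (x y : Sp (n + 1)) :
    SameLeaf (stC σ x) (stC σ y) ↔
      SameLeaf (σ (initL n x)) (σ (initL n y)) ∧ (x (Fin.last n)).1 = (y (Fin.last n)).1 := by
  constructor
  · intro h
    refine ⟨fun j => ?_, ?_⟩
    · have := h j.castSucc
      simpa only [stC, snocL_castSucc] using this
    · have := h (Fin.last n)
      simpa only [stC, snocL_last] using this
  · rintro ⟨h1, h2⟩ i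
    induction i using Fin.lastCases with
    | last => simpa only [stC, snocL_last] using h2
    | cast j => simpa only [stC, snocL_castSucc] using h1 j

lemma lagrangian_stab {φ : Sp n ≃ₜ Sp n} {x : Sp (n + 1)} (h : LagrangianAt φ (initL n x)) :
    LagrangianAt (stab φ) x := by
  obtain ⟨U, hU, hx, σ, τ, hσ, hτ, hL⟩ := h
  have himg : stab φ '' (initL n ⁻¹' U) = initL n ⁻¹' (φ '' U) := by
    ext y
    constructor
    · rintro ⟨z, hz, rfl⟩
      rw [mem_preimage, initL_stab]
      exact ⟨_, hz, rfl⟩
    · rintro ⟨z, hz, hzy⟩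
      refine ⟨(stab φ).symm y, ?_, (stab φ).apply_symm_apply y⟩
      rw [mem_preimage]
      have h1 := initL_stab φ ((stab φ).symm y)
      rw [(stab φ).apply_symm_apply, ← hzy] at h1
      rw [← φ.injective h1]
      exact hz
  refine ⟨initL n ⁻¹' U, hU.preimage (initL n).continuous, hx, stC σ, stC τ,
    stC_embedding hU hσ, ?_, fun y hy z hz => ?_⟩
  · rw [himg]
    exact stC_embedding (φ.isOpenMap U hU) hτ
  · rw [sameLeaf_stC, sameLeaf_stC, initL_stab, initL_stab, stab_last, stab_last,
      hL _ hy _ hz]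

/-- descent from the stabilisation -/
lemma descend (φ : Sp n ≃ₜ Sp n) {A : Set (Sp n)} (hA : MeasurableSet A)
    (h : ∀ B : Set (Sp (n + 1)), MeasurableSet B → (∀ x ∈ B, initL n x ∈ A) →
      volume (stab φ '' B) = volume B) : volume (φ '' A) = volume A := by
  set I : Set (ℝ × ℝ) := closedBall 0 1 with hI
  have hI0 : volume I ≠ 0 := (measure_closedBall_pos volume _ one_pos).ne'
  have hI1 : volume I ≠ ⊤ := (isCompact_closedBall (0 : ℝ × ℝ) 1).measure_lt_top.ne
  have key : ∀ B : Set (Sp n), volume ({x : Sp (n + 1) | x (Fin.last n) ∈ I ∧ initL n x ∈ B}) =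
      volume I * volume B := by
    intro B
    have hmp := volume_preserving_piFinSuccAbove (fun _ : Fin (n + 1) => ℝ × ℝ) (Fin.last n)
    have h1 := hmp.measure_preimage_equiv (I ×ˢ B)
    rw [Measure.volume_eq_prod, Measure.prod_prod] at h1
    rw [← h1]
    congr 1
    ext x
    simp only [Set.mem_ofPred_eq, Set.mem_preimage, Set.mem_prod,
      MeasurableEquiv.piFinSuccAbove_apply, Fin.insertNthEquiv_symm_apply]
    constructor
    · rintro ⟨h1, h2⟩
      refine ⟨h1, ?_⟩
      convert h2 using 1
      funext i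
      simp [Fin.removeNth, initL_apply, Fin.init]
    · rintro ⟨h1, h2⟩
      refine ⟨h1, ?_⟩
      convert h2 using 1
      funext i
      simp [Fin.removeNth, initL_apply, Fin.init]
  have himg : stab φ '' {x : Sp (n + 1) | x (Fin.last n) ∈ I ∧ initL n x ∈ A} =
      {x : Sp (n + 1) | x (Fin.last n) ∈ I ∧ initL n x ∈ φ '' A} := by
    ext y
    constructor
    · rintro ⟨x, ⟨h1, h2⟩, rfl⟩
      refine ⟨?_, ?_⟩
      · rw [stab_last]; exact h1
      · rw [initL_stab]; exact ⟨_, h2, rfl⟩
    · rintro ⟨h1, z, hz, hzy⟩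
      have h3 := initL_stab φ ((stab φ).symm y)
      have h4 := stab_last φ ((stab φ).symm y)
      rw [(stab φ).apply_symm_apply] at h3 h4
      rw [← hzy] at h3
      refine ⟨(stab φ).symm y, ⟨?_, ?_⟩, (stab φ).apply_symm_apply y⟩
      · rw [← h4]; exact h1
      · rw [← φ.injective h3]; exact hz
  have hmeas : MeasurableSet {x : Sp (n + 1) | x (Fin.last n) ∈ I ∧ initL n x ∈ A} := by
    have m1 : Measurable (fun x : Sp (n + 1) => x (Fin.last n)) := measurable_pi_apply _
    have m2 : Measurable (fun x : Sp (n + 1) => initL n x) := (initL n).continuous.measurable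
    exact (m1 measurableSet_closedBall).inter (m2 hA)
  have h1 := h _ hmeas fun x hx => hx.2
  rw [himg, key, key] at h1
  rwa [ENNReal.mul_right_inj hI0 hI1] at h1

end Pool.Agent.H36.CSymp
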