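import Pool.Agent.H36.CSymp.Chart

set_option autoImplicit false

/-!
# The inner regularisation of a capacity
-/

noncomputable section

namespace Pool.Agent.H36.CSymp

open Set Metric Topology Filter MeasureTheory
open scoped ENNReal ContDiff
open Pool.Agent.H72.Symp (Sp omega ball1 cyl1 IsSympEmbedding Capacity CapacityChoice
  LocallyPreserves stab)

variable {m : ℕ}

/-- the coordinates -/
def Th : Sp m ≃L[ℝ] E m :=
  LinearEquiv.toContinuousLinearEquiv
    { toFun := fun x => (fun j => (x j).1, fun j => (x j).2)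
      invFun := fun y j => (y.1 j, y.2 j)
      map_add' := fun _ _ => rfl
      map_smul' := fun _ _ => rfl
      left_inv := fun _ => rfl
      right_inv := fun _ => rfl }

lemma Th_apply (x : Sp m) : Th x = (fun j => (x j).1, fun j => (x j).2) := rfl

lemma Th_symm_apply (y : E m) (j : Fin m) : Th.symm y j = (y.1 j, y.2 j) := rfl

lemma om_Th (u v : Sp m) : Om (Th u) (Th v) = omega u v := by
  simp only [Om, dt, Th_apply, omega, Finset.sum_sub_distrib]

/-- relatively compact open subsets -/
def Rel (W U : Set (E m)) : Prop := IsOpen W ∧ IsCompact (closure W) ∧ closure W ⊆ U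

lemma Rel.image {g : OpenPartialHomeomorph (E m) (E m)} {W U : Set (E m)} (h : Rel W U)
    (hU : U ⊆ g.source) : Rel (g '' W) (g '' U) := by
  obtain ⟨h1, h2, h3⟩ := h
  have h4 : IsCompact (g '' closure W) := h2.image_of_continuousOn
    (g.continuousOn.mono (h3.trans hU))
  have h5 : closure (g '' W) ⊆ g '' closure W :=
    closure_minimal (image_mono subset_closure) h4.isClosed
  exact ⟨g.isOpen_image_of_subset_source h1 ((subset_closure.trans h3).trans hU),
    h4.of_isClosed_subset isClosed_closure h5, h5.trans (image_mono h3)⟩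

variable [NeZero m]

/-- the inner regularisation -/
def vR (c : Capacity m) (U : Set (E m)) : ℝ≥0∞ :=
  ⨆ W : {W : Set (E m) // Rel W U}, c.val (Th ⁻¹' W.1)

lemma le_vR {c : Capacity m} {W U : Set (E m)} (h : Rel W U) : c.val (Th ⁻¹' W) ≤ vR c U :=
  le_iSup (fun W : {W : Set (E m) // Rel W U} => c.val (Th ⁻¹' W.1)) ⟨W, h⟩

lemma vR_le {c : Capacity m} {U : Set (E m)} {a : ℝ≥0∞}
    (h : ∀ W, Rel W U → c.val (Th ⁻¹' W) ≤ a) : vR c U ≤ a :=
  iSup_le fun W => h W.1 W.2

lemma vR_image_ge {c : Capacity m} (g : OpenPartialHomeomorph (E m) (E m)) {k : ℝ≥0∞}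
    (hg : ∀ W ⊆ g.source, IsOpen W → c.val (Th ⁻¹' (g '' W)) = k * c.val (Th ⁻¹' W))
    {U : Set (E m)} (hU : U ⊆ g.source) : k * vR c U ≤ vR c (g '' U) := by
  rw [vR, ENNReal.mul_iSup]
  refine iSup_le fun W => ?_
  rw [← hg W.1 ((subset_closure.trans W.2.2.2).trans hU) W.2.1]
  exact le_vR (W.2.image hU)

lemma vR_image {c : Capacity m} (g : OpenPartialHomeomorph (E m) (E m)) {k : ℝ≥0∞}
    (hg : ∀ W ⊆ g.source, IsOpen W → c.val (Th ⁻¹' (g '' W)) = k * c.val (Th ⁻¹' W))
    {U : Set (E m)} (hU : U ⊆ g.source) : vR c (g '' U) = k * vR c U := by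
  refine le_antisymm (vR_le fun W' hW' => ?_) (vR_image_ge g hg hU)
  have h1 : g '' U ⊆ g.symm.source := by
    rintro _ ⟨x, hx, rfl⟩
    exact g.map_source (hU hx)
  have h2 := hW'.image h1
  have h3 : g.symm '' (g '' U) = U := g.symm_image_image_of_subset_source hU
  have hW's : W' ⊆ g.target := (subset_closure.trans hW'.2.2).trans h1
  have h4 : g '' (g.symm '' W') = W' := g.image_symm_image_of_subset_target hW's
  rw [h3] at h2
  have h5 := hg _ ((subset_closure.trans h2.2.2).trans hU) h2.1
  rw [h4] at h5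
  rw [h5]
  gcongr
  exact le_vR h2

lemma cap_linear (c : Capacity m) (A : E m ≃L[ℝ] E m) (hA : ∀ u v, Om (A u) (A v) = Om u v)
    {W : Set (E m)} (hW : IsOpen W) : c.val (Th ⁻¹' (A '' W)) = c.val (Th ⁻¹' W) := by
  set A' : Sp m ≃L[ℝ] Sp m := (Th.trans A).trans Th.symm with hA'
  have h1 : ∀ u v, omega (A' u) (A' v) = omega u v := fun u v => by
    rw [← om_Th, ← om_Th]
    simp only [hA', ContinuousLinearEquiv.trans_apply, ContinuousLinearEquiv.apply_symm_apply]
    rw [hA]
  have h2 := chart_cap c isOpen_univ (linear_symp A' h1) (subset_univ (Th ⁻¹' W))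
    (hW.preimage Th.continuous)
  rw [← h2]
  congr 1
  ext x
  constructor
  · rintro ⟨y, hy, hxy⟩
    refine ⟨Th.symm y, by simpa using hy, ?_⟩
    simp only [hA', ContinuousLinearEquiv.trans_apply, ContinuousLinearEquiv.apply_symm_apply]
    rw [hxy, ContinuousLinearEquiv.symm_apply_apply]
  · rintro ⟨y, hy, rfl⟩
    refine ⟨Th y, hy, ?_⟩
    simp only [hA', ContinuousLinearEquiv.trans_apply, ContinuousLinearEquiv.apply_symm_apply]

lemma cap_trans (c : Capacity m) (a : E m) {W : Set (E m)} (hW : IsOpen W) :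
    c.val (Th ⁻¹' ((fun x => x + a) '' W)) = c.val (Th ⁻¹' W) := by
  have h1 : IsSympEmbedding (fun x : Sp m => x + Th.symm a) univ univ :=
    { smooth := (contDiff_id.add contDiff_const).contDiffOn
      inj := (add_left_injective _).injOn
      maps := mapsTo_univ _ _
      symp := fun x _ u v => by
        rw [fderiv_add_const]
        have : fderiv ℝ (fun x : Sp m => x) x = ContinuousLinearMap.id ℝ (Sp m) := fderiv_id
        rw [this]
        rfl }
  have h2 := chart_cap c isOpen_univ h1 (subset_univ (Th ⁻¹' W)) (hW.preimage Th.continuous)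
  rw [← h2]
  congr 1
  ext x
  constructor
  · rintro ⟨y, hy, hxy⟩
    refine ⟨Th.symm y, by simpa using hy, ?_⟩
    simp only at hxy ⊢
    rw [← map_add, hxy, ContinuousLinearEquiv.symm_apply_apply]
  · rintro ⟨y, hy, rfl⟩
    refine ⟨Th y, hy, ?_⟩
    simp

lemma cap_conf (c : Capacity m) {t : ℝ} (ht : 0 < t) {W : Set (E m)} (hW : IsOpen W) :
    c.val (Th ⁻¹' ((fun x => t • x) '' W)) = ENNReal.ofReal (t ^ 2) * c.val (Th ⁻¹' W) := by
  rw [← c.conf t _ ht (hW.preimage Th.continuous)]
  congr 1
  ext x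
  constructor
  · rintro ⟨y, hy, hxy⟩
    refine ⟨Th.symm y, by simpa using hy, ?_⟩
    simp only at hxy ⊢
    rw [← map_smul, hxy, ContinuousLinearEquiv.symm_apply_apply]
  · rintro ⟨y, hy, rfl⟩
    refine ⟨Th y, hy, ?_⟩
    simp

/-- **The regularised capacity.** -/
def ofCap (c : Capacity m) : RCap m where
  val := vR c
  mono _ _ h := vR_le fun _ hW => le_vR ⟨hW.1, hW.2.1, hW.2.2.trans h⟩
  reg {U} hU a ha := by
    rw [vR, lt_iSup_iff] at ha
    obtain ⟨⟨W, hW1, hW2, hW3⟩, ha⟩ := ha
    obtain ⟨W', h1, h2, h3, h4⟩ := exists_open_between_and_isCompact_closure hW2 hU hW3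
    exact ⟨W', h1, h4, h3, ha.trans_le (le_vR ⟨hW1, hW2, h2⟩)⟩
  symp A hA {U} hU := by
    have := vR_image (c := c) (k := 1) A.toHomeomorph.toOpenPartialHomeomorph
      (fun W _ hW => by rw [one_mul]; exact cap_linear c A hA hW) (subset_univ U)
    rwa [one_mul] at this
  trans a {U} hU := by
    have := vR_image (c := c) (k := 1) (Homeomorph.addRight a).toOpenPartialHomeomorph
      (fun W _ hW => by rw [one_mul]; exact cap_trans c a hW) (subset_univ U)
    rwa [one_mul] at this
  conf t ht {U} hU :=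
    vR_image (c := c) (Homeomorph.smulOfNeZero t ht.ne').toOpenPartialHomeomorph
      (fun W _ hW => cap_conf c ht hW) (subset_univ U)
  ball_pos := by
    have hb : IsOpen (ball1 m) := by
      refine isOpen_lt (continuous_finsetSum _ fun j _ => ?_) continuous_const
      exact ((continuous_fst.comp (continuous_apply j)).pow 2).add
        ((continuous_snd.comp (continuous_apply j)).pow 2)
    set W : Set (E m) := Th '' ((fun x => (1 / 2 : ℝ) • x) '' ball1 m) with hW
    have hWo : IsOpen W := Th.toHomeomorph.isOpenMap _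
      ((Homeomorph.smulOfNeZero (1 / 2 : ℝ) (by norm_num)).isOpenMap _ hb)
    have hWs : W ⊆ closedBall 0 (1 / 2) := by
      rintro _ ⟨_, ⟨x, hx, rfl⟩, rfl⟩
      have h1 : ∀ j, (x j).1 ^ 2 + (x j).2 ^ 2 < 1 := fun j => by
        refine lt_of_le_of_lt ?_ hx
        exact Finset.single_le_sum (f := fun j => (x j).1 ^ 2 + (x j).2 ^ 2)
          (fun j _ => by positivity) (Finset.mem_univ j)
      rw [mem_closedBall_zero_iff, map_smul, norm_smul, Real.norm_of_nonneg (by norm_num)]
      have h2 : ‖Th x‖ ≤ 1 := by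
        rw [Prod.norm_def, max_le_iff, pi_norm_le_iff_of_nonneg zero_le_one,
          pi_norm_le_iff_of_nonneg zero_le_one]
        refine ⟨fun j => ?_, fun j => ?_⟩
        · show |(x j).1| ≤ 1
          rw [← sq_le_one_iff_abs_le_one]
          nlinarith [h1 j, sq_nonneg (x j).2]
        · show |(x j).2| ≤ 1
          rw [← sq_le_one_iff_abs_le_one]
          nlinarith [h1 j, sq_nonneg (x j).1]
      linarith
    have hrel : Rel W (ball 0 1) := by
      have h1 : closure W ⊆ closedBall 0 (1 / 2) := closure_minimal hWs isClosed_closedBall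
      exact ⟨hWo, (isCompact_closedBall _ _).of_isClosed_subset isClosed_closure h1,
        h1.trans (closedBall_subset_ball (by norm_num))⟩
    refine lt_of_lt_of_le ?_ (le_vR hrel)
    have h2 : Th ⁻¹' W = (fun x => (1 / 2 : ℝ) • x) '' ball1 m :=
      preimage_image_eq _ Th.injective
    rw [h2, c.conf _ _ (by norm_num) hb, c.val_ball]
    have := Real.pi_pos
    refine ENNReal.mul_pos ?_ ?_
    · simp
    · simpa using this
  cyl_lt := by
    have hb : IsOpen (cyl1 m) :=
      isOpen_lt (((continuous_fst.comp (continuous_apply 0)).pow 2).add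
        ((continuous_snd.comp (continuous_apply 0)).pow 2)) continuous_const
    refine lt_of_le_of_lt (b := ENNReal.ofReal (2 ^ 2) * c.val (cyl1 m)) (vR_le fun W hW => ?_) ?_
    · rw [← c.conf 2 _ two_pos hb]
      have h1 : Th ⁻¹' W ⊆ (fun x => (2 : ℝ) • x) '' cyl1 m := by
        intro x hx
        obtain ⟨h2, h3⟩ := hW.2.2 (subset_closure hx)
        have h2' : |(x 0).1| < 1 := h2
        have h3' : |(x 0).2| < 1 := h3
        refine ⟨(1 / 2 : ℝ) • x, ?_, ?_⟩
        · show (((1 / 2 : ℝ) • x) 0).1 ^ 2 + (((1 / 2 : ℝ) • x) 0).2 ^ 2 < 1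
          simp only [Pi.smul_apply, Prod.smul_fst, Prod.smul_snd, smul_eq_mul]
          rw [← sq_lt_one_iff_abs_lt_one] at h2' h3'
          nlinarith
        · simp only [smul_smul]
          norm_num
      refine c.mono _ _ (hW.1.preimage Th.continuous)
        ((Homeomorph.smulOfNeZero (2 : ℝ) (by norm_num)).isOpenMap _ hb)
        ⟨id, contDiff_id.contDiffOn, Function.injective_id.injOn, h1, fun x _ u v => ?_⟩
      rw [fderiv_id]
      rfl
    · rw [c.val_cyl]
      exact ENNReal.mul_lt_top ENNReal.ofReal_lt_top ENNReal.ofReal_lt_top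

end Pool.Agent.H36.CSymp
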