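import Pool.Agent.H36.CSymp.LemH

set_option autoImplicit false

/-!
# Zooming into a fibre; local additive maps
-/

noncomputable section

namespace Pool.Agent.H36.CSymp

open Set Metric Topology Filter
open scoped ENNReal

variable {m : ℕ}

/-- local additive continuous maps are linear -/
lemma locAdd {a : V m → V m} {ρ : ℝ} (hρ : 0 < ρ)
    (hadd : ∀ w w', ‖w‖ < ρ → ‖w'‖ < ρ → a (w + w') = a w + a w') (hc : ContinuousAt a 0) :
    ∃ M : V m →L[ℝ] V m, ∀ w, ‖w‖ < ρ → a w = M w := by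
  have hhalf : ∀ w : V m, ‖(1 / 2 : ℝ) • w‖ ≤ ‖w‖ := fun w => by
    rw [norm_smul, Real.norm_of_nonneg (by norm_num)]
    linarith [norm_nonneg w]
  have h2 : ∀ w, ‖w‖ < ρ → a w = (2 : ℝ) • a ((1 / 2 : ℝ) • w) := fun w hw => by
    have h3 := hadd ((1 / 2 : ℝ) • w) ((1 / 2 : ℝ) • w) ((hhalf w).trans_lt hw)
      ((hhalf w).trans_lt hw)
    rw [← add_smul, add_halves, one_smul] at h3
    rw [h3, two_smul]
  have hlim : ∀ v : V m, ∃ N : ℕ, ∀ n, N ≤ n → ‖(1 / 2 : ℝ) ^ n • v‖ < ρ := fun v => by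
    have h3 : Tendsto (fun n : ℕ => ‖(1 / 2 : ℝ) ^ n • v‖) atTop (𝓝 0) := by
      have h4 := (tendsto_pow_atTop_nhds_zero_of_lt_one (r := (1 / 2 : ℝ)) (by norm_num)
        (by norm_num)).smul_const v
      rw [zero_smul] at h4
      simpa using h4.norm
    exact eventually_atTop.1 (h3.eventually (gt_mem_nhds hρ))
  choose N hN using hlim
  set A : V m → V m := fun v => (2 : ℝ) ^ N v • a ((1 / 2 : ℝ) ^ N v • v) with hA
  have hstep : ∀ (v : V m) (n : ℕ), ‖(1 / 2 : ℝ) ^ n • v‖ < ρ →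
      (2 : ℝ) ^ n • a ((1 / 2 : ℝ) ^ n • v) = (2 : ℝ) ^ (n + 1) • a ((1 / 2 : ℝ) ^ (n + 1) • v) := by
    intro v n hn
    rw [h2 _ hn, smul_smul, smul_smul, pow_succ, pow_succ']
  have key : ∀ (v : V m) (n : ℕ), N v ≤ n → A v = (2 : ℝ) ^ n • a ((1 / 2 : ℝ) ^ n • v) := by
    intro v n hn
    induction n, hn using Nat.le_induction with
    | base => rfl
    | succ n hn ih => rw [ih, hstep v n (hN v n hn)]
  have hsmall : ∀ w, ‖w‖ < ρ → a w = A w := by
    intro w hw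
    have h3 : ∀ n : ℕ, a w = (2 : ℝ) ^ n • a ((1 / 2 : ℝ) ^ n • w) := by
      intro n
      induction n with
      | zero => simp
      | succ n ih =>
        rw [ih]
        refine hstep w n (lt_of_le_of_lt ?_ hw)
        rw [norm_smul, Real.norm_of_nonneg (by positivity)]
        exact mul_le_of_le_one_left (norm_nonneg w) (pow_le_one₀ (by norm_num) (by norm_num))
    exact h3 (N w)
  have hAadd : ∀ v v', A (v + v') = A v + A v' := by
    intro v v'
    set n := max (max (N v) (N v')) (N (v + v')) with hn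
    have h1 : N v ≤ n := (le_max_left _ _).trans (le_max_left _ _)
    have h1' : N v' ≤ n := (le_max_right _ _).trans (le_max_left _ _)
    rw [key v n h1, key v' n h1', key (v + v') n (le_max_right _ _), smul_add,
      hadd _ _ (hN v n h1) (hN v' n h1'), smul_add]
  let A' : V m →+ V m := AddMonoidHom.mk' A hAadd
  have hA0 : ContinuousAt A' 0 := by
    refine hc.congr ?_
    have : ∀ᶠ w in 𝓝 (0 : V m), ‖w‖ < ρ := by
      have := Metric.ball_mem_nhds (0 : V m) hρ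
      filter_upwards [this] with w hw
      simpa using hw
    filter_upwards [this] with w hw using hsmall w hw
  exact ⟨A'.toRealLinearMap (continuous_of_continuousAt_zero A' hA0), fun w hw => hsmall w hw⟩

variable [NeZero m]

/-- zooming into a fibre of a map that preserves `q` -/
theorem Pres.fiber {c : RCap m} {q0 p0 : V m} {ρ : ℝ} {ψ : E m → E m}
    (h : Pres c (ball q0 ρ ×ˢ ball p0 ρ) ψ)
    (hψ : ∀ x ∈ (ball q0 ρ ×ˢ ball p0 ρ : Set (E m)), (ψ x).1 = x.1) {q : V m}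
    (hq : q ∈ ball q0 ρ) :
    Pres c (univ ×ˢ ball p0 ρ) fun x => (x.1, (ψ (q, x.2)).2) := by
  have hcont : ContinuousOn (fun p : V m => ψ (q, p)) (ball p0 ρ) :=
    h.cont.comp (by fun_prop) fun p hp => ⟨hq, hp⟩
  refine Pres.limit (isOpen_univ.prod isOpen_ball) ?_ ?_ ?_ ?_
  · refine continuous_fst.continuousOn.prodMk ?_
    exact continuous_snd.comp_continuousOn
      (hcont.comp continuous_snd.continuousOn fun x hx => hx.2)
  · rintro x ⟨-, hx⟩ y ⟨-, hy⟩ hxy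
    obtain ⟨h1, h2⟩ := Prod.mk.inj hxy
    have h3 : ψ (q, x.2) = ψ (q, y.2) := by
      refine Prod.ext ?_ h2
      rw [hψ (q, x.2) ⟨hq, hx⟩, hψ (q, y.2) ⟨hq, hy⟩]
    have h4 := h.inj (x₁ := (q, x.2)) (x₂ := (q, y.2)) ⟨hq, hx⟩ ⟨hq, hy⟩ h3
    exact Prod.ext h1 (Prod.mk.inj h4).2
  · intro W hW hWo
    rw [isOpen_iff_mem_nhds]
    rintro _ ⟨x, hx, rfl⟩
    obtain ⟨A, B, hA, hB, hxA, hxB, hAB⟩ := isOpen_prod_iff.1 hWo x.1 x.2 hx
    have hBs : B ⊆ ball p0 ρ := fun p hp => (hW (hAB (⟨hxA, hp⟩ : (x.1, p) ∈ A ×ˢ B))).2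
    have h1 : IsOpen (ψ '' (ball q0 ρ ×ˢ B)) :=
      h.opn _ (prod_mono subset_rfl hBs) (isOpen_ball.prod hB)
    have h2 : IsOpen ((fun p' : V m => (q, p')) ⁻¹' (ψ '' (ball q0 ρ ×ˢ B))) :=
      h1.preimage (by fun_prop)
    have h3 : (A ×ˢ ((fun p' : V m => (q, p')) ⁻¹' (ψ '' (ball q0 ρ ×ˢ B))) : Set (E m)) ⊆
        (fun x => (x.1, (ψ (q, x.2)).2)) '' W := by
      rintro ⟨a, p'⟩ ⟨ha, ⟨y, ⟨hy1, hy2⟩, hy⟩⟩
      have h4 := hψ y ⟨hy1, hBs hy2⟩
      rw [hy] at h4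
      refine ⟨(a, y.2), hAB ⟨ha, hy2⟩, ?_⟩
      have h5 : (q, y.2) = y := Prod.ext h4 rfl
      simp only [h5, hy]
    refine mem_of_superset ((hA.prod h2).mem_nhds ⟨hxA, ?_⟩) h3
    refine ⟨(q, x.2), ⟨hq, hxB⟩, ?_⟩
    refine Prod.ext ?_ rfl
    exact hψ (q, x.2) ⟨hq, hBs hxB⟩
  · intro K hK hKc ε hε
    have key : ∀ᶠ l : ℝ in 𝓝 0, ∀ x ∈ K, (q + l • x.1, x.2) ∈ ball q0 ρ ×ˢ ball p0 ρ ∧
        dist (ψ (q + l • x.1, x.2)).2 (ψ (q, x.2)).2 < ε := by
      refine hKc.eventually_forall_of_forall_eventually fun y hy => ?_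
      have hy' : (q, y.2) ∈ ball q0 ρ ×ˢ ball p0 ρ := ⟨hq, (hK hy).2⟩
      have hyn : ball q0 ρ ×ˢ ball p0 ρ ∈ 𝓝 (q, y.2) :=
        (isOpen_ball.prod isOpen_ball).mem_nhds hy'
      have h1 : ContinuousAt (fun z : ℝ × E m => (q + z.1 • z.2.1, z.2.2)) ((0 : ℝ), y) := by
        fun_prop
      have h1' : (fun z : ℝ × E m => (q + z.1 • z.2.1, z.2.2)) ((0 : ℝ), y) = (q, y.2) := by simp
      have h2 : ContinuousAt (fun z : ℝ × E m => (q, z.2.2)) ((0 : ℝ), y) := by fun_prop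
      have hψc : ContinuousAt ψ (q, y.2) := h.cont.continuousAt hyn
      have h3 : ContinuousAt (fun z : ℝ × E m => ψ (q + z.1 • z.2.1, z.2.2)) ((0 : ℝ), y) :=
        ContinuousAt.comp (g := ψ) (by simpa using hψc) h1
      have h4 : ContinuousAt (fun z : ℝ × E m => ψ (q, z.2.2)) ((0 : ℝ), y) :=
        ContinuousAt.comp (g := ψ) hψc h2
      have h5 : ContinuousAt (fun z : ℝ × E m =>
          dist (ψ (q + z.1 • z.2.1, z.2.2)).2 (ψ (q, z.2.2)).2) ((0 : ℝ), y) :=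
        (continuousAt_snd.comp h3).dist (continuousAt_snd.comp h4)
      have h6 := h1.eventually (by rw [h1']; exact hyn)
      have h7 := Filter.Tendsto.eventually_lt_const (u := ε) (by simpa using hε) h5
      exact h6.and h7
    obtain ⟨l, hl, hl0⟩ := ((key.filter_mono nhdsWithin_le_nhds).and
      (self_mem_nhdsWithin (s := Ioi (0 : ℝ)))).exists
    refine ⟨_, _, ?_, Pres.conj (mul_pos hl0 one_pos) (conf_scale c q 0 hl0 one_pos)
      (conf_scale c q 0 hl0 one_pos) h, fun x hx => ?_⟩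
    · intro x hx
      have := (hl x hx).1
      simpa using this
    · obtain ⟨h1, h2⟩ := hl x hx
      have h3 : scaleH q 0 hl0 one_pos x = (q + l • x.1, x.2) := by simp
      have h4 : (scaleH q 0 hl0 one_pos).symm (ψ (q + l • x.1, x.2)) =
          (x.1, (ψ (q + l • x.1, x.2)).2) := by
        rw [scaleH_symm_apply, hψ _ h1]
        refine Prod.ext ?_ ?_
        · simp [smul_smul, inv_mul_cancel₀ (ne_of_gt hl0)]
        · simp
      rw [h3, h4, Prod.dist_eq]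
      exact max_lt (by simpa using hε) h2

end Pool.Agent.H36.CSymp
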